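import Mathlib

/-!
Project SQ (helper633), problem MP_c6a6a6_lc: the theory of the integers with a predicate for the
squarefree numbers is not MS-measurable.  Definitions.
-/

set_option autoImplicit false

open FirstOrder

namespace Pool.Agent.N633.SQ

universe u

/-! ### the language and the structure of the integers -/

/-- function symbols: the constant `1`, the unary minus, the addition -/
inductive Fn : ℕ → Type
  | one : Fn 0
  | neg : Fn 1
  | add : Fn 2

/-- relation symbols `P_m` (`m ≥ 1`) and `U_(p,l)` (`p` prime, `l` an integer) -/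
inductive Rl : ℕ → Type
  | P (m : ℕ+) : Rl 1
  | U (p : Nat.Primes) (l : ℤ) : Rl 1

/-- the language `+, -, 1, P_m, U_(p,l)` -/
def L : FirstOrder.Language.{0, 0} := ⟨Fn, Rl⟩

/-- `v_p(a) < 2 + v_p(m)` for all primes `p`, with `v_p(0) = ∞` -/
def SqfM (m : ℕ+) (a : ℤ) : Prop :=
  ∀ p : ℕ, p.Prime → ¬ (p : ℤ) ^ (2 + padicValNat p m) ∣ a

/-- interpretation of the function symbols in `ℤ` -/
def fnZ : {n : ℕ} → Fn n → (Fin n → ℤ) → ℤ
  | _, Fn.one, _ => 1
  | _, Fn.neg, x => - x 0
  | _, Fn.add, x => x 0 + x 1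

/-- interpretation of the relation symbols in `ℤ`; `v_p(a) ≥ l` means that `p ^ l` divides `a`
for `l ≥ 0`, and is true for `l ≤ 0` -/
def rlZ : {n : ℕ} → Rl n → (Fin n → ℤ) → Prop
  | _, Rl.P m, x => SqfM m (x 0)
  | _, Rl.U p l, x => ((p : ℕ) : ℤ) ^ l.toNat ∣ x 0

/-- the integers as a structure -/
instance structZ : L.Structure ℤ where
  funMap := fun f x => fnZ f x
  RelMap := fun r x => rlZ r x

/-- the theory of the integers with the squarefree predicate -/
def TSqf : L.Theory := L.completeTheory ℤ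

/-! ### MS-measurable structures -/

/-- the leading term of a finite sum: the largest dimension, and the sum of the measures of the
terms of this dimension -/
noncomputable def lead {r : ℕ} (v : Fin r → ℕ × ℝ) : ℕ × ℝ :=
  (Finset.univ.sup fun i => (v i).1,
    ∑ i ∈ Finset.univ.filter (fun i => (v i).1 = Finset.univ.sup fun i => (v i).1), (v i).2)

/-- parameter-definable sets -/
def Dfn (Λ : FirstOrder.Language.{0, 0}) {M : Type u} [Λ.Structure M] {α : Type} (X : Set (α → M)) : Prop :=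
  (Set.univ : Set M).Definable Λ X

/-- `f` is a definable surjection from `X` onto `Y` -/
structure DSurj (Λ : FirstOrder.Language.{0, 0}) {M : Type u} [Λ.Structure M] {n k : ℕ}
    (X : Set (Fin n → M)) (Y : Set (Fin k → M)) (f : (Fin n → M) → (Fin k → M)) : Prop where
  dX : Dfn Λ X
  dY : Dfn Λ Y
  graph : Dfn Λ {z : Fin n ⊕ Fin k → M |
    (fun i => z (Sum.inl i)) ∈ X ∧ f (fun i => z (Sum.inl i)) = fun i => z (Sum.inr i)}
  image : f '' X = Y

/-- a function `h` as in the definition of MS-measurable structures (Macpherson and Steinhorn) -/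
structure MSMeasure (Λ : FirstOrder.Language.{0, 0}) (M : Type u) [Λ.Structure M] where
  /-- dimension and measure -/
  h : ∀ n : ℕ, Set (Fin n → M) → ℕ × ℝ
  /-- the values are in `ℕ × ℝ_{>0}` or equal to `(0, 0)` -/
  val : ∀ (n : ℕ) (X : Set (Fin n → M)), 1 ≤ n → Dfn Λ X → h n X = (0, 0) ∨ 0 < (h n X).2
  /-- (1) finitely many values in a definable family, with `∅`-definable level sets -/
  cond1 : ∀ n k : ℕ, 1 ≤ n → ∀ φ : Λ.Formula (Fin n ⊕ Fin k),
    (Set.range fun b : Fin k → M => h n {x | φ.Realize (Sum.elim x b)}).Finite ∧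
    ∀ v : ℕ × ℝ, (∅ : Set M).Definable Λ {b : Fin k → M | h n {x | φ.Realize (Sum.elim x b)} = v}
  /-- (2) finite sets -/
  cond2 : ∀ (n : ℕ) (X : Set (Fin n → M)), 1 ≤ n → X.Finite → h n X = (0, (X.ncard : ℝ))
  /-- (3) the theorem of Fubini -/
  cond3 : ∀ (n k : ℕ) (X : Set (Fin n → M)) (Y : Set (Fin k → M))
    (f : (Fin n → M) → (Fin k → M)), 1 ≤ n → 1 ≤ k → DSurj Λ X Y f →
    ∃ (r : ℕ) (Z : Fin r → Set (Fin k → M)) (v : Fin r → ℕ × ℝ),
      (∀ i, (Z i).Nonempty ∧ Dfn Λ (Z i)) ∧ Pairwise (fun i j => Disjoint (Z i) (Z j)) ∧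
      (⋃ i, Z i) = Y ∧ (∀ i, ∀ y ∈ Z i, h n {x | x ∈ X ∧ f x = y} = v i) ∧
      h n X = lead fun i => ((v i).1 + (h k (Z i)).1, (v i).2 * (h k (Z i)).2)

/-- a theory is MS-measurable if it has an MS-measurable model -/
def MSMeasurable (Λ : FirstOrder.Language.{0, 0}) (T : Λ.Theory) : Prop :=
  ∃ (M : Type u) (_ : Λ.Structure M), M ⊨ T ∧ Nonempty (MSMeasure Λ M)

end Pool.Agent.N633.SQ
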