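import Pool.Agent.N633.SQ.Stm

/-!
Project SQ: a definable set with common translates of every order has full dimension.
-/

set_option autoImplicit false

open FirstOrder

namespace Pool.Agent.N633.SQ.Dim

universe u

open Pool.Agent.N633.SQ

theorem ladd_le_right (v w : ℕ × ℝ) : v.1 ≤ (ladd v w).1 := by
  unfold ladd
  split_ifs with h h'
  · exact le_of_lt h
  · exact le_rfl
  · exact le_rfl

theorem main : S_MS1.{u} → S_MS2.{u} → S_DIM.{u} := by
  intro h1 h2 Λ M _ _ _ μ hA P hP hk
  obtain ⟨a1, a2, a3, a4, a5⟩ := h1 Λ M μ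
  obtain ⟨b1, b2, b3, b4⟩ := h2 Λ M μ hA
  have huniv : DS Λ (Set.univ : Set M) := by
    have : up (Set.univ : Set M) = Set.univ := by ext z; simp [up]
    unfold DS Dfn
    rw [this]
    exact Set.definable_univ
  have hmono : (hh μ P).1 ≤ (hh μ (Set.univ : Set M)).1 := by
    have hun : up (Set.univ : Set M) = up P ∪ (up P)ᶜ := by
      rw [Set.union_compl_self]; ext z; simp [up]
    have := a2 1 (up P) (up P)ᶜ le_rfl hP (Set.Definable.compl hP) disjoint_compl_right
    unfold hh
    rw [hun, this]
    exact ladd_le_right _ _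
  by_contra hne
  have hlt : (hh μ P).1 < (hh μ (Set.univ : Set M)).1 := lt_of_le_of_ne hmono hne
  obtain ⟨G, hG, hGd, hGt⟩ := hk ((hh μ P).1 + 1)
  have key : ∀ (m : ℕ) (X : Set M), DS Λ X →
      (∀ e : Fin m → M, (∀ i, e i ∈ G) → ∃ x ∈ X, ∀ i, x + e i ∈ P) → m ≤ (hh μ X).1 := by
    intro m
    induction m with
    | zero => intro X _ _; exact Nat.zero_le _
    | succ m ih =>
      intro X hX he
      by_contra hc
      push Not at hc
      have hD := b4 X P G hX hP hG hGd (by
        intro d hd
        have hsh : DS Λ (sh X P d) := by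
          have : up (sh X P d) = up X ∩ up {x | x + d ∈ P} := by
            ext z; simp [up, sh]
          unfold DS Dfn
          rw [this]
          exact Set.Definable.inter hX (b1 P d hP).1
        have hcommon : ∀ e : Fin m → M, (∀ i, e i ∈ G) → ∃ x ∈ sh X P d, ∀ i, x + e i ∈ P := by
          intro e hee
          obtain ⟨x, hx, hxe⟩ := he (Fin.cons d e) (by
            intro i
            refine Fin.cases ?_ ?_ i
            · simpa using hd
            · intro j; simpa using hee j)
          refine ⟨x, ⟨hx, by simpa using hxe 0⟩, fun i => by simpa using hxe i.succ⟩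
        refine ⟨?_, ?_⟩
        · obtain ⟨x, hx, -⟩ := hcommon (fun _ => 0) (fun _ => G.zero_mem)
          exact ⟨x, hx⟩
        · have := ih (sh X P d) hsh hcommon
          omega)
      omega
  have := key ((hh μ P).1 + 1) P hP hGt
  omega

end Pool.Agent.N633.SQ.Dim
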