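import Pool.Agent.N633.SQ.Stm

/-!
Project SQ (helper633), problem MP_c6a6a6_lc: part Fa. The elementary data which an MS-measure
would give are contradictory, from the statement on positive definite functions.
-/

set_option autoImplicit false

namespace Pool.Agent.N633.SQ.Fa

universe u

/-! ### finitely additive invariant measures -/

/-- finitely additive translation invariant probability measures on an algebra of sets -/
structure FAM {M : Type u} [AddCommGroup M] (D : Set (Set M)) (m : Set M → ℝ) : Prop where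
  univ_mem : Set.univ ∈ D
  compl : ∀ A ∈ D, Aᶜ ∈ D
  inter : ∀ A ∈ D, ∀ B ∈ D, A ∩ B ∈ D
  trans : ∀ A ∈ D, ∀ t : M, {x | x + t ∈ A} ∈ D ∧ m {x | x + t ∈ A} = m A
  nonneg : ∀ A ∈ D, 0 ≤ m A
  one : m Set.univ = 1
  add : ∀ A ∈ D, ∀ B ∈ D, Disjoint A B → m (A ∪ B) = m A + m B

variable {M : Type u} [AddCommGroup M] {D : Set (Set M)} {m : Set M → ℝ}

theorem empty_mem (h : FAM D m) : (∅ : Set M) ∈ D := by
  have := h.compl _ h.univ_mem
  rwa [Set.compl_univ] at this

theorem union_mem (h : FAM D m) {A B : Set M} (hA : A ∈ D) (hB : B ∈ D) : A ∪ B ∈ D := by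
  have := h.compl _ (h.inter _ (h.compl _ hA) _ (h.compl _ hB))
  rwa [Set.compl_inter, compl_compl, compl_compl] at this

theorem m_empty (h : FAM D m) : m ∅ = 0 := by
  have := h.add ∅ (empty_mem h) ∅ (empty_mem h) (Set.disjoint_empty _)
  rw [Set.union_empty] at this
  linarith

theorem add_fin (h : FAM D m) {β : Type*} (T : Finset β) (C : β → Set M)
    (hC : ∀ b ∈ T, C b ∈ D) (hd : ∀ a ∈ T, ∀ b ∈ T, a ≠ b → Disjoint (C a) (C b)) :
    (⋃ b ∈ T, C b) ∈ D ∧ m (⋃ b ∈ T, C b) = ∑ b ∈ T, m (C b) := by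
  classical
  induction T using Finset.induction_on with
  | empty =>
    simp only [Finset.notMem_empty, Set.iUnion_of_empty, Set.iUnion_empty, Finset.sum_empty]
    exact ⟨empty_mem h, m_empty h⟩
  | insert a T ha ih =>
    obtain ⟨h1, h2⟩ := ih (fun b hb => hC b (Finset.mem_insert_of_mem hb))
      (fun a ha b hb => hd a (Finset.mem_insert_of_mem ha) b (Finset.mem_insert_of_mem hb))
    have h3 := hC a (Finset.mem_insert_self a T)
    rw [Finset.set_biUnion_insert, Finset.sum_insert ha]
    refine ⟨union_mem h h3 h1, ?_⟩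
    rw [h.add _ h3 _ h1, h2]
    rw [Set.disjoint_iUnion₂_right]
    intro b hb
    exact hd a (Finset.mem_insert_self a T) b (Finset.mem_insert_of_mem hb)
      (fun hab => ha (hab ▸ hb))

theorem part (h : FAM D m) {β : Type*} (T : Finset β) (f : M → β) (B : Set M) (hB : B ∈ D)
    (hT : ∀ x ∈ B, f x ∈ T) (hf : ∀ b ∈ T, {x | f x = b} ∈ D) :
    m B = ∑ b ∈ T, m ({x | f x = b} ∩ B) := by
  rw [← (add_fin h T (fun b => {x | f x = b} ∩ B) (fun b hb => h.inter _ (hf b hb) _ hB) ?_).2]
  · congr 1
    ext x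
    simp only [Set.mem_iUnion, Set.mem_inter_iff, Set.mem_ofPred_eq, exists_prop]
    constructor
    · intro hx
      exact ⟨f x, hT x hx, rfl, hx⟩
    · rintro ⟨b, -, -, hx⟩
      exact hx
  · intro a _ b _ hab
    rw [Set.disjoint_left]
    rintro x ⟨h1, -⟩ ⟨h2, -⟩
    exact hab (h1.symm.trans h2)

theorem all_mem (h : FAM D m) {ι : Type*} (T : Finset ι) (C : ι → Set M)
    (hC : ∀ i ∈ T, C i ∈ D) : {x | ∀ i ∈ T, x ∈ C i} ∈ D := by
  classical
  induction T using Finset.induction_on with
  | empty =>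
    simp only [Finset.notMem_empty, false_imp_iff, implies_true, Set.ofPred_true]
    exact h.univ_mem
  | insert a T ha ih =>
    have h1 := ih (fun b hb => hC b (Finset.mem_insert_of_mem hb))
    have h2 := h.inter _ (hC a (Finset.mem_insert_self a T)) _ h1
    convert h2 using 1
    ext x
    simp [Finset.mem_insert]

/-- means of linear combinations -/
theorem joint (h : FAM D m) {ι : Type*} [Fintype ι] (F : ι → M → ℝ) (V : Finset ℝ)
    (hV : ∀ i x, F i x ∈ V) (hF : ∀ i v, {x | F i x = v} ∈ D) (l : ι → ℝ) (B : Set M)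
    (hB : B ∈ D) (c : ι → ℝ) (hc : ∀ i, ∑ v ∈ V, v * m ({x | F i x = v} ∩ B) = c i) :
    ∃ (T : Finset (ι → ℝ)), (∑ i, l i * c i =
      ∑ τ ∈ T, (∑ i, l i * τ i) * m ({x | (fun i => F i x) = τ} ∩ B)) ∧
      (m B = ∑ τ ∈ T, m ({x | (fun i => F i x) = τ} ∩ B)) ∧
      (∀ τ ∈ T, {x | (fun i => F i x) = τ} ∩ B ∈ D) := by
  classical
  set T : Finset (ι → ℝ) := Fintype.piFinset (fun _ => V) with hT
  have hTm : ∀ x, (fun i => F i x) ∈ T := by
    intro x
    rw [hT, Fintype.mem_piFinset]
    intro i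
    exact hV i x
  have hD : ∀ τ : ι → ℝ, {x | (fun i => F i x) = τ} ∈ D := by
    intro τ
    have h1 := all_mem h Finset.univ (fun i => {x | F i x = τ i}) (fun i _ => hF i _)
    convert h1 using 1
    ext x
    simp [funext_iff]
  refine ⟨T, ?_, part h T _ B hB (fun x _ => hTm x) (fun τ _ => hD τ),
    fun τ _ => h.inter _ (hD τ) _ hB⟩
  have h2 : ∀ i, c i = ∑ τ ∈ T, τ i * m ({x | (fun i => F i x) = τ} ∩ B) := by
    intro i
    rw [← hc i]
    have h3 : ∀ v ∈ V, v * m ({x | F i x = v} ∩ B) =
        ∑ τ ∈ T, if τ i = v then τ i * m ({x | (fun i => F i x) = τ} ∩ B) else 0 := by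
      intro v _
      rw [part h T (fun x => (fun i => F i x)) ({x | F i x = v} ∩ B) (h.inter _ (hF i v) _ hB)
        (fun x _ => hTm x) (fun τ _ => hD τ), Finset.mul_sum]
      refine Finset.sum_congr rfl ?_
      intro τ _
      split_ifs with h4
      · rw [h4]
        congr 2
        ext x
        simp only [Set.mem_inter_iff, Set.mem_ofPred_eq]
        constructor
        · rintro ⟨h5, -, h6⟩
          exact ⟨h5, h6⟩
        · rintro ⟨h5, h6⟩
          refine ⟨h5, ?_, h6⟩
          rw [← h4, ← h5]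
      · have h5 : {x | (fun i => F i x) = τ} ∩ ({x | F i x = v} ∩ B) = ∅ := by
          ext x
          simp only [Set.mem_inter_iff, Set.mem_ofPred_eq, Set.mem_empty_iff_false, iff_false]
          rintro ⟨h6, h7, -⟩
          apply h4
          rw [← h6]
          exact h7
        rw [h5, m_empty h, mul_zero]
    rw [Finset.sum_congr rfl h3, Finset.sum_comm]
    refine Finset.sum_congr rfl ?_
    intro τ hτ
    rw [Finset.sum_ite_eq, if_pos]
    rw [hT, Fintype.mem_piFinset] at hτ
    exact hτ i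
  have h6 : ∀ i, l i * c i = ∑ τ ∈ T, l i * (τ i * m ({x | (fun i => F i x) = τ} ∩ B)) := by
    intro i
    rw [h2 i, Finset.mul_sum]
  rw [Finset.sum_congr rfl (fun i _ => h6 i), Finset.sum_comm]
  refine Finset.sum_congr rfl ?_
  intro τ _
  rw [Finset.sum_mul]
  refine Finset.sum_congr rfl ?_
  intro i _
  ring

theorem pd (h : FAM D m) {k : ℕ} (A : Fin k → Set M) (hA : ∀ i, A i ∈ D) (l : Fin k → ℝ) :
    0 ≤ ∑ i, ∑ j, l i * l j * m (A i ∩ A j) := by
  classical
  set f : M → Finset (Fin k) := fun x => Finset.univ.filter (fun i => x ∈ A i) with hf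
  have hD : ∀ τ : Finset (Fin k), {x | f x = τ} ∈ D := by
    intro τ
    have h1 := all_mem h Finset.univ (fun i => if i ∈ τ then A i else (A i)ᶜ) (fun i _ => by
      by_cases hi : i ∈ τ
      · rw [if_pos hi]; exact hA i
      · rw [if_neg hi]; exact h.compl _ (hA i))
    convert h1 using 1
    ext x
    simp only [Set.mem_ofPred_eq, Finset.mem_univ, true_imp_iff, hf, Finset.ext_iff,
      Finset.mem_filter, true_and]
    refine forall_congr' ?_
    intro i
    by_cases hi : i ∈ τ
    · simp [hi]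
    · simp [hi]
  have h1 : ∀ i j, m (A i ∩ A j) = ∑ τ : Finset (Fin k),
      (if i ∈ τ then (1 : ℝ) else 0) * (if j ∈ τ then (1 : ℝ) else 0) * m {x | f x = τ} := by
    intro i j
    rw [part h Finset.univ f (A i ∩ A j) (h.inter _ (hA i) _ (hA j))
      (fun x _ => Finset.mem_univ _) (fun τ _ => hD τ)]
    refine Finset.sum_congr rfl ?_
    intro τ _
    by_cases hi : i ∈ τ
    · by_cases hj : j ∈ τ
      · rw [if_pos hi, if_pos hj, one_mul, one_mul]
        congr 1
        ext x
        simp only [Set.mem_inter_iff, Set.mem_ofPred_eq]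
        constructor
        · exact fun h => h.1
        · intro hx
          refine ⟨hx, ?_, ?_⟩
          · rw [← hx] at hi
            exact (Finset.mem_filter.1 hi).2
          · rw [← hx] at hj
            exact (Finset.mem_filter.1 hj).2
      · rw [if_neg hj, mul_zero, zero_mul]
        have : {x | f x = τ} ∩ (A i ∩ A j) = ∅ := by
          ext x
          simp only [Set.mem_inter_iff, Set.mem_ofPred_eq, Set.mem_empty_iff_false, iff_false]
          rintro ⟨h1, -, h2⟩
          apply hj
          rw [← h1]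
          exact Finset.mem_filter.2 ⟨Finset.mem_univ _, h2⟩
        rw [this, m_empty h]
    · rw [if_neg hi, zero_mul, zero_mul]
      have : {x | f x = τ} ∩ (A i ∩ A j) = ∅ := by
        ext x
        simp only [Set.mem_inter_iff, Set.mem_ofPred_eq, Set.mem_empty_iff_false, iff_false]
        rintro ⟨h1, h2, -⟩
        apply hi
        rw [← h1]
        exact Finset.mem_filter.2 ⟨Finset.mem_univ _, h2⟩
      rw [this, m_empty h]
  have h2 : ∑ i, ∑ j, l i * l j * m (A i ∩ A j) =
      ∑ τ : Finset (Fin k), m {x | f x = τ} * (∑ i, l i * (if i ∈ τ then (1 : ℝ) else 0)) ^ 2 := by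
    have h3 : ∀ τ : Finset (Fin k),
        m {x | f x = τ} * (∑ i, l i * (if i ∈ τ then (1 : ℝ) else 0)) ^ 2 =
        ∑ i, ∑ j, l i * l j * ((if i ∈ τ then (1 : ℝ) else 0) *
          (if j ∈ τ then (1 : ℝ) else 0) * m {x | f x = τ}) := by
      intro τ
      rw [sq, Finset.sum_mul_sum, Finset.mul_sum]
      refine Finset.sum_congr rfl ?_
      intro i _
      rw [Finset.mul_sum]
      refine Finset.sum_congr rfl ?_
      intro j _
      ring
    have h4 : ∑ τ : Finset (Fin k), m {x | f x = τ} *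
        (∑ i, l i * (if i ∈ τ then (1 : ℝ) else 0)) ^ 2 =
        ∑ i, ∑ j, ∑ τ : Finset (Fin k), l i * l j * ((if i ∈ τ then (1 : ℝ) else 0) *
          (if j ∈ τ then (1 : ℝ) else 0) * m {x | f x = τ}) := by
      rw [Finset.sum_congr rfl (fun τ _ => h3 τ), Finset.sum_comm]
      exact Finset.sum_congr rfl (fun i _ => Finset.sum_comm)
    rw [h4]
    refine Finset.sum_congr rfl ?_
    intro i _
    refine Finset.sum_congr rfl ?_
    intro j _
    rw [h1 i j, Finset.mul_sum]
  rw [h2]
  refine Finset.sum_nonneg ?_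
  intro τ _
  exact mul_nonneg (h.nonneg _ (hD τ)) (sq_nonneg _)

/-! ### classes -/

theorem cls_eq (one : M) (r N : ℕ) : cls one r N = {x | x + (-(r • one)) ∈ mul M N} := by
  ext x
  unfold cls mul
  simp only [Set.mem_ofPred_eq]
  constructor
  · rintro ⟨y, rfl⟩
    exact ⟨y, by abel⟩
  · rintro ⟨y, hy⟩
    exact ⟨y, by rw [← hy]; abel⟩

theorem cls_mem (h : FAM D m) (one : M) (N : ℕ) (hN : mul M N ∈ D) (r : ℕ) :
    cls one r N ∈ D ∧ m (cls one r N) = m (mul M N) := by
  rw [cls_eq]
  exact h.trans _ hN _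

theorem cls_disj (one : M) (N : ℕ)
    (h12 : ∀ r < N, ∀ s < N, r • one ∈ cls one s N → r = s) (a : ℕ) (ha : a < N) (b : ℕ)
    (hb : b < N) (hab : a ≠ b) : Disjoint (cls one a N) (cls one b N) := by
  rw [Set.disjoint_left]
  rintro x ⟨y, hy⟩ ⟨z, hz⟩
  apply hab
  refine h12 a ha b hb ⟨z - y, ?_⟩
  rw [smul_sub]
  have h1 : a • one = x - N • y := by rw [hy]; abel
  rw [h1, hz]
  abel

theorem m_mul (h : FAM D m) (one : M) (N : ℕ) (hN : mul M N ∈ D)
    (h11 : ∀ x : M, ∃ r < N, x ∈ cls one r N)
    (h12 : ∀ r < N, ∀ s < N, r • one ∈ cls one s N → r = s) : N * m (mul M N) = 1 := by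
  have h1 := (add_fin h (Finset.range N) (fun r => cls one r N)
    (fun r _ => (cls_mem h one N hN r).1)
    (fun a ha b hb hab => cls_disj one N h12 a (Finset.mem_range.1 ha) b (Finset.mem_range.1 hb)
      hab)).2
  have h2 : (⋃ r ∈ Finset.range N, cls one r N) = Set.univ := by
    rw [Set.eq_univ_iff_forall]
    intro x
    obtain ⟨r, hr, hx⟩ := h11 x
    simp only [Set.mem_iUnion, exists_prop]
    exact ⟨r, Finset.mem_range.2 hr, hx⟩
  rw [h2, h.one, Finset.sum_congr rfl (fun r _ => (cls_mem h one N hN r).2)] at h1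
  rw [h1]
  simp

/-! ### growth -/

theorem sum_split (f : ℕ → ℝ) (N K : ℕ) : ∑ i ∈ Finset.range (N * K), f i =
    ∑ r ∈ Finset.range N, ∑ t ∈ Finset.range K, f (r + N * t) := by
  induction K with
  | zero => simp
  | succ K ih =>
    rw [Nat.mul_succ, Finset.sum_range_add, ih, ← Finset.sum_add_distrib]
    refine Finset.sum_congr rfl ?_
    intro r _
    rw [Finset.sum_range_succ, add_comm (N * K) r]

theorem growth (h : FAM D m) (one : M) (P : Set M) (hP : P ∈ D) (hPpos : 0 < m P)
    (h10 : ∀ N : ℕ, 1 ≤ N → mul M N ∈ D)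
    (h11 : ∀ N : ℕ, 1 ≤ N → ∀ x : M, ∃ r < N, x ∈ cls one r N)
    (h12 : ∀ N : ℕ, 1 ≤ N → ∀ r < N, ∀ s < N, r • one ∈ cls one s N → r = s)
    (h13 : ∀ p : ℕ, p.Prime → ∀ y : M, (p ^ 2) • y ∉ P) (N : ℕ) (hN : 1 ≤ N) :
    ∃ N' : ℕ, 1 ≤ N' ∧ (N : ℝ) * ∑ r ∈ Finset.range N, m (P ∩ cls one r N) ^ 2 <
      N' * ∑ r ∈ Finset.range N', m (P ∩ cls one r N') ^ 2 := by
  obtain ⟨p, hpN, hp⟩ := Nat.exists_infinite_primes (N + 1)
  have hp2 := hp.two_le
  have hcop : Nat.Coprime N (p ^ 2) := by
    apply Nat.Coprime.pow_right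
    exact ((Nat.Prime.coprime_iff_not_dvd hp).2 (fun hd => by
      have := Nat.le_of_dvd (by omega) hd
      omega)).symm
  set q := p ^ 2 with hq
  have hq4 : 4 ≤ q := by rw [hq]; nlinarith
  have hNq : 1 ≤ N * q := by
    have : 0 < N * q := Nat.mul_pos (by omega) (by omega)
    omega
  have hPD : ∀ (K : ℕ), 1 ≤ K → ∀ r, P ∩ cls one r K ∈ D := fun K hK r =>
    h.inter _ hP _ (cls_mem h one K (h10 K hK) r).1
  -- decomposition of a class
  have hdec : ∀ r < N, m (P ∩ cls one r N) =
      ∑ t ∈ Finset.range q, m (P ∩ cls one (r + N * t) (N * q)) := by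
    intro r hr
    rw [← (add_fin h (Finset.range q) (fun t => P ∩ cls one (r + N * t) (N * q))
      (fun t _ => hPD _ hNq _) ?_).2]
    · congr 1
      ext x
      simp only [Set.mem_iUnion, Set.mem_inter_iff, exists_prop, Finset.mem_range]
      constructor
      · rintro ⟨hx, y, hy⟩
        obtain ⟨t, ht, z, hz⟩ := h11 q (by omega) y
        refine ⟨t, ht, hx, z, ?_⟩
        rw [hy, hz, smul_add, smul_smul, smul_smul, add_smul]
        abel
      · rintro ⟨t, ht, hx, z, hz⟩
        refine ⟨hx, t • one + q • z, ?_⟩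
        rw [hz, smul_add, smul_smul, smul_smul, add_smul]
        abel
    · intro a ha b hb hab
      have hlt : ∀ t, t < q → r + N * t < N * q := by
        intro t ht
        have : N * (t + 1) ≤ N * q := Nat.mul_le_mul_left N ht
        nlinarith
      refine Disjoint.mono Set.inter_subset_right Set.inter_subset_right
        (cls_disj one (N * q) (h12 _ hNq) _ (hlt a (Finset.mem_range.1 ha)) _
          (hlt b (Finset.mem_range.1 hb)) ?_)
      intro he
      apply hab
      have : N * a = N * b := by omega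
      exact Nat.eq_of_mul_eq_mul_left (by omega) this
  -- one of the classes is empty
  have hex : ∀ r < N, ∃ t < q, P ∩ cls one (r + N * t) (N * q) = ∅ := by
    intro r _
    obtain ⟨t, ht⟩ : ∃ t : ℕ, (q : ℤ) ∣ (r : ℤ) + N * t := by
      have hc : IsCoprime (N : ℤ) (q : ℤ) := Nat.isCoprime_iff_coprime.2 hcop
      obtain ⟨a, b, hab⟩ := hc
      refine ⟨((-(r : ℤ) * a) % q).toNat, ?_⟩
      have hnn : 0 ≤ (-(r : ℤ) * a) % q := Int.emod_nonneg _ (by omega)
      rw [Int.toNat_of_nonneg hnn]
      have h1 : (q : ℤ) ∣ (-(r : ℤ) * a) - (-(r : ℤ) * a) % q := Int.dvd_self_sub_emod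
      obtain ⟨c, hc⟩ := h1
      have h2 : (-(r : ℤ) * a) % q = -(r : ℤ) * a - q * c := by linarith
      rw [h2]
      refine ⟨r * b - N * c, ?_⟩
      have h3 : (r : ℤ) = r * (a * N + b * q) := by rw [hab, mul_one]
      linear_combination h3
    refine ⟨t % q, Nat.mod_lt _ (by omega), ?_⟩
    have ht2 : q ∣ r + N * (t % q) := by
      have h1 : (q : ℤ) ∣ ((r + N * (t % q) : ℕ) : ℤ) := by
        push_cast
        have h2 : (r : ℤ) + N * (t % q : ℤ) = (r + N * t) - q * (N * (t / q : ℤ)) := by
          have h3 := Int.emod_add_mul_ediv (t : ℤ) q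
          linear_combination (N : ℤ) * h3
        rw [h2]
        exact dvd_sub ht (dvd_mul_right _ _)
      exact_mod_cast h1
    obtain ⟨c, hc⟩ := ht2
    ext x
    simp only [Set.mem_inter_iff, Set.mem_empty_iff_false, iff_false]
    rintro ⟨hx, y, hy⟩
    apply h13 p hp (c • one + N • y)
    rw [← hq]
    have : x = q • (c • one + N • y) := by
      rw [hy, hc, smul_add, smul_smul, smul_smul, mul_comm N q]
    rw [← this]
    exact hx
  have hcs : ∀ r < N, m (P ∩ cls one r N) ^ 2 ≤
      ((q : ℝ) - 1) * ∑ t ∈ Finset.range q, m (P ∩ cls one (r + N * t) (N * q)) ^ 2 := by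
    intro r hr
    obtain ⟨t0, ht0, he⟩ := hex r hr
    have ht0' := Finset.mem_range.2 ht0
    rw [hdec r hr, ← Finset.add_sum_erase _ _ ht0', ← Finset.add_sum_erase _
      (fun t => m (P ∩ cls one (r + N * t) (N * q)) ^ 2) ht0', he, m_empty h, zero_add]
    have h1 := sq_sum_le_card_mul_sum_sq (s := (Finset.range q).erase t0)
      (f := fun t => m (P ∩ cls one (r + N * t) (N * q)))
    rw [Finset.card_erase_of_mem ht0', Finset.card_range] at h1
    have h2 : ((q - 1 : ℕ) : ℝ) = (q : ℝ) - 1 := by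
      rw [Nat.cast_sub (by omega)]
      simp
    rw [h2] at h1
    simpa using h1
  set X := ∑ r ∈ Finset.range N, m (P ∩ cls one r N) ^ 2 with hX
  set Y := ∑ r ∈ Finset.range (N * q), m (P ∩ cls one r (N * q)) ^ 2 with hY
  have hXY : X ≤ ((q : ℝ) - 1) * Y := by
    rw [hX, hY, sum_split, Finset.mul_sum]
    exact Finset.sum_le_sum (fun r hr => hcs r (Finset.mem_range.1 hr))
  have hXpos : 0 < X := by
    by_contra hx
    push Not at hx
    have h0 : ∀ r ∈ Finset.range N, 0 ≤ m (P ∩ cls one r N) ^ 2 := fun r _ => sq_nonneg _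
    have h1 : X = 0 := le_antisymm hx (Finset.sum_nonneg h0)
    rw [hX, Finset.sum_eq_zero_iff_of_nonneg h0] at h1
    have h2 : m P = ∑ r ∈ Finset.range N, m (P ∩ cls one r N) := by
      rw [← (add_fin h (Finset.range N) (fun r => P ∩ cls one r N)
        (fun t _ => hPD _ hN _) ?_).2]
      · congr 1
        ext x
        simp only [Set.mem_iUnion, Set.mem_inter_iff, exists_prop, Finset.mem_range]
        constructor
        · intro hx
          obtain ⟨r, hr, hr2⟩ := h11 N hN x
          exact ⟨r, hr, hx, hr2⟩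
        · rintro ⟨r, -, hx, -⟩
          exact hx
      · intro a ha b hb hab
        exact Disjoint.mono Set.inter_subset_right Set.inter_subset_right
          (cls_disj one N (h12 _ hN) _ (Finset.mem_range.1 ha) _ (Finset.mem_range.1 hb) hab)
    have h3 : m P = 0 := by
      rw [h2]
      refine Finset.sum_eq_zero ?_
      intro r hr
      have := h1 r hr
      exact pow_eq_zero_iff (two_ne_zero) |>.1 this
    linarith
  refine ⟨N * q, hNq, ?_⟩
  have hN0 : (0 : ℝ) < N := by exact_mod_cast hN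
  have hq0 : (4 : ℝ) ≤ q := by exact_mod_cast hq4
  have hYpos : 0 < Y := by
    by_contra hy
    push Not at hy
    have : ((q : ℝ) - 1) * Y ≤ 0 := mul_nonpos_of_nonneg_of_nonpos (by linarith) hy
    linarith
  push_cast
  have h4 : X < q * Y := by nlinarith
  calc (N : ℝ) * X < N * (q * Y) := mul_lt_mul_of_pos_left h4 hN0
    _ = N * q * Y := by ring

theorem main : S_PD → S_FA.{u} := by
  intro hPD M _ one D m P h1 h2 h3 h4 h5 h6 h7 hP hPpos h10 h11 h12 h13 V h14 h15 h16 h17
  have h : FAM D m := ⟨h1, h2, h3, h4, h5, h6, h7⟩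
  set g : ℤ → ℝ := fun n => m (pp P (n • one)) with hg
  set S : ℕ → ℝ := fun N => N * ∑ r ∈ Finset.range N, m (P ∩ cls one r N) ^ 2 with hS
  have hfin : (Set.range g).Finite := by
    refine Set.Finite.subset V.finite_toSet ?_
    rintro _ ⟨n, rfl⟩
    exact h14 _
  have hpp : ∀ d, pp P d ∈ D := by
    intro d
    have e : pp P d = P ∩ {x | x + d ∈ P} := rfl
    rw [e]
    exact h.inter _ hP _ (h.trans _ hP d).1
  have heven : ∀ n, g (-n) = g n := by
    intro n
    show m (pp P ((-n) • one)) = m (pp P (n • one))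
    have e1 : pp P ((-n) • one) = {x | x + (-n) • one ∈ pp P (n • one)} := by
      ext x
      unfold pp
      simp only [Set.mem_ofPred_eq]
      rw [neg_smul, neg_add_cancel_right, and_comm]
    rw [e1]
    exact (h.trans _ (hpp _) _).2
  refine hPD g S hfin heven ?_ ?_ ?_
  · intro k x l
    have e := pd h (fun i => {z | z + x i • one ∈ P}) (fun i => (h.trans _ hP _).1) l
    refine e.trans (le_of_eq ?_)
    unfold ph
    refine Finset.sum_congr rfl ?_
    intro i _
    refine Finset.sum_congr rfl ?_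
    intro j _
    congr 1
    show _ = m (pp P ((0 + x i - x j) • one))
    rw [zero_add, ← (h.trans _ (hpp ((x i - x j) • one)) (x j • one)).2]
    congr 1
    ext z
    unfold pp
    simp only [Set.mem_inter_iff, Set.mem_ofPred_eq]
    have e2 : z + x j • one + (x i - x j) • one = z + x i • one := by
      rw [sub_smul]
      abel
    rw [e2, and_comm]
  · intro N hN k x l c hl hs hx
    have hNM := h10 N hN
    have hmul := m_mul h one N hNM (h11 N hN) (h12 N hN)
    have hN0 : (0 : ℝ) < N := by exact_mod_cast hN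
    set R : ℝ := ∑ r ∈ Finset.range N, m (P ∩ cls one r N) ^ 2 with hR
    set F : Fin k × Fin k → M → ℝ := fun p d => m (pp P (d + (x p.1 - x p.2) • one)) with hF
    have hFD : ∀ p v, {d | F p d = v} ∈ D := by
      intro p v
      exact (h.trans _ (h15 v) ((x p.1 - x p.2) • one)).1
    have hmean : ∀ p, ∑ v ∈ V, v * m ({d | F p d = v} ∩ mul M N) = R := by
      intro p
      rw [hR, ← h16 N hN]
      refine Finset.sum_congr rfl ?_
      intro v _
      congr 1
      rw [← (h.trans _ (h.inter _ (h15 v) _ hNM) ((x p.1 - x p.2) • one)).2]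
      congr 1
      ext d
      simp only [Set.mem_inter_iff, Set.mem_ofPred_eq, hF]
      refine and_congr Iff.rfl ?_
      obtain ⟨a, ha⟩ : (N : ℤ) ∣ x p.1 - x p.2 := dvd_sub (hx _) (hx _)
      have e3 : (x p.1 - x p.2) • one = N • (a • one) := by
        rw [ha, mul_smul, natCast_zsmul]
      rw [e3]
      unfold mul
      simp only [Set.mem_ofPred_eq]
      constructor
      · rintro ⟨y, rfl⟩
        exact ⟨y + a • one, by rw [smul_add]⟩
      · rintro ⟨y, hy⟩
        refine ⟨y - a • one, ?_⟩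
        rw [smul_sub, ← hy]
        abel
    obtain ⟨T, hT1, hT2, hT3⟩ := joint h F V (fun p d => h14 _) hFD (fun p => l p.1 * l p.2)
      (mul M N) hNM (fun _ => R) hmean
    have hll : ∑ p : Fin k × Fin k, l p.1 * l p.2 * R = R := by
      rw [← Finset.sum_mul, Fintype.sum_prod_type]
      have : ∑ i, ∑ j, l i * l j = 1 := by
        have e4 : ∀ i, ∑ j, l i * l j = l i := by
          intro i
          rw [← Finset.mul_sum, hs, mul_one]
        rw [Finset.sum_congr rfl (fun i _ => e4 i), hs]
      rw [this, one_mul]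
    rw [hll] at hT1
    have key : ∀ τ ∈ T, m ({d | (fun p => F p d) = τ} ∩ mul M N) ≠ 0 →
        ∃ d : ℤ, (N : ℤ) ∣ d ∧ ∑ p : Fin k × Fin k, l p.1 * l p.2 * τ p = ph g x l d := by
      intro τ _ hne
      obtain ⟨d, hd1, y, hy⟩ : ({d | (fun p => F p d) = τ} ∩ mul M N).Nonempty := by
        rw [Set.nonempty_iff_ne_empty]
        intro he
        apply hne
        rw [he]
        exact m_empty h
      obtain ⟨n, hn⟩ := h17 N hN (k * k)
        (fun i => x (finProdFinEquiv.symm i).1 - x (finProdFinEquiv.symm i).2) y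
      refine ⟨N * n, dvd_mul_right _ _, ?_⟩
      unfold ph
      rw [Fintype.sum_prod_type]
      refine Finset.sum_congr rfl ?_
      intro i _
      refine Finset.sum_congr rfl ?_
      intro j _
      congr 1
      have e5 := hn (finProdFinEquiv (i, j))
      rw [Equiv.symm_apply_apply] at e5
      have e6 : τ (i, j) = F (i, j) d := by rw [← hd1]
      rw [e6]
      show m (pp P (d + (x i - x j) • one)) = m (pp P ((N * n + x i - x j) • one))
      rw [hy, ← e5, add_sub_assoc, add_smul]
    have hS' : S N = N * R := rfl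
    constructor
    · intro hc
      have e7 : R ≤ c * m (mul M N) := by
        rw [hT1, hT2, Finset.mul_sum]
        refine Finset.sum_le_sum ?_
        intro τ hτ
        by_cases h0 : m ({d | (fun p => F p d) = τ} ∩ mul M N) = 0
        · rw [h0, mul_zero, mul_zero]
        · obtain ⟨d, hd1, hd2⟩ := key τ hτ h0
          rw [hd2]
          exact mul_le_mul_of_nonneg_right (hc d hd1) (h.nonneg _ (hT3 τ hτ))
      rw [hS']
      calc (N : ℝ) * R ≤ N * (c * m (mul M N)) := mul_le_mul_of_nonneg_left e7 hN0.le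
        _ = c * (N * m (mul M N)) := by ring
        _ = c := by rw [hmul, mul_one]
    · intro hc
      have e7 : c * m (mul M N) ≤ R := by
        rw [hT1, hT2, Finset.mul_sum]
        refine Finset.sum_le_sum ?_
        intro τ hτ
        by_cases h0 : m ({d | (fun p => F p d) = τ} ∩ mul M N) = 0
        · rw [h0, mul_zero, mul_zero]
        · obtain ⟨d, hd1, hd2⟩ := key τ hτ h0
          rw [hd2]
          exact mul_le_mul_of_nonneg_right (hc d hd1) (h.nonneg _ (hT3 τ hτ))
      rw [hS']
      calc c = c * (N * m (mul M N)) := by rw [hmul, mul_one]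
        _ = N * (c * m (mul M N)) := by ring
        _ ≤ (N : ℝ) * R := mul_le_mul_of_nonneg_left e7 hN0.le
  · intro N hN
    exact growth h one P hP hPpos h10 h11 h12 h13 N hN

end Pool.Agent.N633.SQ.Fa
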