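import Pool.Agent.N633.SQ.Stm

/-!
Project SQ: assembly.
-/

set_option autoImplicit false

open FirstOrder

namespace Pool.Agent.N633.SQ.Fin

universe u

open Pool.Agent.N633.SQ

section gen

variable {Λ : FirstOrder.Language.{0, 0}} {M : Type u} [Λ.Structure M]

theorem DS_univ : DS Λ (Set.univ : Set M) := by
  have : up (Set.univ : Set M) = Set.univ := by ext z; simp [up]
  unfold DS Dfn
  rw [this]
  exact Set.definable_univ

theorem DS_compl {A : Set M} (h : DS Λ A) : DS Λ Aᶜ := Set.Definable.compl h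

theorem DS_inter {A B : Set M} (hA : DS Λ A) (hB : DS Λ B) : DS Λ (A ∩ B) :=
  Set.Definable.inter hA hB

theorem DS_union {A B : Set M} (hA : DS Λ A) (hB : DS Λ B) : DS Λ (A ∪ B) :=
  Set.Definable.union hA hB

theorem DS_empty : DS Λ (∅ : Set M) := by
  have := DS_compl (DS_univ (Λ := Λ) (M := M))
  simpa using this

theorem DS_of_DS0 {A : Set M} (h : DS0 Λ A) : DS Λ A := Set.Definable.mono h (Set.empty_subset _)

theorem DS0_shift [AddCommGroup M] (hA : AddDef Λ M) {B : Set M} {t : M} (hB : DS0 Λ B)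
    (ht : DS0 Λ ({t} : Set M)) : DS0 Λ {d | d + t ∈ B} := by
  have h1 : (∅ : Set M).Definable Λ ({z : Fin 3 → M | z 2 = z 0 + z 1} ∩
      ((fun g : Fin 3 → M => g ∘ (fun _ : Fin 1 => (1 : Fin 3))) ⁻¹' (up {t}) ∩
        (fun g : Fin 3 → M => g ∘ (fun _ : Fin 1 => (2 : Fin 3))) ⁻¹' (up B))) :=
    Set.Definable.inter hA (Set.Definable.inter (Set.Definable.preimage_comp _ ht)
      (Set.Definable.preimage_comp _ hB))
  have h2 := Set.Definable.image_comp h1 (fun _ : Fin 1 => (0 : Fin 3))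
  unfold DS0
  convert h2 using 1
  ext z
  constructor
  · intro h
    refine ⟨![z 0, t, z 0 + t], ⟨?_, ?_, ?_⟩, ?_⟩
    · simp
    · simp [up]
    · simpa [up] using h
    · funext i
      have : i = 0 := Subsingleton.elim _ _
      subst this
      simp
  · rintro ⟨g, ⟨hg1, hg2, hg3⟩, rfl⟩
    simp only [up, Set.mem_ofPred_eq, Set.mem_preimage, Function.comp, Set.mem_singleton_iff]
      at hg1 hg2 hg3 ⊢
    rw [← hg2, ← hg1]
    exact hg3

theorem DS0_inter {A B : Set M} (hA : DS0 Λ A) (hB : DS0 Λ B) : DS0 Λ (A ∩ B) :=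
  Set.Definable.inter hA hB

theorem DS0_iInter {ι : Type} [Finite ι] {A : ι → Set M} (hA : ∀ i, DS0 Λ (A i)) :
    DS0 Λ {d | ∀ i, d ∈ A i} := by
  have := Set.definable_iInter_of_finite (L := Λ) (A := (∅ : Set M)) (f := fun i => up (A i))
    (fun i => hA i)
  unfold DS0
  convert this using 1
  ext z
  simp [up]

variable (μ : MSMeasure Λ M)

theorem hh_empty : hh μ (∅ : Set M) = (0, 0) := by
  have h : up (∅ : Set M) = ∅ := by ext z; simp [up]
  have := μ.cond2 1 ∅ le_rfl Set.finite_empty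
  unfold hh
  rw [h, this]
  simp

theorem coef_empty (D : ℕ) : coef D (hh μ (∅ : Set M)) = 0 := by
  rw [hh_empty]; unfold coef; split_ifs <;> rfl

theorem coef_nonneg (D : ℕ) {A : Set M} (hA : DS Λ A) : 0 ≤ coef D (hh μ A) := by
  unfold coef
  split_ifs with h
  · rcases μ.val 1 (up A) le_rfl hA with h0 | h0
    · have : (hh μ A) = (0, 0) := h0
      rw [this]
    · exact le_of_lt h0
  · exact le_rfl

theorem ladd_fst (v w : ℕ × ℝ) : (ladd v w).1 = max v.1 w.1 := by
  unfold ladd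
  split_ifs with h h'
  · exact (max_eq_right (le_of_lt h)).symm
  · exact (max_eq_left (le_of_lt h')).symm
  · have : v.1 = w.1 := by omega
    simp [this]

theorem coef_ladd {D : ℕ} {v w : ℕ × ℝ} (hv : v.1 ≤ D) (hw : w.1 ≤ D) :
    coef D (ladd v w) = coef D v + coef D w := by
  unfold ladd coef
  split_ifs with h1 h2 h3 h4 h5 h6 h7 <;> first | omega | simp_all

end gen

section meas

variable {Λ : FirstOrder.Language.{0, 0}} {M : Type u} [Λ.Structure M]
variable (μ : MSMeasure Λ M)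
variable (hadd : ∀ (n : ℕ) (X Y : Set (Fin n → M)), 1 ≤ n → Dfn Λ X → Dfn Λ Y → Disjoint X Y →
    μ.h n (X ∪ Y) = ladd (μ.h n X) (μ.h n Y))

include hadd

theorem hh_union {A B : Set M} (hA : DS Λ A) (hB : DS Λ B) (hd : Disjoint A B) :
    hh μ (A ∪ B) = ladd (hh μ A) (hh μ B) := by
  have : up (A ∪ B) = up A ∪ up B := by ext z; simp [up]
  unfold hh
  rw [this]
  apply hadd 1 _ _ le_rfl hA hB
  rw [Set.disjoint_left] at hd ⊢
  intro z hz hz'
  exact hd hz hz'

theorem hh_mono {A B : Set M} (hA : DS Λ A) (hB : DS Λ B) (hd : A ⊆ B) :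
    (hh μ A).1 ≤ (hh μ B).1 := by
  have hBA : DS Λ (B ∩ Aᶜ) := DS_inter hB (DS_compl hA)
  have h1 : B = A ∪ (B ∩ Aᶜ) := by
    ext z
    by_cases hz : z ∈ A
    · simp [hz, hd hz]
    · simp [hz]
  have h2 := hh_union μ hadd hA hBA (by
    rw [Set.disjoint_left]; intro z hz hz'; exact hz'.2 hz)
  rw [h1, h2, ladd_fst]
  exact le_max_left _ _

theorem hh_union_lt {A B : Set M} (hA : DS Λ A) (hB : DS Λ B) {D : ℕ} (h1 : (hh μ A).1 < D)
    (h2 : (hh μ B).1 < D) : (hh μ (A ∪ B)).1 < D := by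
  have hBA : DS Λ (B ∩ Aᶜ) := DS_inter hB (DS_compl hA)
  have h3 : A ∪ B = A ∪ (B ∩ Aᶜ) := by
    ext z
    by_cases hz : z ∈ A
    · simp [hz]
    · simp [hz]
  have h4 := hh_union μ hadd hA hBA (by
    rw [Set.disjoint_left]; intro z hz hz'; exact hz'.2 hz)
  rw [h3, h4, ladd_fst]
  have := hh_mono μ hadd hBA hB Set.inter_subset_left
  exact max_lt h1 (lt_of_le_of_lt this h2)

theorem hh_biUnion_lt {D : ℕ} (hD : 0 < D) (A : ℕ → Set M) (hA : ∀ r, DS Λ (A r))
    (h : ∀ r, (hh μ (A r)).1 < D) (n : ℕ) :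
    DS Λ {x | ∃ r < n, x ∈ A r} ∧ (hh μ {x | ∃ r < n, x ∈ A r}).1 < D := by
  induction n with
  | zero =>
    have : {x | ∃ r < 0, x ∈ A r} = (∅ : Set M) := by ext z; simp
    rw [this]
    refine ⟨DS_empty, ?_⟩
    rw [hh_empty]
    exact hD
  | succ n ih =>
    have : {x | ∃ r < n + 1, x ∈ A r} = {x | ∃ r < n, x ∈ A r} ∪ A n := by
      ext z
      constructor
      · rintro ⟨r, hr, hz⟩
        rcases Nat.lt_succ_iff_lt_or_eq.mp hr with h | h
        · exact Or.inl ⟨r, h, hz⟩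
        · exact Or.inr (h ▸ hz)
      · rintro (⟨r, hr, hz⟩ | hz)
        · exact ⟨r, by omega, hz⟩
        · exact ⟨n, by omega, hz⟩
    rw [this]
    exact ⟨DS_union ih.1 (hA n), hh_union_lt μ hadd ih.1 (hA n) ih.2 (h n)⟩

/-- finite additivity of the coefficient -/
theorem coef_biUnion (A : ℕ → Set M) (hA : ∀ r, DS Λ (A r)) (s : Finset ℕ)
    (hd : ∀ r ∈ s, ∀ r' ∈ s, r ≠ r' → Disjoint (A r) (A r')) :
    DS Λ {x | ∃ r ∈ s, x ∈ A r} ∧
    coef (hh μ (Set.univ : Set M)).1 (hh μ {x | ∃ r ∈ s, x ∈ A r}) =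
      ∑ r ∈ s, coef (hh μ (Set.univ : Set M)).1 (hh μ (A r)) := by
  induction s using Finset.induction_on with
  | empty =>
    have : {x | ∃ r ∈ (∅ : Finset ℕ), x ∈ A r} = (∅ : Set M) := by ext z; simp
    rw [this]
    refine ⟨DS_empty, ?_⟩
    rw [coef_empty]
    simp
  | insert a s ha ih =>
    obtain ⟨ih1, ih2⟩ := ih (fun r hr r' hr' hne =>
      hd r (Finset.mem_insert_of_mem hr) r' (Finset.mem_insert_of_mem hr') hne)
    have : {x | ∃ r ∈ insert a s, x ∈ A r} = A a ∪ {x | ∃ r ∈ s, x ∈ A r} := by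
      ext z
      simp
    rw [this, Finset.sum_insert ha]
    refine ⟨DS_union (hA a) ih1, ?_⟩
    rw [hh_union μ hadd (hA a) ih1, coef_ladd, ih2]
    · exact hh_mono μ hadd (hA a) DS_univ (Set.subset_univ _)
    · exact hh_mono μ hadd ih1 DS_univ (Set.subset_univ _)
    · rw [Set.disjoint_left]
      rintro z hz ⟨r, hr, hz'⟩
      have hne : a ≠ r := fun h => ha (h ▸ hr)
      exact Set.disjoint_left.mp
        (hd a (Finset.mem_insert_self _ _) r (Finset.mem_insert_of_mem hr) hne) hz hz'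

end meas

/-- the subgroup of the multiples of `N` -/
def mulG (M : Type u) [AddCommGroup M] (N : ℕ) : AddSubgroup M where
  carrier := mul M N
  zero_mem' := ⟨0, by simp⟩
  add_mem' := by
    rintro _ _ ⟨a, rfl⟩ ⟨b, rfl⟩
    exact ⟨a + b, by simp⟩
  neg_mem' := by
    rintro _ ⟨a, rfl⟩
    exact ⟨-a, by simp⟩

theorem mem_cls_iff {M : Type u} [AddCommGroup M] (one : M) (r N : ℕ) (x : M) :
    x ∈ cls one r N ↔ x + (-(r • one)) ∈ mul M N := by
  constructor
  · rintro ⟨y, rfl⟩
    exact ⟨y, by abel⟩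
  · rintro ⟨y, hy⟩
    refine ⟨y, ?_⟩
    rw [← hy]; abel

theorem co_eq {M : Type u} [AddCommGroup M] (P : Set M) (one : M) (r N : ℕ) (x : M)
    (hx : x ∈ cls one r N) : co P (mul M N) x = P ∩ cls one r N := by
  obtain ⟨y0, rfl⟩ := hx
  ext y
  constructor
  · rintro ⟨hy, w, hw⟩
    refine ⟨hy, y0 + w, ?_⟩
    have : y = (r • one + N • y0) + N • w := by rw [← hw]; abel
    rw [this, smul_add]; abel
  · rintro ⟨hy, w, rfl⟩
    refine ⟨hy, w - y0, ?_⟩
    rw [smul_sub]; abel

theorem main : S_FIN.{u} := by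
  intro hFA h1 h2 hDim hTR hMS
  obtain ⟨M, inst, hT, ⟨μ⟩⟩ := hMS
  obtain ⟨gr, one, P, hAdd, hP0, hne, hint, hmul, hcls, huniq, hP2, hcom, htrans⟩ := hTR M hT
  have hnt : Nontrivial M := ⟨hne⟩
  obtain ⟨a1, a2, a3, a4, a5⟩ := h1 L M μ
  obtain ⟨b1, b2, b3, b4⟩ := h2 L M μ hAdd
  have hP : DS L P := DS_of_DS0 hP0
  have hc0pos : 0 < (hh μ (Set.univ : Set M)).2 :=
    a1 1 _ le_rfl DS_univ ⟨fun _ => one, trivial⟩
  -- classes
  have hclsDS : ∀ N : ℕ, 1 ≤ N → ∀ r, DS L (cls one r N) ∧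
      hh μ (cls one r N) = hh μ (mul M N) := by
    intro N hN r
    have h := b1 (mul M N) (-(r • one)) (DS_of_DS0 (hmul N hN))
    have he : {x | x + (-(r • one)) ∈ mul M N} = cls one r N := by
      ext x; exact (mem_cls_iff one r N x).symm
    rw [he] at h
    exact h
  have hmulD : ∀ N : ℕ, 1 ≤ N → (hh μ (mul M N)).1 = (hh μ (Set.univ : Set M)).1 := by
    intro N hN
    have hle := hh_mono μ a2 (DS_of_DS0 (hmul N hN)) DS_univ (Set.subset_univ _)
    by_contra hne'
    have hlt := lt_of_le_of_ne hle hne'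
    have h := (hh_biUnion_lt μ a2 (D := (hh μ (Set.univ : Set M)).1) (by omega) (fun r => cls one r N)
      (fun r => (hclsDS N hN r).1) (fun r => by rw [(hclsDS N hN r).2]; exact hlt) N).2
    have he : {x | ∃ r < N, x ∈ cls one r N} = (Set.univ : Set M) := by
      ext x
      exact ⟨fun _ => trivial, fun _ => hcls N hN x⟩
    rw [he] at h
    omega
  have hPD : (hh μ P).1 = (hh μ (Set.univ : Set M)).1 :=
    hDim L M μ hAdd P hP (fun k => by
      obtain ⟨Q, hQ, hQ'⟩ := hcom k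
      exact ⟨mulG M Q, DS_of_DS0 (hmul Q hQ), hmulD Q hQ, fun d hd => hQ' d hd⟩)
  have hPne : (up P).Nonempty := by
    obtain ⟨Q, hQ, hQ'⟩ := hcom 0
    obtain ⟨x, hx, -⟩ := hQ' (fun _ => 0) (fun i => i.elim0)
    exact ⟨fun _ => x, hx⟩
  obtain ⟨V0, c1, c2, c3, c4, c5⟩ := b3 P P (mulG M 1) hP hP (DS_of_DS0 (hmul 1 le_rfl))
  refine hFA M one {A | DS L A}
    (fun A => coef (hh μ (Set.univ : Set M)).1 (hh μ A) / (hh μ (Set.univ : Set M)).2) P
    DS_univ (fun A hA => DS_compl hA) (fun A hA B hB => DS_inter hA hB)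
    (fun A hA t => ⟨(b1 A t hA).1, by simp only [(b1 A t hA).2]⟩)
    (fun A hA => div_nonneg (coef_nonneg μ _ hA) hc0pos.le) ?_ ?_ hP ?_
    (fun N hN => DS_of_DS0 (hmul N hN)) hcls huniq hP2
    (V0.image (fun v => v / (hh μ (Set.univ : Set M)).2)) ?_ ?_ ?_ ?_
  · simp only [coef, if_true]
    exact div_self hc0pos.ne'
  · intro A hA B hB hAB
    show coef _ (hh μ (A ∪ B)) / _ = coef _ (hh μ A) / _ + coef _ (hh μ B) / _
    rw [hh_union μ a2 hA hB hAB, coef_ladd (hh_mono μ a2 hA DS_univ (Set.subset_univ _))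
      (hh_mono μ a2 hB DS_univ (Set.subset_univ _)), add_div]
  · simp only [coef, hPD, if_true]
    exact div_pos (a1 1 _ le_rfl hP hPne) hc0pos
  · intro d
    exact Finset.mem_image_of_mem _ (c2 d)
  · intro v
    have h := c4 (v * (hh μ (Set.univ : Set M)).2)
    have he : {d | coef (hh μ (Set.univ : Set M)).1 (hh μ (pp P d)) /
        (hh μ (Set.univ : Set M)).2 = v} = {d | coef (hh μ (Set.univ : Set M)).1
          (hh μ (sh P P d)) = v * (hh μ (Set.univ : Set M)).2} := by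
      ext d
      show coef _ (hh μ (pp P d)) / _ = v ↔ coef _ (hh μ (sh P P d)) = _
      rw [div_eq_iff hc0pos.ne']
      exact Iff.rfl
    show DS L {d | coef (hh μ (Set.univ : Set M)).1 (hh μ (pp P d)) /
        (hh μ (Set.univ : Set M)).2 = v}
    rw [he]
    exact h
  · intro N hN
    obtain ⟨V1, e1, e2, e3, e4, e5⟩ := b3 P P (mulG M N) hP hP (DS_of_DS0 (hmul N hN))
    have key := e5 (V1 ∪ V0) Finset.subset_union_left
    -- left side
    have hl : ∑ v ∈ V1 ∪ V0, v * coef (hh μ (Set.univ : Set M)).1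
        (hh μ {x | x ∈ P ∧ coef (hh μ (Set.univ : Set M)).1
          (hh μ (co P (mulG M N : Set M) x)) = v}) =
        ∑ r ∈ Finset.range N,
          coef (hh μ (Set.univ : Set M)).1 (hh μ (P ∩ cls one r N)) ^ 2 := by
      have hmaps : ∀ r ∈ Finset.range N,
          coef (hh μ (Set.univ : Set M)).1 (hh μ (P ∩ cls one r N)) ∈ V1 ∪ V0 := by
        intro r _
        have := e1 (r • one)
        have hco : co P (mulG M N : Set M) (r • one) = P ∩ cls one r N :=
          co_eq P one r N (r • one) ⟨0, by simp⟩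
        rw [hco] at this
        exact Finset.mem_union_left _ this
      rw [← Finset.sum_fiberwise_of_maps_to hmaps]
      apply Finset.sum_congr rfl
      intro v hv
      have hset : {x | x ∈ P ∧ coef (hh μ (Set.univ : Set M)).1
          (hh μ (co P (mulG M N : Set M) x)) = v} =
          {x | ∃ r ∈ (Finset.range N).filter (fun r => coef (hh μ (Set.univ : Set M)).1
            (hh μ (P ∩ cls one r N)) = v), x ∈ P ∩ cls one r N} := by
        ext x
        constructor
        · rintro ⟨hx, hxv⟩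
          obtain ⟨r, hr, hxr⟩ := hcls N hN x
          refine ⟨r, Finset.mem_filter.mpr ⟨Finset.mem_range.mpr hr, ?_⟩, hx, hxr⟩
          rw [← hxv]
          exact congrArg (fun A => coef (hh μ (Set.univ : Set M)).1 (hh μ A))
            (co_eq P one r N x hxr).symm
        · rintro ⟨r, hr, hx, hxr⟩
          refine ⟨hx, ?_⟩
          rw [← (Finset.mem_filter.mp hr).2]
          exact congrArg (fun A => coef (hh μ (Set.univ : Set M)).1 (hh μ A))
            (co_eq P one r N x hxr)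
      rw [hset, (coef_biUnion μ a2 (fun r => P ∩ cls one r N)
        (fun r => DS_inter hP (hclsDS N hN r).1) _ ?_).2, Finset.mul_sum]
      · apply Finset.sum_congr rfl
        intro r hr
        rw [(Finset.mem_filter.mp hr).2]
        ring
      · intro r hr r' hr' hne'
        rw [Set.disjoint_left]
        rintro x ⟨-, hx⟩ ⟨-, hx'⟩
        apply hne'
        have hrN := Finset.mem_range.mp (Finset.mem_filter.mp hr).1
        have hrN' := Finset.mem_range.mp (Finset.mem_filter.mp hr').1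
        apply huniq N hN r hrN r' hrN'
        obtain ⟨y, hy⟩ := hx
        obtain ⟨y', hy'⟩ := hx'
        refine ⟨y' - y, ?_⟩
        rw [smul_sub]
        have : r • one = x - N • y := by rw [hy]; abel
        rw [this, hy']
        abel
    have hr : ∑ v ∈ V1 ∪ V0, v * coef (hh μ (Set.univ : Set M)).1
        (hh μ {d | d ∈ mulG M N ∧ coef (hh μ (Set.univ : Set M)).1 (hh μ (sh P P d)) = v}) =
        ∑ v ∈ V0, v * coef (hh μ (Set.univ : Set M)).1
        (hh μ {d | d ∈ mulG M N ∧ coef (hh μ (Set.univ : Set M)).1 (hh μ (sh P P d)) = v}) := by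
      symm
      apply Finset.sum_subset Finset.subset_union_right
      intro v _ hv
      have : {d | d ∈ mulG M N ∧ coef (hh μ (Set.univ : Set M)).1 (hh μ (sh P P d)) = v} =
          (∅ : Set M) := by
        rw [Set.eq_empty_iff_forall_notMem]
        rintro d ⟨-, hd⟩
        exact hv (hd ▸ c2 d)
      rw [this, coef_empty, mul_zero]
    rw [hr] at key
    have key2 := hl.symm.trans key
    rw [Finset.sum_image (fun a _ b _ hab => by
      have := (div_left_inj' hc0pos.ne').mp hab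
      exact this)]
    have hrhs : ∀ r ∈ Finset.range N, (coef (hh μ (Set.univ : Set M)).1
        (hh μ (P ∩ cls one r N)) / (hh μ (Set.univ : Set M)).2) ^ 2 =
        coef (hh μ (Set.univ : Set M)).1 (hh μ (P ∩ cls one r N)) ^ 2 /
          (hh μ (Set.univ : Set M)).2 ^ 2 := fun r _ => div_pow _ _ _
    rw [Finset.sum_congr rfl hrhs, ← Finset.sum_div, key2, Finset.sum_div]
    apply Finset.sum_congr rfl
    intro v hv
    have hset : {d | coef (hh μ (Set.univ : Set M)).1 (hh μ (pp P d)) /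
        (hh μ (Set.univ : Set M)).2 = v / (hh μ (Set.univ : Set M)).2} ∩ mul M N =
        {d | d ∈ mulG M N ∧ coef (hh μ (Set.univ : Set M)).1 (hh μ (sh P P d)) = v} := by
      ext d
      constructor
      · rintro ⟨h, h'⟩
        exact ⟨h', (div_left_inj' hc0pos.ne').mp h⟩
      · rintro ⟨h, h'⟩
        exact ⟨(div_left_inj' hc0pos.ne').mpr h', h⟩
    rw [hset]
    field_simp
  · intro N hN k s y
    have hA : DS0 L {d : M | ∀ i : Fin k, d ∈ {d : M | d + s i • one ∈
        {d : M | hh μ (sh P P d) = hh μ (sh P P (N • y + s i • one))}}} :=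
      DS0_iInter (fun i => DS0_shift hAdd (b2 P hP0 _) (hint (s i)))
    obtain ⟨n, hn⟩ := htrans _ hA N hN ⟨y, fun i => rfl⟩
    refine ⟨n, fun i => ?_⟩
    have := hn i
    show coef _ (hh μ (sh P P ((N * n) • one + s i • one))) / _ =
      coef _ (hh μ (sh P P (N • y + s i • one))) / _
    have h' : hh μ (sh P P ((N * n) • one + s i • one)) =
      hh μ (sh P P (N • y + s i • one)) := this
    rw [h']

end Pool.Agent.N633.SQ.Fin
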