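import Pool.Agent.N633.SQ.Stm

/-!
Project SQ (helper633), problem MP_c6a6a6_lc: part Ms1. General facts on MS-measures.
-/

set_option autoImplicit false

open FirstOrder Set

namespace Pool.Agent.N633.SQ.Ms1

universe u

/-! ### leading terms -/

theorem lead_fst {r : ℕ} (v : Fin r → ℕ × ℝ) : (lead v).1 = Finset.univ.sup fun i => (v i).1 := rfl

theorem coef_lead {r : ℕ} (v : Fin r → ℕ × ℝ) (b : ℕ) (h : ∀ i, (v i).1 ≤ b) :
    coef b (lead v) = ∑ i, coef b (v i) := by
  unfold coef lead
  simp only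
  have hs : (Finset.univ.sup fun i => (v i).1) ≤ b := Finset.sup_le (fun i _ => h i)
  split_ifs with h1
  · rw [h1, Finset.sum_filter]
  · symm
    refine Finset.sum_eq_zero ?_
    intro i _
    rw [if_neg]
    intro h2
    apply h1
    refine le_antisymm hs ?_
    rw [← h2]
    exact Finset.le_sup (f := fun i => (v i).1) (Finset.mem_univ i)

theorem pair_ext {v w : ℕ × ℝ} (h1 : v.1 = w.1) (h2 : coef v.1 v = coef v.1 w) : v = w := by
  unfold coef at h2
  rw [if_pos rfl, if_pos h1.symm] at h2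
  exact Prod.ext h1 h2

theorem ladd_fst (v w : ℕ × ℝ) : (ladd v w).1 = max v.1 w.1 := by
  unfold ladd
  split_ifs with h1 h2
  · exact (max_eq_right h1.le).symm
  · exact (max_eq_left h2.le).symm
  · have : v.1 = w.1 := by omega
    simp [this]

theorem coef_ladd (v w : ℕ × ℝ) (b : ℕ) (h1 : v.1 ≤ b) (h2 : w.1 ≤ b) :
    coef b (ladd v w) = coef b v + coef b w := by
  unfold ladd coef
  split_ifs <;> simp_all <;> omega

theorem coef_zero (b : ℕ) : coef b (0, 0) = 0 := by
  unfold coef
  split_ifs <;> rfl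

theorem coef_mul {v w : ℕ × ℝ} {a b : ℕ} (h1 : v.1 ≤ a) (h2 : w.1 ≤ b) :
    coef (a + b) (v.1 + w.1, v.2 * w.2) = coef a v * coef b w := by
  unfold coef
  by_cases h3 : v.1 = a
  · by_cases h4 : w.1 = b
    · simp [h3, h4]
    · rw [if_neg h4, mul_zero, if_neg]
      simp only
      omega
  · rw [if_neg h3, zero_mul, if_neg]
    simp only
    omega

/-! ### definable sets -/

variable {Λ : FirstOrder.Language.{0, 0}} {M : Type u} [Λ.Structure M]

theorem dfn_eq {α : Type} (i : α) (a : M) : Dfn Λ {z : α → M | z i = a} :=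
  (Set.DefinableFun.proj (L := Λ) (A := Set.univ) (i := i)).ofPred_eq_const (Set.mem_univ a)

theorem dfn_singleton {α : Type} [Finite α] (a : α → M) : Dfn Λ ({a} : Set (α → M)) := by
  have h : ({a} : Set (α → M)) = ⋂ i, {z : α → M | z i = a i} := by
    ext z
    simp [funext_iff]
  rw [h]
  exact Set.definable_iInter_of_finite (fun i => dfn_eq i (a i))

theorem dfn_union {α : Type} {X Y : Set (α → M)} (hX : Dfn Λ X) (hY : Dfn Λ Y) :
    Dfn Λ (X ∪ Y) := Set.Definable.union hX hY

theorem dfn_inter {α : Type} {X Y : Set (α → M)} (hX : Dfn Λ X) (hY : Dfn Λ Y) :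
    Dfn Λ (X ∩ Y) := Set.Definable.inter hX hY

theorem dfn_diff {α : Type} {X Y : Set (α → M)} (hX : Dfn Λ X) (hY : Dfn Λ Y) :
    Dfn Λ (X \ Y) := Set.Definable.sdiff hX hY

theorem dfn_biUnion {α : Type} {ι : Type*} {f : ι → Set (α → M)} (hf : ∀ i, Dfn Λ (f i))
    (s : Finset ι) : Dfn Λ (⋃ i ∈ s, f i) := Set.definable_biUnion_finset hf s

/-! ### additivity -/

theorem h_empty (μ : MSMeasure Λ M) {n : ℕ} (hn : 1 ≤ n) : μ.h n ∅ = (0, 0) := by
  rw [μ.cond2 n ∅ hn Set.finite_empty]
  simp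

theorem h_singleton (μ : MSMeasure Λ M) {n : ℕ} (hn : 1 ≤ n) (a : Fin n → M) :
    μ.h n {a} = (0, 1) := by
  rw [μ.cond2 n {a} hn (Set.finite_singleton a)]
  simp

theorem ladd_zero (v : ℕ × ℝ) : ladd v (0, 0) = v := by
  unfold ladd
  simp only [Nat.not_lt_zero, if_false, add_zero]
  split_ifs with h
  · rfl
  · rfl

theorem zero_ladd (v : ℕ × ℝ) : ladd (0, 0) v = v := by
  unfold ladd
  simp only [Nat.not_lt_zero, if_false, zero_add]
  split_ifs with h
  · rfl
  · have : v.1 = 0 := by omega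
    rw [← this]

theorem additive [Nontrivial M] (μ : MSMeasure Λ M) (n : ℕ) (X Y : Set (Fin n → M)) (hn : 1 ≤ n)
    (hX : Dfn Λ X) (hY : Dfn Λ Y) (hd : Disjoint X Y) :
    μ.h n (X ∪ Y) = ladd (μ.h n X) (μ.h n Y) := by
  classical
  rcases X.eq_empty_or_nonempty with rfl | hXn
  · rw [Set.empty_union, h_empty μ hn, zero_ladd]
  rcases Y.eq_empty_or_nonempty with rfl | hYn
  · rw [Set.union_empty, h_empty μ hn, ladd_zero]
  obtain ⟨a, b, hab⟩ := exists_pair_ne M
  set fa : Fin 1 → M := fun _ => a with hfa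
  set fb : Fin 1 → M := fun _ => b with hfb
  have hfab : fa ≠ fb := fun h => hab (congrFun h 0)
  set f : (Fin n → M) → (Fin 1 → M) := fun x => if x ∈ X then fa else fb with hf
  have hfX : ∀ x ∈ X, f x = fa := fun x hx => if_pos hx
  have hfY : ∀ x ∈ Y, f x = fb := fun x hx => if_neg (fun h => Set.disjoint_left.1 hd h hx)
  have hS : DSurj Λ (X ∪ Y) {fa, fb} f := by
    refine ⟨dfn_union hX hY, ?_, ?_, ?_⟩
    · have : ({fa, fb} : Set (Fin 1 → M)) = {fa} ∪ {fb} := rfl
      rw [this]
      exact dfn_union (dfn_singleton _) (dfn_singleton _)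
    · have e : {z : Fin n ⊕ Fin 1 → M | (fun i => z (Sum.inl i)) ∈ X ∪ Y ∧
          f (fun i => z (Sum.inl i)) = fun i => z (Sum.inr i)} =
          (((fun g : Fin n ⊕ Fin 1 → M => g ∘ Sum.inl) ⁻¹' X) ∩ {z | z (Sum.inr 0) = a}) ∪
          (((fun g : Fin n ⊕ Fin 1 → M => g ∘ Sum.inl) ⁻¹' Y) ∩ {z | z (Sum.inr 0) = b}) := by
        ext z
        simp only [Set.mem_ofPred_eq, Set.mem_union, Set.mem_inter_iff, Set.mem_preimage]
        constructor
        · rintro ⟨h1 | h1, h2⟩
          · left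
            refine ⟨h1, ?_⟩
            rw [hfX _ h1] at h2
            exact (congrFun h2 0).symm
          · right
            refine ⟨h1, ?_⟩
            rw [hfY _ h1] at h2
            exact (congrFun h2 0).symm
        · rintro (⟨h1, h2⟩ | ⟨h1, h2⟩)
          · refine ⟨Or.inl h1, ?_⟩
            have h3 := hfX _ h1
            refine Eq.trans h3 ?_
            funext i
            rw [Subsingleton.elim i 0]
            exact h2.symm
          · refine ⟨Or.inr h1, ?_⟩
            have h3 := hfY _ h1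
            refine Eq.trans h3 ?_
            funext i
            rw [Subsingleton.elim i 0]
            exact h2.symm
      rw [e]
      exact dfn_union (dfn_inter (Set.Definable.preimage_comp _ hX) (dfn_eq _ _))
        (dfn_inter (Set.Definable.preimage_comp _ hY) (dfn_eq _ _))
    · ext z
      simp only [Set.mem_image, Set.mem_union, Set.mem_insert_iff, Set.mem_singleton_iff]
      constructor
      · rintro ⟨x, h1 | h1, rfl⟩
        · exact Or.inl (hfX x h1)
        · exact Or.inr (hfY x h1)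
      · rintro (rfl | rfl)
        · obtain ⟨x, hx⟩ := hXn
          exact ⟨x, Or.inl hx, hfX x hx⟩
        · obtain ⟨x, hx⟩ := hYn
          exact ⟨x, Or.inr hx, hfY x hx⟩
  have hfibX : {x | x ∈ X ∪ Y ∧ f x = fa} = X := by
    ext x
    simp only [Set.mem_ofPred_eq, Set.mem_union]
    constructor
    · rintro ⟨h1 | h1, h2⟩
      · exact h1
      · exact absurd ((hfY x h1).symm.trans h2) hfab.symm
    · exact fun h1 => ⟨Or.inl h1, hfX x h1⟩
  have hfibY : {x | x ∈ X ∪ Y ∧ f x = fb} = Y := by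
    ext x
    simp only [Set.mem_ofPred_eq, Set.mem_union]
    constructor
    · rintro ⟨h1 | h1, h2⟩
      · exact absurd ((hfX x h1).symm.trans h2) hfab
      · exact h1
    · exact fun h1 => ⟨Or.inr h1, hfY x h1⟩
  obtain ⟨r, Z, v, h1, h2, h3, h4, h5⟩ := μ.cond3 n 1 (X ∪ Y) {fa, fb} f hn le_rfl hS
  rw [h5]
  have hfaZ : fa ∈ ⋃ i, Z i := by rw [h3]; exact Or.inl rfl
  have hfbZ : fb ∈ ⋃ i, Z i := by rw [h3]; exact Or.inr rfl
  obtain ⟨i, hi⟩ := Set.mem_iUnion.1 hfaZ
  obtain ⟨j, hj⟩ := Set.mem_iUnion.1 hfbZ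
  have hvi : v i = μ.h n X := by rw [← h4 i fa hi, hfibX]
  have hvj : v j = μ.h n Y := by rw [← h4 j fb hj, hfibY]
  have hsub : ∀ l, Z l ⊆ {fa, fb} := fun l => by
    rw [← h3]
    exact Set.subset_iUnion Z l
  have hl : ∀ l, l = i ∨ l = j := by
    intro l
    obtain ⟨z, hz⟩ := (h1 l).1
    rcases hsub l hz with rfl | rfl
    · left
      by_contra hne
      exact Set.disjoint_left.1 (h2 hne) hz hi
    · right
      by_contra hne
      exact Set.disjoint_left.1 (h2 hne) hz hj
  by_cases hij : i = j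
  · subst hij
    have hu : (Finset.univ : Finset (Fin r)) = {i} := by
      ext l
      simp only [Finset.mem_univ, Finset.mem_singleton, true_iff]
      rcases hl l with h | h <;> exact h
    have hZi : Z i = {fa, fb} := by
      refine Set.Subset.antisymm (hsub i) ?_
      rintro z (rfl | rfl)
      · exact hi
      · exact hj
    have hc : ({fa, fb} : Set (Fin 1 → M)).ncard = 2 := Set.ncard_pair hfab
    have hhZ : μ.h 1 (Z i) = (0, 2) := by
      rw [hZi, μ.cond2 1 _ le_rfl (Set.toFinite _), hc]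
      norm_num
    unfold lead
    rw [hu]
    simp only [Finset.sup_singleton, Finset.filter_singleton, if_true, Finset.sum_singleton]
    rw [hhZ, ← hvi, ← hvj]
    unfold ladd
    simp only [lt_irrefl, if_false, add_zero]
    congr 1
    ring
  · have hu : (Finset.univ : Finset (Fin r)) = {i, j} := by
      ext l
      simp only [Finset.mem_univ, Finset.mem_insert, Finset.mem_singleton, true_iff]
      exact hl l
    have hZi : Z i = {fa} := by
      refine Set.Subset.antisymm ?_ (Set.singleton_subset_iff.2 hi)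
      intro z hz
      rcases hsub i hz with h | h
      · exact h
      · exfalso
        have h' : z = fb := h
        subst h'
        exact Set.disjoint_left.1 (h2 hij) hz hj
    have hZj : Z j = {fb} := by
      refine Set.Subset.antisymm ?_ (Set.singleton_subset_iff.2 hj)
      intro z hz
      rcases hsub j hz with h | h
      · exfalso
        have h' : z = fa := h
        subst h'
        exact Set.disjoint_left.1 (h2 hij) hi hz
      · exact h
    have hhi : μ.h 1 (Z i) = (0, 1) := by rw [hZi, h_singleton μ le_rfl]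
    have hhj : μ.h 1 (Z j) = (0, 1) := by rw [hZj, h_singleton μ le_rfl]
    unfold lead
    rw [hu]
    simp only [Finset.sup_insert, Finset.sup_singleton]
    rw [Finset.sum_filter, Finset.sum_pair hij, hhi, hhj, hvi, hvj]
    simp only [add_zero, mul_one]
    unfold ladd
    rcases lt_trichotomy (μ.h n X).1 (μ.h n Y).1 with h | h | h
    · rw [if_pos h]
      have e1 : (μ.h n X).1 ⊔ (μ.h n Y).1 = (μ.h n Y).1 := sup_eq_right.2 h.le
      rw [e1, if_neg h.ne, if_pos rfl, zero_add]
    · have e1 : (μ.h n X).1 ⊔ (μ.h n Y).1 = (μ.h n X).1 := sup_eq_left.2 h.ge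
      rw [e1, if_pos rfl, if_pos h.symm, if_neg (not_lt.2 h.ge), if_neg (not_lt.2 h.le)]
    · have e1 : (μ.h n X).1 ⊔ (μ.h n Y).1 = (μ.h n X).1 := sup_eq_left.2 h.le
      rw [e1, if_pos rfl, if_neg h.ne, add_zero, if_neg (not_lt.2 h.le), if_pos h]

theorem positive [Nontrivial M] (μ : MSMeasure Λ M) (n : ℕ) (X : Set (Fin n → M)) (hn : 1 ≤ n)
    (hX : Dfn Λ X) (hne : X.Nonempty) : 0 < (μ.h n X).2 := by
  obtain ⟨x, hx⟩ := hne
  have h1 : X = {x} ∪ (X \ {x}) := by
    rw [Set.union_sdiff_cancel (Set.singleton_subset_iff.2 hx)]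
  have hd := dfn_diff hX (dfn_singleton (Λ := Λ) x)
  have h2 := additive μ n {x} (X \ {x}) hn (dfn_singleton _) hd Set.disjoint_sdiff_right
  rw [← h1, h_singleton μ hn] at h2
  rw [h2]
  unfold ladd
  simp only [Nat.not_lt_zero, if_false]
  split_ifs with h3
  · rcases μ.val n _ hn hd with h4 | h4
    · rw [h4] at h3
      exact absurd h3 (lt_irrefl _)
    · exact h4
  · rcases μ.val n _ hn hd with h4 | h4
    · rw [h4]
      norm_num
    · linarith

theorem mono [Nontrivial M] (μ : MSMeasure Λ M) (n : ℕ) (X Y : Set (Fin n → M)) (hn : 1 ≤ n)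
    (hX : Dfn Λ X) (hY : Dfn Λ Y) (h : X ⊆ Y) : (μ.h n X).1 ≤ (μ.h n Y).1 := by
  have h1 := additive μ n X (Y \ X) hn hX (dfn_diff hY hX) Set.disjoint_sdiff_right
  rw [Set.union_sdiff_cancel h] at h1
  rw [h1, ladd_fst]
  exact le_max_left _ _

theorem fin_add [Nontrivial M] (μ : MSMeasure Λ M) (n : ℕ) (hn : 1 ≤ n) {ι : Type*}
    (s : Finset ι) (Z : ι → Set (Fin n → M)) (hZ : ∀ i, Dfn Λ (Z i))
    (hd : Pairwise (fun i j => Disjoint (Z i) (Z j))) :
    (μ.h n (⋃ i ∈ s, Z i)).1 = s.sup (fun i => (μ.h n (Z i)).1) ∧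
    ∀ b, (∀ i ∈ s, (μ.h n (Z i)).1 ≤ b) →
      coef b (μ.h n (⋃ i ∈ s, Z i)) = ∑ i ∈ s, coef b (μ.h n (Z i)) := by
  classical
  induction s using Finset.induction_on with
  | empty =>
    simp only [Finset.notMem_empty, Set.iUnion_of_empty, Set.iUnion_empty, Finset.sum_empty,
      Finset.sup_empty]
    rw [h_empty μ hn]
    exact ⟨rfl, fun b _ => coef_zero b⟩
  | insert a s ha ih =>
    obtain ⟨h1, h2⟩ := ih
    have h3 := additive μ n (Z a) (⋃ i ∈ s, Z i) hn (hZ a) (dfn_biUnion hZ s) (by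
      rw [Set.disjoint_iUnion₂_right]
      intro b hb
      exact hd (fun hab => ha (hab ▸ hb)))
    rw [Finset.set_biUnion_insert, h3, Finset.sup_insert, ladd_fst, h1]
    refine ⟨rfl, ?_⟩
    intro b hb
    rw [coef_ladd, h2 b (fun i hi => hb i (Finset.mem_insert_of_mem hi)), Finset.sum_insert ha]
    · exact hb a (Finset.mem_insert_self a s)
    · rw [h1]
      exact Finset.sup_le (fun i hi => hb i (Finset.mem_insert_of_mem hi))

theorem lead_union [Nontrivial M] (μ : MSMeasure Λ M) (n : ℕ) (hn : 1 ≤ n) {r : ℕ}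
    (Z : Fin r → Set (Fin n → M)) (hZ : ∀ i, Dfn Λ (Z i))
    (hd : Pairwise (fun i j => Disjoint (Z i) (Z j))) :
    μ.h n (⋃ i, Z i) = lead (fun i => μ.h n (Z i)) := by
  have h1 := fin_add μ n hn Finset.univ Z hZ hd
  simp only [Finset.mem_univ, Set.iUnion_true] at h1
  refine pair_ext (h1.1.trans rfl) ?_
  rw [h1.2, coef_lead]
  · intro i
    rw [h1.1]
    exact Finset.le_sup (f := fun i => (μ.h n (Z i)).1) (Finset.mem_univ i)
  · intro i _
    rw [h1.1]
    exact Finset.le_sup (f := fun i => (μ.h n (Z i)).1) (Finset.mem_univ i)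

theorem main : S_MS1.{u} := by
  intro Λ M _ _ μ
  refine ⟨positive μ, additive μ, ?_, ?_, ?_⟩
  · intro n k X Y f hn hk hS hinj
    obtain ⟨r, Z, v, h1, h2, h3, h4, h5⟩ := μ.cond3 n k X Y f hn hk hS
    have hv : ∀ i, v i = (0, 1) := by
      intro i
      obtain ⟨y, hy⟩ := (h1 i).1
      rw [← h4 i y hy]
      have hyY : y ∈ Y := by
        rw [← h3]
        exact Set.mem_iUnion.2 ⟨i, hy⟩
      rw [← hS.image] at hyY
      obtain ⟨x, hx, rfl⟩ := hyY
      have e : {x' | x' ∈ X ∧ f x' = f x} = {x} := by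
        ext x'
        simp only [Set.mem_ofPred_eq, Set.mem_singleton_iff]
        constructor
        · rintro ⟨h6, h7⟩
          exact hinj h6 hx h7
        · rintro rfl
          exact ⟨hx, rfl⟩
      rw [e, h_singleton μ hn]
    rw [h5, ← h3, lead_union μ k hk Z (fun i => (h1 i).2) h2]
    congr 1
    funext i
    rw [hv i]
    simp
  · intro n k X Y f hn hk hS a b ha hb
    obtain ⟨r, Z, v, h1, h2, h3, h4, h5⟩ := μ.cond3 n k X Y f hn hk hS
    have hZY : ∀ i, Z i ⊆ Y := fun i => by
      rw [← h3]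
      exact Set.subset_iUnion Z i
    have hva : ∀ i, (v i).1 ≤ a := by
      intro i
      obtain ⟨y, hy⟩ := (h1 i).1
      rw [← h4 i y hy]
      exact ha y (hZY i hy)
    have hZb : ∀ i, (μ.h k (Z i)).1 ≤ b := fun i =>
      (mono μ k _ _ hk (h1 i).2 hS.dY (hZY i)).trans hb
    refine ⟨?_, ?_⟩
    · rw [h5, lead_fst]
      refine Finset.sup_le (fun i _ => ?_)
      exact Nat.add_le_add (hva i) (hZb i)
    · classical
      have hset : ∀ w, {y | y ∈ Y ∧ coef a (μ.h n {x | x ∈ X ∧ f x = y}) = w} =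
          ⋃ i ∈ Finset.univ.filter (fun i => coef a (v i) = w), Z i := by
        intro w
        ext y
        simp only [Set.mem_ofPred_eq, Set.mem_iUnion, Finset.mem_filter, Finset.mem_univ,
          true_and, exists_prop]
        constructor
        · rintro ⟨hy, hw⟩
          rw [← h3] at hy
          obtain ⟨i, hi⟩ := Set.mem_iUnion.1 hy
          refine ⟨i, ?_, hi⟩
          rw [← hw, h4 i y hi]
        · rintro ⟨i, hw, hi⟩
          refine ⟨hZY i hi, ?_⟩
          rw [h4 i y hi, hw]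
      refine ⟨Finset.univ.image (fun i => coef a (v i)), ?_, ?_, ?_⟩
      · intro y hy
        rw [← h3] at hy
        obtain ⟨i, hi⟩ := Set.mem_iUnion.1 hy
        rw [h4 i y hi]
        exact Finset.mem_image_of_mem _ (Finset.mem_univ i)
      · intro w
        rw [hset]
        exact dfn_biUnion (fun i => (h1 i).2) _
      · intro V hV
        rw [h5, coef_lead _ _ (fun i => Nat.add_le_add (hva i) (hZb i))]
        have e1 : ∀ w ∈ V, w * coef b (μ.h k {y | y ∈ Y ∧
            coef a (μ.h n {x | x ∈ X ∧ f x = y}) = w}) =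
            ∑ i ∈ Finset.univ.filter (fun i => coef a (v i) = w),
              coef a (v i) * coef b (μ.h k (Z i)) := by
          intro w _
          rw [hset, (fin_add μ k hk _ Z (fun i => (h1 i).2) h2).2 b (fun i _ => hZb i),
            Finset.mul_sum]
          refine Finset.sum_congr rfl ?_
          intro i hi
          rw [(Finset.mem_filter.1 hi).2]
        rw [Finset.sum_congr rfl e1, Finset.sum_fiberwise_of_maps_to]
        · refine Finset.sum_congr rfl ?_
          intro i _
          exact coef_mul (hva i) (hZb i)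
        · intro i _
          exact hV (Finset.mem_image_of_mem _ (Finset.mem_univ i))
  · intro n k X Y f hn hk hS hne a ha
    obtain ⟨r, Z, v, h1, h2, h3, h4, h5⟩ := μ.cond3 n k X Y f hn hk hS
    have hY : μ.h k Y = lead (fun i => μ.h k (Z i)) := by
      rw [← h3]
      exact lead_union μ k hk Z (fun i => (h1 i).2) h2
    have hr : (Finset.univ : Finset (Fin r)).Nonempty := by
      obtain ⟨y, hy⟩ := hne
      rw [← h3] at hy
      obtain ⟨i, hi⟩ := Set.mem_iUnion.1 hy
      exact ⟨i, Finset.mem_univ i⟩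
    obtain ⟨i, -, hi⟩ := Finset.exists_mem_eq_sup Finset.univ hr (fun i => (μ.h k (Z i)).1)
    rw [h5, hY, lead_fst, lead_fst, hi]
    have hva : a ≤ (v i).1 := by
      obtain ⟨y, hy⟩ := (h1 i).1
      rw [← h4 i y hy]
      refine ha y ?_
      rw [← h3]
      exact Set.mem_iUnion.2 ⟨i, hy⟩
    refine le_trans (Nat.add_le_add_right hva _) ?_
    exact Finset.le_sup (f := fun i => (v i).1 + (μ.h k (Z i)).1) (Finset.mem_univ i)

end Pool.Agent.N633.SQ.Ms1
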