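import Pool.Agent.N633.SQ.Stm

/-!
Project SQ (helper633), part MS2 (written by helper82): definable groups, double counting.
-/

set_option autoImplicit false

open FirstOrder FirstOrder.Language

namespace Pool.Agent.N633.SQ.Ms2

universe u

variable {Λ : FirstOrder.Language.{0, 0}} {M : Type u} [Λ.Structure M]

/-! ### definable functions -/

theorem addFun [AddCommGroup M] (h : AddDef Λ M) (S : Set M) :
    S.DefinableFun Λ (fun z : Fin 2 → M => z 0 + z 1) := by
  refine Set.DefinableFun.of_empty ?_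
  have h1 := Set.Definable.preimage_comp (![some 0, some 1, none] : Fin 3 → Option (Fin 2)) h
  have e : Function.tupleGraph (fun z : Fin 2 → M => z 0 + z 1) =
      (fun g : Option (Fin 2) → M => g ∘ (![some 0, some 1, none] : Fin 3 → Option (Fin 2))) ⁻¹'
        {z : Fin 3 → M | z 2 = z 0 + z 1} := by
    ext v
    simp [Function.tupleGraph, eq_comm]
  rw [Set.DefinableFun, e]
  exact h1

theorem subFun [AddCommGroup M] (h : AddDef Λ M) (S : Set M) :
    S.DefinableFun Λ (fun z : Fin 2 → M => z 0 - z 1) := by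
  refine Set.DefinableFun.of_empty ?_
  have h1 := Set.Definable.preimage_comp (![none, some 1, some 0] : Fin 3 → Option (Fin 2)) h
  have e : Function.tupleGraph (fun z : Fin 2 → M => z 0 - z 1) =
      (fun g : Option (Fin 2) → M => g ∘ (![none, some 1, some 0] : Fin 3 → Option (Fin 2))) ⁻¹'
        {z : Fin 3 → M | z 2 = z 0 + z 1} := by
    ext v
    simp [Function.tupleGraph, sub_eq_iff_eq_add]
  rw [Set.DefinableFun, e]
  exact h1

theorem map2 {α : Type} {S : Set M} {f g : (α → M) → M} (hf : S.DefinableFun Λ f)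
    (hg : S.DefinableFun Λ g) : S.DefinableMap Λ (fun v => ![f v, g v]) := by
  intro i
  fin_cases i
  · exact hf
  · exact hg

theorem add2 [AddCommGroup M] (h : AddDef Λ M) {α : Type} {S : Set M} {f g : (α → M) → M}
    (hf : S.DefinableFun Λ f) (hg : S.DefinableFun Λ g) :
    S.DefinableFun Λ (fun v => f v + g v) :=
  Set.DefinableFun.comp (map2 hf hg) (addFun h S)

theorem sub2 [AddCommGroup M] (h : AddDef Λ M) {α : Type} {S : Set M} {f g : (α → M) → M}
    (hf : S.DefinableFun Λ f) (hg : S.DefinableFun Λ g) :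
    S.DefinableFun Λ (fun v => f v - g v) :=
  Set.DefinableFun.comp (map2 hf hg) (subFun h S)

theorem memFun {α : Type} {S : Set M} {A : Set M} {f : (α → M) → M} (hA : S.Definable Λ (up A))
    (hf : S.DefinableFun Λ f) : S.Definable Λ {v : α → M | f v ∈ A} := by
  have hF : S.DefinableMap Λ (fun (v : α → M) (_ : Fin 1) => f v) := fun _ => hf
  exact hA.preimage_map hF

theorem prj {α : Type} (S : Set M) (i : α) : S.DefinableFun Λ (fun v : α → M => v i) :=
  Set.DefinableFun.proj Λ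

theorem cst {α : Type} (a : M) : (Set.univ : Set M).DefinableFun Λ (fun _ : α → M => a) :=
  definableFun_const Λ α (Set.mem_univ a)

/-- definable surjections onto subsets of `M` -/
theorem mkSurj {n : ℕ} {X : Set (Fin n → M)} {F : (Fin n → M) → M} (hX : Dfn Λ X)
    (hF : (Set.univ : Set M).DefinableFun Λ F) :
    DSurj Λ X (up (F '' X)) (fun z _ => F z) := by
  have hg : Dfn Λ {z : Fin n ⊕ Fin 1 → M | (fun i => z (Sum.inl i)) ∈ X ∧
      (fun _ : Fin 1 => F (fun i => z (Sum.inl i))) = fun i => z (Sum.inr i)} := by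
    have h1 : Dfn Λ {z : Fin n ⊕ Fin 1 → M | (fun i => z (Sum.inl i)) ∈ X} :=
      Set.Definable.preimage_comp (Sum.inl : Fin n → Fin n ⊕ Fin 1) hX
    have h2 : Dfn Λ {z : Fin n ⊕ Fin 1 → M | F (fun i => z (Sum.inl i)) = z (Sum.inr 0)} :=
      Set.DefinableFun.ofPred_eq
        (Set.DefinableFun.comp (g := fun (z : Fin n ⊕ Fin 1 → M) (i : Fin n) => z (Sum.inl i))
          (fun i => prj _ (Sum.inl i)) hF) (prj _ _)
    have h3 := Set.Definable.inter h1 h2
    refine (congrArg (Dfn Λ) (?_ : _ = _)).mpr h3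
    ext z
    constructor
    · rintro ⟨h4, h5⟩
      exact ⟨h4, congrFun h5 0⟩
    · rintro ⟨h4, h5⟩
      refine ⟨h4, funext fun i => ?_⟩
      rw [Subsingleton.elim i 0]
      exact h5
  refine ⟨hX, ?_, hg, ?_⟩
  · have h1 := Set.Definable.preimage_comp
      (Sum.elim Sum.inr Sum.inl : Fin n ⊕ Fin 1 → Fin 1 ⊕ Fin n) hg
    have h2 := Set.Definable.exists_of_finite h1
    refine (congrArg (Dfn Λ) (?_ : _ = _)).mpr h2
    ext z
    constructor
    · rintro ⟨w, hw, h3⟩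
      refine ⟨w, hw, funext fun i => ?_⟩
      rw [Subsingleton.elim i 0]
      exact h3
    · rintro ⟨w, hw, h3⟩
      exact ⟨w, hw, congrFun h3 0⟩
  · ext z
    constructor
    · rintro ⟨w, hw, rfl⟩
      exact ⟨w, hw, rfl⟩
    · rintro ⟨w, hw, h3⟩
      refine ⟨w, hw, funext fun i => ?_⟩
      rw [Subsingleton.elim i 0]
      exact h3

/-- bijections onto subsets of `M` -/
theorem bij [Nontrivial M] (h1 : S_MS1.{u}) (μ : MSMeasure Λ M) {n : ℕ} {X : Set (Fin n → M)}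
    {F : (Fin n → M) → M} (hn : 1 ≤ n) (hX : Dfn Λ X)
    (hF : (Set.univ : Set M).DefinableFun Λ F) (hinj : Set.InjOn F X) {B : Set M}
    (hB : F '' X = B) : μ.h n X = hh μ B := by
  subst hB
  refine (h1 Λ M μ).2.2.1 n 1 X _ (fun z _ => F z) hn le_rfl (mkSurj hX hF) ?_
  intro z hz w hw h
  exact hinj hz hw (congrFun h 0)

theorem h_empty (μ : MSMeasure Λ M) (n : ℕ) (hn : 1 ≤ n) : μ.h n ∅ = (0, 0) := by
  rw [μ.cond2 n ∅ hn Set.finite_empty, Set.ncard_empty, Nat.cast_zero]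

theorem hh_empty (μ : MSMeasure Λ M) : hh μ (∅ : Set M) = (0, 0) := by
  have : up (∅ : Set M) = ∅ := by
    ext z; simp [up]
  rw [hh, this, h_empty μ 1 le_rfl]

theorem ladd_fst (v w : ℕ × ℝ) : (ladd v w).1 = max v.1 w.1 := by
  rw [ladd]
  split_ifs with h1 h2
  · exact (max_eq_right h1.le).symm
  · exact (max_eq_left h2.le).symm
  · simp only; omega

theorem h_mono [Nontrivial M] (h1 : S_MS1.{u}) (μ : MSMeasure Λ M) {n : ℕ} (hn : 1 ≤ n)
    {X Y : Set (Fin n → M)} (hX : Dfn Λ X) (hY : Dfn Λ Y) (h : X ⊆ Y) :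
    (μ.h n X).1 ≤ (μ.h n Y).1 := by
  have h2 := (h1 Λ M μ).2.1 n X (Y \ X) hn hX (Set.Definable.sdiff hY hX)
    Set.disjoint_sdiff_right
  rw [Set.union_sdiff_cancel h] at h2
  rw [h2, ladd_fst]
  exact le_max_left _ _

theorem hh_mono [Nontrivial M] (h1 : S_MS1.{u}) (μ : MSMeasure Λ M) {A B : Set M}
    (hA : DS Λ A) (hB : DS Λ B) (h : A ⊆ B) : (hh μ A).1 ≤ (hh μ B).1 :=
  h_mono h1 μ le_rfl hA hB fun _ hz => h hz

theorem ds_univ : DS Λ (Set.univ : Set M) := by
  have : up (Set.univ : Set M) = Set.univ := by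
    ext z; simp [up]
  rw [DS, this]
  exact Set.definable_univ

theorem coef_zero (a : ℕ) : coef a ((0 : ℕ), (0 : ℝ)) = 0 := by
  rw [coef]; split_ifs <;> rfl

/-! ### the set of pairs -/

/-- the pairs in `X × P` with difference in `G` -/
def RR [AddCommGroup M] (X P G : Set M) : Set (Fin 2 → M) :=
  {z | z 0 ∈ X ∧ z 1 ∈ P ∧ z 1 - z 0 ∈ G}

theorem dRR [AddCommGroup M] (h : AddDef Λ M) {X P G : Set M} (hX : DS Λ X) (hP : DS Λ P)
    (hG : DS Λ G) : Dfn Λ (RR X P G) :=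
  Set.Definable.inter (memFun hX (prj _ 0)) (Set.Definable.inter (memFun hP (prj _ 1))
    (memFun hG (sub2 h (prj _ 1) (prj _ 0))))

theorem ds_co [AddCommGroup M] (h : AddDef Λ M) {P G : Set M} (hP : DS Λ P) (hG : DS Λ G)
    (x : M) : DS Λ (co P G x) :=
  Set.Definable.inter (memFun hP (prj _ 0)) (memFun hG (sub2 h (prj _ 0) (cst x)))

theorem ds_sh [AddCommGroup M] (h : AddDef Λ M) {X P : Set M} (hX : DS Λ X) (hP : DS Λ P)
    (d : M) : DS Λ (sh X P d) :=
  Set.Definable.inter (memFun hX (prj _ 0)) (memFun hP (add2 h (prj _ 0) (cst d)))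

/-- the fibres of the first map -/
theorem fib1 [AddCommGroup M] [Nontrivial M] (h1 : S_MS1.{u}) (μ : MSMeasure Λ M)
    (h : AddDef Λ M) {X P G : Set M} (hX : DS Λ X) (hP : DS Λ P) (hG : DS Λ G) {y : Fin 1 → M}
    (hy : y 0 ∈ X) :
    μ.h 2 {z | z ∈ RR X P G ∧ (fun _ : Fin 1 => z 0) = y} = hh μ (co P G (y 0)) := by
  have e : {z | z ∈ RR X P G ∧ (fun _ : Fin 1 => z 0) = y} =
      RR X P G ∩ {z : Fin 2 → M | z 0 = y 0} := by
    ext z
    constructor
    · rintro ⟨h2, h3⟩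
      exact ⟨h2, congrFun h3 0⟩
    · rintro ⟨h2, h3⟩
      refine ⟨h2, funext fun i => ?_⟩
      rw [Subsingleton.elim i 0]
      exact h3
  rw [e]
  refine bij h1 μ (by norm_num) (F := fun z => z 1) (Set.Definable.inter (dRR h hX hP hG)
    (Set.DefinableFun.ofPred_eq (prj _ 0) (cst (y 0)))) (prj _ 1) ?_ ?_
  · rintro z ⟨_, hz⟩ w ⟨_, hw⟩ h2
    funext i
    fin_cases i
    · exact (hz : z 0 = y 0).trans (hw : w 0 = y 0).symm
    · exact h2
  · ext b
    constructor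
    · rintro ⟨z, ⟨⟨_, h3, h4⟩, h5⟩, rfl⟩
      refine ⟨h3, ?_⟩
      have h5' : z 0 = y 0 := h5
      rw [← h5']
      exact h4
    · rintro ⟨h3, h4⟩
      exact ⟨![y 0, b], ⟨⟨hy, h3, h4⟩, rfl⟩, rfl⟩

/-- the fibres of the second map -/
theorem fib2 [AddCommGroup M] [Nontrivial M] (h1 : S_MS1.{u}) (μ : MSMeasure Λ M)
    (h : AddDef Λ M) {X P G : Set M} (hX : DS Λ X) (hP : DS Λ P) (hG : DS Λ G) {y : Fin 1 → M}
    (hy : y 0 ∈ G) :
    μ.h 2 {z | z ∈ RR X P G ∧ (fun _ : Fin 1 => z 1 - z 0) = y} = hh μ (sh X P (y 0)) := by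
  have e : {z | z ∈ RR X P G ∧ (fun _ : Fin 1 => z 1 - z 0) = y} =
      RR X P G ∩ {z : Fin 2 → M | z 1 - z 0 = y 0} := by
    ext z
    constructor
    · rintro ⟨h2, h3⟩
      exact ⟨h2, congrFun h3 0⟩
    · rintro ⟨h2, h3⟩
      refine ⟨h2, funext fun i => ?_⟩
      rw [Subsingleton.elim i 0]
      exact h3
  rw [e]
  refine bij h1 μ (by norm_num) (F := fun z => z 0) (Set.Definable.inter (dRR h hX hP hG)
    (Set.DefinableFun.ofPred_eq (sub2 h (prj _ 1) (prj _ 0)) (cst (y 0)))) (prj _ 0) ?_ ?_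
  · rintro z ⟨_, hz⟩ w ⟨_, hw⟩ h2
    have hz' : z 1 - z 0 = y 0 := hz
    have hw' : w 1 - w 0 = y 0 := hw
    have h2' : z 0 = w 0 := h2
    funext i
    fin_cases i
    · exact h2
    · have : z 1 = w 1 := by
        rw [sub_eq_iff_eq_add] at hz' hw'
        rw [hz', hw', h2']
      exact this
  · ext b
    constructor
    · rintro ⟨z, ⟨⟨h2, h3, h4⟩, h5⟩, rfl⟩
      refine ⟨h2, ?_⟩
      have h5' : z 1 - z 0 = y 0 := h5
      have : z 0 + y 0 = z 1 := by rw [← h5']; abel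
      change z 0 + y 0 ∈ P
      rw [this]
      exact h3
    · rintro ⟨h3, h4⟩
      refine ⟨![b, b + y 0], ⟨⟨h3, h4, ?_⟩, ?_⟩, rfl⟩
      · change (b + y 0) - b ∈ G
        rw [add_sub_cancel_left]
        exact hy
      · change (b + y 0) - b = y 0
        rw [add_sub_cancel_left]

/-- first projection: double counting -/
theorem cnt1 [AddCommGroup M] [Nontrivial M] (h1 : S_MS1.{u}) (μ : MSMeasure Λ M)
    (h : AddDef Λ M) {X P G : Set M} (hX : DS Λ X) (hP : DS Λ P) (hG : DS Λ G) :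
    ∃ V₀ : Finset ℝ,
    (∀ x ∈ X, coef (hh μ (Set.univ : Set M)).1 (hh μ (co P G x)) ∈ V₀) ∧
    (∀ v, DS Λ {x | x ∈ X ∧ coef (hh μ (Set.univ : Set M)).1 (hh μ (co P G x)) = v}) ∧
    ∀ V : Finset ℝ, V₀ ⊆ V →
    coef ((hh μ (Set.univ : Set M)).1 + (hh μ (Set.univ : Set M)).1) (μ.h 2 (RR X P G)) =
    ∑ v ∈ V, v * coef (hh μ (Set.univ : Set M)).1
        (hh μ {x | x ∈ X ∧ coef (hh μ (Set.univ : Set M)).1 (hh μ (co P G x)) = v}) := by
  classical
  set D := (hh μ (Set.univ : Set M)).1 with hD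
  have hs := mkSurj (dRR h hX hP hG) (prj Set.univ (0 : Fin 2))
  have hY : ∀ y : Fin 1 → M, y ∈ up ((fun v : Fin 2 → M => v 0) '' RR X P G) ↔
      y 0 ∈ X ∧ (co P G (y 0)).Nonempty := by
    intro y
    constructor
    · rintro ⟨z, ⟨h2, h3, h4⟩, h5⟩
      have h5' : z 0 = y 0 := h5
      rw [← h5']
      exact ⟨h2, z 1, h3, h4⟩
    · rintro ⟨h2, b, h3, h4⟩
      exact ⟨![y 0, b], ⟨h2, h3, h4⟩, rfl⟩
  have hfib : ∀ y : Fin 1 → M, y 0 ∈ X →
      μ.h 2 {x | x ∈ RR X P G ∧ (fun _ : Fin 1 => x 0) = y} = hh μ (co P G (y 0)) :=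
    fun y hy => fib1 h1 μ h hX hP hG hy
  obtain ⟨-, V₀, hV1, hV2, hV3⟩ := (h1 Λ M μ).2.2.2.1 2 1 _ _ _ (by norm_num) le_rfl hs D D
    (fun y hy => by
      rw [hfib y ((hY y).1 hy).1]
      exact hh_mono h1 μ (ds_co h hP hG _) ds_univ (Set.subset_univ _))
    (hh_mono h1 μ (hs.dY : DS Λ _) ds_univ (Set.subset_univ _))
  have hemp : ∀ x, ¬ (co P G x).Nonempty → coef D (hh μ (co P G x)) = 0 := by
    intro x hx
    rw [Set.not_nonempty_iff_eq_empty.1 hx, hh_empty, coef_zero]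
  have hset : ∀ v, v ≠ 0 → {y | y ∈ up ((fun v : Fin 2 → M => v 0) '' RR X P G) ∧
      coef D (μ.h 2 {x | x ∈ RR X P G ∧ (fun _ : Fin 1 => x 0) = y}) = v} =
      up {x | x ∈ X ∧ coef D (hh μ (co P G x)) = v} := by
    intro v hv
    ext y
    constructor
    · rintro ⟨h2, h3⟩
      have h4 := (hY y).1 h2
      rw [hfib y h4.1] at h3
      exact ⟨h4.1, h3⟩
    · rintro ⟨h2, h3⟩
      have h4 : (co P G (y 0)).Nonempty := by
        by_contra hc
        exact hv (h3.symm.trans (hemp _ hc))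
      refine ⟨(hY y).2 ⟨h2, h4⟩, ?_⟩
      rw [hfib y h2]
      exact h3
  have hset0 : up {x | x ∈ X ∧ coef D (hh μ (co P G x)) = 0} =
      {y | y ∈ up ((fun v : Fin 2 → M => v 0) '' RR X P G) ∧
      coef D (μ.h 2 {x | x ∈ RR X P G ∧ (fun _ : Fin 1 => x 0) = y}) = 0} ∪
      (up X \ up ((fun v : Fin 2 → M => v 0) '' RR X P G)) := by
    ext y
    constructor
    · rintro ⟨h2, h3⟩
      by_cases h4 : (co P G (y 0)).Nonempty
      · left
        refine ⟨(hY y).2 ⟨h2, h4⟩, ?_⟩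
        rw [hfib y h2]
        exact h3
      · right
        exact ⟨h2, fun h5 => h4 ((hY y).1 h5).2⟩
    · rintro (⟨h2, h3⟩ | ⟨h2, h3⟩)
      · have h4 := (hY y).1 h2
        rw [hfib y h4.1] at h3
        exact ⟨h4.1, h3⟩
      · refine ⟨h2, hemp _ fun h4 => h3 ((hY y).2 ⟨h2, h4⟩)⟩
  refine ⟨insert 0 V₀, ?_, ?_, ?_⟩
  · intro x hx
    by_cases h4 : (co P G x).Nonempty
    · have h5 := hV1 (fun _ => x) ((hY _).2 ⟨hx, h4⟩)
      rw [hfib _ hx] at h5
      exact Finset.mem_insert_of_mem h5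
    · rw [hemp x h4]
      exact Finset.mem_insert_self _ _
  · intro v
    by_cases hv : v = 0
    · subst hv
      rw [DS, hset0]
      exact Set.Definable.union (hV2 0) (Set.Definable.sdiff hX hs.dY)
    · rw [DS, ← hset v hv]
      exact hV2 v
  · intro V hV
    rw [hV3 V (fun x hx => hV (Finset.mem_insert_of_mem hx))]
    refine Finset.sum_congr rfl fun v _ => ?_
    by_cases hv : v = 0
    · rw [hv, zero_mul, zero_mul]
    · rw [hset v hv]
      rfl

/-- the difference map: double counting -/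
theorem cnt2 [AddCommGroup M] [Nontrivial M] (h1 : S_MS1.{u}) (μ : MSMeasure Λ M)
    (h : AddDef Λ M) {X P G : Set M} (hX : DS Λ X) (hP : DS Λ P) (hG : DS Λ G) :
    ∃ V₀ : Finset ℝ,
    (∀ d ∈ G, coef (hh μ (Set.univ : Set M)).1 (hh μ (sh X P d)) ∈ V₀) ∧
    (∀ v, DS Λ {d | d ∈ G ∧ coef (hh μ (Set.univ : Set M)).1 (hh μ (sh X P d)) = v}) ∧
    ∀ V : Finset ℝ, V₀ ⊆ V →
    coef ((hh μ (Set.univ : Set M)).1 + (hh μ (Set.univ : Set M)).1) (μ.h 2 (RR X P G)) =
    ∑ v ∈ V, v * coef (hh μ (Set.univ : Set M)).1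
        (hh μ {d | d ∈ G ∧ coef (hh μ (Set.univ : Set M)).1 (hh μ (sh X P d)) = v}) := by
  classical
  set D := (hh μ (Set.univ : Set M)).1 with hD
  have hs := mkSurj (dRR h hX hP hG) (sub2 h (prj Set.univ (1 : Fin 2)) (prj _ (0 : Fin 2)))
  have hY : ∀ y : Fin 1 → M, y ∈ up ((fun v : Fin 2 → M => v 1 - v 0) '' RR X P G) ↔
      y 0 ∈ G ∧ (sh X P (y 0)).Nonempty := by
    intro y
    constructor
    · rintro ⟨z, ⟨h2, h3, h4⟩, h5⟩
      have h5' : z 1 - z 0 = y 0 := h5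
      rw [← h5']
      refine ⟨h4, z 0, h2, ?_⟩
      rw [add_sub_cancel]
      exact h3
    · rintro ⟨h2, b, h3, h4⟩
      refine ⟨![b, b + y 0], ⟨h3, h4, ?_⟩, ?_⟩
      · change (b + y 0) - b ∈ G
        rw [add_sub_cancel_left]
        exact h2
      · change (b + y 0) - b = y 0
        rw [add_sub_cancel_left]
  have hfib : ∀ y : Fin 1 → M, y 0 ∈ G →
      μ.h 2 {x | x ∈ RR X P G ∧ (fun _ : Fin 1 => x 1 - x 0) = y} = hh μ (sh X P (y 0)) :=
    fun y hy => fib2 h1 μ h hX hP hG hy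
  obtain ⟨-, V₀, hV1, hV2, hV3⟩ := (h1 Λ M μ).2.2.2.1 2 1 _ _ _ (by norm_num) le_rfl hs D D
    (fun y hy => by
      rw [hfib y ((hY y).1 hy).1]
      exact hh_mono h1 μ (ds_sh h hX hP _) ds_univ (Set.subset_univ _))
    (hh_mono h1 μ (hs.dY : DS Λ _) ds_univ (Set.subset_univ _))
  have hemp : ∀ x, ¬ (sh X P x).Nonempty → coef D (hh μ (sh X P x)) = 0 := by
    intro x hx
    rw [Set.not_nonempty_iff_eq_empty.1 hx, hh_empty, coef_zero]
  have hset : ∀ v, v ≠ 0 → {y | y ∈ up ((fun v : Fin 2 → M => v 1 - v 0) '' RR X P G) ∧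
      coef D (μ.h 2 {x | x ∈ RR X P G ∧ (fun _ : Fin 1 => x 1 - x 0) = y}) = v} =
      up {x | x ∈ G ∧ coef D (hh μ (sh X P x)) = v} := by
    intro v hv
    ext y
    constructor
    · rintro ⟨h2, h3⟩
      have h4 := (hY y).1 h2
      rw [hfib y h4.1] at h3
      exact ⟨h4.1, h3⟩
    · rintro ⟨h2, h3⟩
      have h4 : (sh X P (y 0)).Nonempty := by
        by_contra hc
        exact hv (h3.symm.trans (hemp _ hc))
      refine ⟨(hY y).2 ⟨h2, h4⟩, ?_⟩
      rw [hfib y h2]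
      exact h3
  have hset0 : up {x | x ∈ G ∧ coef D (hh μ (sh X P x)) = 0} =
      {y | y ∈ up ((fun v : Fin 2 → M => v 1 - v 0) '' RR X P G) ∧
      coef D (μ.h 2 {x | x ∈ RR X P G ∧ (fun _ : Fin 1 => x 1 - x 0) = y}) = 0} ∪
      (up G \ up ((fun v : Fin 2 → M => v 1 - v 0) '' RR X P G)) := by
    ext y
    constructor
    · rintro ⟨h2, h3⟩
      by_cases h4 : (sh X P (y 0)).Nonempty
      · left
        refine ⟨(hY y).2 ⟨h2, h4⟩, ?_⟩
        rw [hfib y h2]
        exact h3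
      · right
        exact ⟨h2, fun h5 => h4 ((hY y).1 h5).2⟩
    · rintro (⟨h2, h3⟩ | ⟨h2, h3⟩)
      · have h4 := (hY y).1 h2
        rw [hfib y h4.1] at h3
        exact ⟨h4.1, h3⟩
      · refine ⟨h2, hemp _ fun h4 => h3 ((hY y).2 ⟨h2, h4⟩)⟩
  refine ⟨insert 0 V₀, ?_, ?_, ?_⟩
  · intro x hx
    by_cases h4 : (sh X P x).Nonempty
    · have h5 := hV1 (fun _ => x) ((hY _).2 ⟨hx, h4⟩)
      rw [hfib _ hx] at h5
      exact Finset.mem_insert_of_mem h5
    · rw [hemp x h4]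
      exact Finset.mem_insert_self _ _
  · intro v
    by_cases hv : v = 0
    · subst hv
      rw [DS, hset0]
      exact Set.Definable.union (hV2 0) (Set.Definable.sdiff hG hs.dY)
    · rw [DS, ← hset v hv]
      exact hV2 v
  · intro V hV
    rw [hV3 V (fun x hx => hV (Finset.mem_insert_of_mem hx))]
    refine Finset.sum_congr rfl fun v _ => ?_
    by_cases hv : v = 0
    · rw [hv, zero_mul, zero_mul]
    · rw [hset v hv]
      rfl

/-- MS2 -/
theorem main : S_MS1.{u} → S_MS2.{u} := by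
  classical
  intro h1 Λ M _ _ _ μ h
  refine ⟨?_, ?_, ?_, ?_⟩
  · -- translations
    intro A t hA
    have hB : DS Λ {x | x + t ∈ A} := by
      have h2 := memFun hA (add2 h (prj _ (0 : Fin 1)) (cst t))
      exact h2
    refine ⟨hB, ?_⟩
    refine bij h1 μ le_rfl (X := up {x | x + t ∈ A}) (F := fun z => z 0 + t) hB
      (add2 h (prj _ 0) (cst t)) ?_ ?_
    · intro z _ w _ h2
      have h3 : z 0 + t = w 0 + t := h2
      funext i
      rw [Subsingleton.elim i 0]
      exact add_right_cancel h3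
    · ext b
      constructor
      · rintro ⟨z, hz, rfl⟩
        exact hz
      · intro hb
        refine ⟨fun _ => b - t, ?_, ?_⟩
        · change b - t + t ∈ A
          rw [sub_add_cancel]
          exact hb
        · change b - t + t = b
          rw [sub_add_cancel]
  · -- level sets
    intro A hA v
    have h2 : (∅ : Set M).Definable Λ {z : Fin 1 ⊕ Fin 1 → M |
        z (Sum.inl 0) ∈ A ∧ z (Sum.inl 0) + z (Sum.inr 0) ∈ A} :=
      Set.Definable.inter (memFun hA (prj _ _)) (memFun hA (add2 h (prj _ _) (prj _ _)))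
    obtain ⟨φ, hφ⟩ := Set.empty_definable_iff.1 h2
    have h3 := (μ.cond1 1 1 le_rfl φ).2 v
    have h4 : ∀ b : Fin 1 → M, {x : Fin 1 → M | φ.Realize (Sum.elim x b)} =
        up (sh A A (b 0)) := by
      intro b
      ext x
      have h5 : Sum.elim x b ∈ {z : Fin 1 ⊕ Fin 1 → M |
        z (Sum.inl 0) ∈ A ∧ z (Sum.inl 0) + z (Sum.inr 0) ∈ A} ↔
        φ.Realize (Sum.elim x b) := by
        rw [hφ]; rfl
      exact h5.symm
    simp only [h4] at h3
    exact h3
  · -- double counting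
    intro X P G hX hP hG
    obtain ⟨V1, a1, a2, -⟩ := cnt1 h1 μ h (ds_univ (Λ := Λ)) hP hG
    obtain ⟨V2, b1, b2, -⟩ := cnt2 h1 μ h hX hP (ds_univ (Λ := Λ))
    obtain ⟨V3, -, -, c3⟩ := cnt1 h1 μ h hX hP hG
    obtain ⟨V4, -, -, d3⟩ := cnt2 h1 μ h hX hP hG
    refine ⟨(V1 ∪ V2) ∪ (V3 ∪ V4), ?_, ?_, ?_, ?_, ?_⟩
    · intro x
      exact Finset.mem_union_left _ (Finset.mem_union_left _ (a1 x (Set.mem_univ x)))
    · intro d
      exact Finset.mem_union_left _ (Finset.mem_union_right _ (b1 d (Set.mem_univ d)))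
    · intro v
      have := a2 v
      simp only [Set.mem_univ, true_and] at this
      exact this
    · intro v
      have := b2 v
      simp only [Set.mem_univ, true_and] at this
      exact this
    · intro V hV
      have e1 := c3 V (fun x hx => hV (Finset.mem_union_right _ (Finset.mem_union_left _ hx)))
      have e2 := d3 V (fun x hx => hV (Finset.mem_union_right _ (Finset.mem_union_right _ hx)))
      rw [← e1, e2]
      rfl
  · -- dimension
    intro X P G hX hP hG hGD hsh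
    have hs2 := mkSurj (dRR h hX hP hG) (sub2 h (prj Set.univ (1 : Fin 2)) (prj _ (0 : Fin 2)))
    have hY2 : ((fun v : Fin 2 → M => v 1 - v 0) '' RR X P (G : Set M)) = (G : Set M) := by
      ext d
      constructor
      · rintro ⟨z, ⟨_, _, h4⟩, rfl⟩
        exact h4
      · intro hd
        obtain ⟨b, h3, h4⟩ := (hsh d hd).1
        refine ⟨![b, b + d], ⟨h3, h4, ?_⟩, ?_⟩
        · change (b + d) - b ∈ (G : Set M)
          rw [add_sub_cancel_left]
          exact hd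
        · change (b + d) - b = d
          rw [add_sub_cancel_left]
    rw [hY2] at hs2
    have k2 := (h1 Λ M μ).2.2.2.2 2 1 _ _ _ (by norm_num) le_rfl hs2
      ⟨fun _ => 0, G.zero_mem⟩ (hh μ X).1 (fun y hy => by
        rw [fib2 h1 μ h hX hP hG hy]
        exact (hsh _ hy).2)
    have hs1 := mkSurj (dRR h hX hP hG) (prj Set.univ (0 : Fin 2))
    have hY1 : ((fun v : Fin 2 → M => v 0) '' RR X P (G : Set M)) ⊆ X := by
      rintro _ ⟨z, ⟨h2, _⟩, rfl⟩
      exact h2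
    have k1 := ((h1 Λ M μ).2.2.2.1 2 1 _ _ _ (by norm_num) le_rfl hs1 (hh μ P).1 (hh μ X).1
      (fun y hy => by
        rw [fib1 h1 μ h hX hP hG (hY1 hy)]
        exact hh_mono h1 μ (ds_co h hP hG _) hP fun z hz => hz.1)
      (hh_mono h1 μ (hs1.dY : DS Λ _) hX hY1)).1
    have k3 : (μ.h 1 (up (G : Set M))).1 = (hh μ (Set.univ : Set M)).1 := hGD
    rw [k3] at k2
    omega

end Pool.Agent.N633.SQ.Ms2
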