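import Pool.Agent.N633.SQ.Stm

/-!
Project SQ (helper633), problem MP_c6a6a6_lc: part Pd. A positive definite function on the
integers with finitely many values has no increasing means.
-/

set_option autoImplicit false

open Filter

namespace Pool.Agent.N633.SQ.Pd

/-! ### an idempotent ultrafilter on the positive integers -/

section Hin

attribute [local instance] Ultrafilter.add Ultrafilter.addSemigroup

theorem exists_U : ∃ U : Ultrafilter ℕ+,
    (∀ p : ℕ+ → Prop, (∀ᶠ m in U, p m) → ∀ᶠ m in U, ∀ᶠ m' in U, p (m + m')) ∧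
    (∀ A : Set ℕ+, A ∈ U → ∃ a : Stream' ℕ+, Hindman.FS a ⊆ A) := by
  obtain ⟨U, hU, -⟩ := Hindman.exists_idempotent_ultrafilter_le_FS (Stream'.const (1 : ℕ+))
  refine ⟨U, ?_, ?_⟩
  · intro p hp
    rw [← hU] at hp
    exact (Ultrafilter.eventually_add U U p).1 hp
  · intro A hA
    exact Hindman.exists_FS_of_large U hU A hA

end Hin

theorem interval_sum (a : Stream' ℕ+) (n : ℕ) : ∀ i : ℕ, ∃ m ∈ Hindman.FS (a.drop i),
    ((m : ℕ) : ℤ) = ∑ k ∈ Finset.range (n + 1), ((a.get (i + k) : ℕ) : ℤ) := by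
  induction n with
  | zero =>
    intro i
    refine ⟨(a.drop i).head, Hindman.FS.head _, ?_⟩
    rw [Finset.sum_range_one, Stream'.head_drop, add_zero]
  | succ n ih =>
    intro i
    obtain ⟨m, hm, hs⟩ := ih (i + 1)
    have hm' : m ∈ Hindman.FS (a.drop i).tail := by
      rw [Stream'.tail_eq_drop, Stream'.drop_drop]
      exact hm
    refine ⟨(a.drop i).head + m, Hindman.FS.cons _ m hm', ?_⟩
    rw [Finset.sum_range_succ']
    push_cast
    rw [hs, add_comm]
    congr 1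
    · refine Finset.sum_congr rfl ?_
      intro k _
      congr 3
      omega
    · rw [Stream'.head_drop, add_zero]

theorem ip (a : Stream' ℕ+) : ∃ t : ℕ → ℤ, t 0 = 0 ∧
    (∀ i j : ℕ, i < j → ∃ m ∈ Hindman.FS a, ((m : ℕ) : ℤ) = t j - t i) := by
  refine ⟨fun i => ∑ k ∈ Finset.range i, ((a.get k : ℕ) : ℤ), by simp, ?_⟩
  intro i j hij
  obtain ⟨m, hm, hs⟩ := interval_sum a (j - i - 1) i
  refine ⟨m, Hindman.FS_iter_tail_sub_FS a i hm, ?_⟩
  rw [hs]
  have h1 : j = i + (j - i - 1 + 1) := by omega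
  have h2 : ∑ k ∈ Finset.range j, ((a.get k : ℕ) : ℤ) =
      ∑ k ∈ Finset.range (i + (j - i - 1 + 1)), ((a.get k : ℕ) : ℤ) := by rw [← h1]
  show _ = (∑ k ∈ Finset.range j, ((a.get k : ℕ) : ℤ)) - ∑ k ∈ Finset.range i, ((a.get k : ℕ) : ℤ)
  rw [h2, Finset.sum_range_add (fun k => ((a.get k : ℕ) : ℤ)) i (j - i - 1 + 1)]
  ring

/-! ### the bilinear form -/

/-- the bilinear form of a function on the integers -/
noncomputable def BB (h : ℤ → ℝ) : (ℤ →₀ ℝ) →ₗ[ℝ] (ℤ →₀ ℝ) →ₗ[ℝ] ℝ :=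
  Finsupp.linearCombination ℝ (fun x : ℤ => Finsupp.linearCombination ℝ (fun y : ℤ => h (x - y)))

theorem BB_single (h : ℤ → ℝ) (x y : ℤ) (a b : ℝ) :
    BB h (Finsupp.single x a) (Finsupp.single y b) = a * b * h (x - y) := by
  unfold BB
  rw [Finsupp.linearCombination_single, LinearMap.smul_apply, Finsupp.linearCombination_single]
  simp only [smul_eq_mul]
  ring

theorem BB_symm (h : ℤ → ℝ) (he : ∀ n, h (-n) = h n) (u v : ℤ →₀ ℝ) : BB h u v = BB h v u := by
  have : BB h = (BB h).flip := by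
    ext x y
    simp only [LinearMap.coe_comp, Function.comp_apply, Finsupp.lsingle_apply, LinearMap.flip_apply]
    rw [BB_single, BB_single, ← he (x - y)]
    congr 2
    ring
  conv_lhs => rw [this]
  rfl

theorem BB_sum (h : ℤ → ℝ) (v : ℤ →₀ ℝ) :
    BB h v v = ∑ x ∈ v.support, ∑ y ∈ v.support, v x * v y * h (x - y) := by
  unfold BB
  rw [Finsupp.linearCombination_apply, Finsupp.sum, LinearMap.sum_apply]
  refine Finset.sum_congr rfl ?_
  intro x _
  rw [LinearMap.smul_apply, Finsupp.linearCombination_apply, Finsupp.sum, smul_eq_mul,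
    Finset.mul_sum]
  refine Finset.sum_congr rfl ?_
  intro y _
  simp only [smul_eq_mul]
  ring

theorem BB_pos (g : ℤ → ℝ)
    (hp : ∀ (k : ℕ) (x : Fin k → ℤ) (l : Fin k → ℝ), 0 ≤ ph g x l 0) (v : ℤ →₀ ℝ) :
    0 ≤ BB g v v := by
  rw [BB_sum]
  have h := hp v.support.card (fun i => ((v.support.equivFin.symm i : v.support) : ℤ))
    (fun i => v ((v.support.equivFin.symm i : v.support) : ℤ))
  unfold ph at h
  have h1 : ∀ f : ℤ → ℝ, ∑ i : Fin v.support.card, f ((v.support.equivFin.symm i : v.support) : ℤ)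
      = ∑ x ∈ v.support, f x := by
    intro f
    rw [← Finset.sum_coe_sort v.support f]
    exact Equiv.sum_comp v.support.equivFin.symm (fun x : v.support => f (x : ℤ))
  have h2 := h1 (fun x => ∑ j : Fin v.support.card,
    v x * v ((v.support.equivFin.symm j : v.support) : ℤ) *
      g (0 + x - ((v.support.equivFin.symm j : v.support) : ℤ)))
  rw [h2] at h
  refine h.trans (le_of_eq ?_)
  refine Finset.sum_congr rfl ?_
  intro x _
  rw [h1 (fun y => v x * v y * g (0 + x - y))]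
  refine Finset.sum_congr rfl ?_
  intro y _
  rw [zero_add]

/-- the vector of a family -/
noncomputable def ve {k : ℕ} (x : Fin k → ℤ) (l : Fin k → ℝ) (d : ℤ) : ℤ →₀ ℝ :=
  ∑ i, Finsupp.single (x i + d) (l i)

theorem BB_ve (g : ℤ → ℝ) {k : ℕ} (x : Fin k → ℤ) (l : Fin k → ℝ) (d e : ℤ) :
    BB g (ve x l d) (ve x l e) = ph g x l (d - e) := by
  unfold ve ph
  simp only [map_sum, LinearMap.sum_apply, BB_single]
  rw [Finset.sum_comm]
  refine Finset.sum_congr rfl ?_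
  intro i _
  refine Finset.sum_congr rfl ?_
  intro j _
  congr 2
  ring

theorem ph_abs (g : ℤ → ℝ) (he : ∀ n, g (-n) = g n)
    (hp : ∀ (k : ℕ) (x : Fin k → ℤ) (l : Fin k → ℝ), 0 ≤ ph g x l 0) {k : ℕ} (x : Fin k → ℤ)
    (l : Fin k → ℝ) (d : ℤ) : ph g x l d ≤ ph g x l 0 := by
  have h := BB_pos g hp (ve x l d - ve x l 0)
  have h1 := BB_symm g he (ve x l d) (ve x l 0)
  simp only [map_sub, LinearMap.sub_apply] at h
  rw [← h1, BB_ve, BB_ve, BB_ve] at h
  simp only [sub_self, sub_zero] at h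
  linarith

/-! ### the function `S` -/

/-- the hypothesis on the means -/
def HH (g : ℤ → ℝ) (S : ℕ → ℝ) : Prop :=
  ∀ N : ℕ, 1 ≤ N → ∀ (k : ℕ) (x : Fin k → ℤ) (l : Fin k → ℝ) (c : ℝ), (∀ i, 0 ≤ l i) →
    ∑ i, l i = 1 → (∀ i, (N : ℤ) ∣ x i) →
    ((∀ d : ℤ, (N : ℤ) ∣ d → ph g x l d ≤ c) → S N ≤ c) ∧
    ((∀ d : ℤ, (N : ℤ) ∣ d → c ≤ ph g x l d) → c ≤ S N)

theorem S_le (g : ℤ → ℝ) (S : ℕ → ℝ) (he : ∀ n, g (-n) = g n)
    (hp : ∀ (k : ℕ) (x : Fin k → ℤ) (l : Fin k → ℝ), 0 ≤ ph g x l 0) (H : HH g S) (N : ℕ)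
    (hN : 1 ≤ N) (k : ℕ) (x : Fin k → ℤ) (l : Fin k → ℝ) (hl : ∀ i, 0 ≤ l i)
    (hs : ∑ i, l i = 1) (hx : ∀ i, (N : ℤ) ∣ x i) : S N ≤ ph g x l 0 :=
  (H N hN k x l _ hl hs hx).1 (fun d _ => ph_abs g he hp x l d)

theorem double (g : ℤ → ℝ) (he : ∀ n, g (-n) = g n) (k : ℕ) (x : Fin k → ℤ) (l : Fin k → ℝ)
    (d : ℤ) : ph g (Fin.append (fun i => x i + d) x)
      (Fin.append (fun i => l i / 2) (fun i => l i / 2)) 0 = (ph g x l 0 + ph g x l d) / 2 := by
  have h0 := BB_ve g (Fin.append (fun i => x i + d) x)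
      (Fin.append (fun i => l i / 2) (fun i => l i / 2)) 0 0
  rw [sub_zero] at h0
  rw [← h0]
  have h1 : ve (Fin.append (fun i => x i + d) x)
      (Fin.append (fun i => l i / 2) (fun i => l i / 2)) 0 =
      (1 / 2 : ℝ) • (ve x l d + ve x l 0) := by
    unfold ve
    rw [Fin.sum_univ_add]
    simp only [Fin.append_left, Fin.append_right, add_zero, smul_add, Finset.smul_sum,
      Finsupp.smul_single, smul_eq_mul]
    congr 1 <;>
    · refine Finset.sum_congr rfl ?_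
      intro i _
      congr 1
      ring
  rw [h1]
  have h2 := BB_symm g he (ve x l d) (ve x l 0)
  simp only [map_smul, map_add, LinearMap.smul_apply, LinearMap.add_apply, smul_eq_mul]
  rw [← h2, BB_ve, BB_ve, BB_ve]
  simp only [sub_self, sub_zero]
  ring

theorem le_S (g : ℤ → ℝ) (S : ℕ → ℝ) (he : ∀ n, g (-n) = g n) (H : HH g S) (N : ℕ)
    (hN : 1 ≤ N) (q : ℝ)
    (hq : ∀ (k : ℕ) (x : Fin k → ℤ) (l : Fin k → ℝ), (∀ i, 0 ≤ l i) → ∑ i, l i = 1 →
      (∀ i, (N : ℤ) ∣ x i) → q ≤ ph g x l 0) : q ≤ S N := by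
  set T : Set ℝ := {c | ∃ (k : ℕ) (x : Fin k → ℤ) (l : Fin k → ℝ), (∀ i, 0 ≤ l i) ∧
    ∑ i, l i = 1 ∧ (∀ i, (N : ℤ) ∣ x i) ∧ c = ph g x l 0} with hT
  have hne : T.Nonempty := by
    refine ⟨_, 1, fun _ => 0, fun _ => 1, ?_, ?_, ?_, rfl⟩
    · intro i; norm_num
    · simp
    · intro i; exact dvd_zero _
  have hbd : BddBelow T := by
    refine ⟨q, ?_⟩
    rintro c ⟨k, x, l, h1, h2, h3, rfl⟩
    exact hq k x l h1 h2 h3
  have h1 : q ≤ sInf T := by
    refine le_csInf hne ?_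
    rintro c ⟨k, x, l, h1, h2, h3, rfl⟩
    exact hq k x l h1 h2 h3
  have h2 : ∀ c ∈ T, 2 * sInf T - c ≤ S N := by
    rintro c ⟨k, x, l, h1, h2, h3, rfl⟩
    refine (H N hN k x l _ h1 h2 h3).2 ?_
    intro d hd
    have h4 : (ph g x l 0 + ph g x l d) / 2 ∈ T := by
      refine ⟨k + k, _, _, ?_, ?_, ?_, (double g he k x l d).symm⟩
      · intro i
        refine Fin.addCases (fun j => ?_) (fun j => ?_) i
        · rw [Fin.append_left]; have := h1 j; positivity
        · rw [Fin.append_right]; have := h1 j; positivity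
      · rw [Fin.sum_univ_add]
        simp only [Fin.append_left, Fin.append_right]
        rw [← Finset.sum_div, h2]
        norm_num
      · intro i
        refine Fin.addCases (fun j => ?_) (fun j => ?_) i
        · rw [Fin.append_left]; exact dvd_add (h3 j) hd
        · rw [Fin.append_right]; exact h3 j
    have h5 := csInf_le hbd h4
    linarith
  have h3 : 2 * sInf T - S N ≤ sInf T := by
    refine le_csInf hne ?_
    intro c hc
    have := h2 c hc
    linarith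
  linarith

/-! ### limits along the ultrafilter -/

theorem ev_const {β : Type*} (U : Ultrafilter ℕ+) (f : ℕ+ → β) (hf : (Set.range f).Finite) :
    ∃ c, ∀ᶠ m in U, f m = c := by
  have h1 : (⋃ c ∈ Set.range f, {m | f m = c}) ∈ U := by
    have : (⋃ c ∈ Set.range f, {m | f m = c}) = Set.univ := by
      ext m
      simp
    rw [this]
    exact Filter.univ_mem
  obtain ⟨c, -, hc⟩ := (Ultrafilter.finite_biUnion_mem_iff hf).1 h1
  exact ⟨c, hc⟩

theorem ev_dvd (U : Ultrafilter ℕ+)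
    (hU : ∀ p : ℕ+ → Prop, (∀ᶠ m in U, p m) → ∀ᶠ m in U, ∀ᶠ m' in U, p (m + m')) (N : ℕ)
    (hN : 1 ≤ N) : ∀ᶠ m : ℕ+ in (U : Filter ℕ+), (N : ℤ) ∣ ((m : ℕ) : ℤ) := by
  have : NeZero N := ⟨by omega⟩
  obtain ⟨c, hc⟩ := ev_const U (fun m => ((m : ℕ) : ZMod N)) (Set.toFinite _)
  have h1 := hU _ hc
  obtain ⟨m, hm1, hm2⟩ := (hc.and h1).exists
  obtain ⟨m', hm3, hm4⟩ := (hc.and hm2).exists
  have hc0 : c = 0 := by
    have h2 : ((m + m' : ℕ+) : ℕ) = (m : ℕ) + (m' : ℕ) := PNat.add_coe m m'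
    rw [h2] at hm4
    push_cast at hm4
    rw [hm1, hm3] at hm4
    exact left_eq_add.1 hm4.symm
  filter_upwards [hc] with a ha
  rw [hc0] at ha
  rw [← ZMod.intCast_zmod_eq_zero_iff_dvd]
  exact_mod_cast ha

theorem ip2 (U : Ultrafilter ℕ+)
    (hU : ∀ p : ℕ+ → Prop, (∀ᶠ m in U, p m) → ∀ᶠ m in U, ∀ᶠ m' in U, p (m + m'))
    (hF : ∀ A : Set ℕ+, A ∈ U → ∃ a : Stream' ℕ+, Hindman.FS a ⊆ A) (N : ℕ) (hN : 1 ≤ N)
    (p : ℕ+ → Prop) (hp : ∀ᶠ m in U, p m) :
    ∃ t : ℕ → ℤ, (∀ i, (N : ℤ) ∣ t i) ∧ ∀ i j, i < j → ∃ m : ℕ+, p m ∧ ((m : ℕ) : ℤ) = t j - t i := by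
  obtain ⟨a, ha⟩ := hF {m | p m ∧ (N : ℤ) ∣ ((m : ℕ) : ℤ)} (hp.and (ev_dvd U hU N hN))
  obtain ⟨t, ht0, ht⟩ := ip a
  refine ⟨t, ?_, ?_⟩
  · intro i
    rcases Nat.eq_zero_or_pos i with h | h
    · rw [h, ht0]
      exact dvd_zero _
    · obtain ⟨m, hm, hm2⟩ := ht 0 i h
      have := (ha hm).2
      rw [hm2, ht0, sub_zero] at this
      exact this
  · intro i j hij
    obtain ⟨m, hm, hm2⟩ := ht i j hij
    exact ⟨m, (ha hm).1, hm2⟩

/-! ### sums of two values -/

theorem two_val (K : ℕ) (f : ℕ → ℕ → ℝ) (p q : ℝ) (h1 : ∀ i < K, f i i = p)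
    (h2 : ∀ i < K, ∀ j < K, i ≠ j → f i j = q) :
    ∑ i ∈ Finset.range K, ∑ j ∈ Finset.range K, f i j = K * p + K * (K - 1) * q := by
  have h3 : ∀ i ∈ Finset.range K, ∑ j ∈ Finset.range K, f i j = K * q + (p - q) := by
    intro i hi
    have h4 : ∀ j ∈ Finset.range K, f i j = q + (if i = j then (p - q) else 0) := by
      intro j hj
      by_cases h : i = j
      · rw [if_pos h, ← h, h1 i (Finset.mem_range.1 hi)]
        ring
      · rw [if_neg h, h2 i (Finset.mem_range.1 hi) j (Finset.mem_range.1 hj) h]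
        ring
    rw [Finset.sum_congr rfl h4, Finset.sum_add_distrib, Finset.sum_ite_eq, if_pos hi]
    simp
  rw [Finset.sum_congr rfl h3]
  simp only [Finset.sum_const, Finset.card_range, nsmul_eq_mul]
  ring

/-- the sum of the points of a sequence -/
noncomputable def Wf (K : ℕ) (a : ℕ → ℤ) : ℤ →₀ ℝ := ∑ i ∈ Finset.range K, Finsupp.single (a i) 1

theorem BB_Wf (g : ℤ → ℝ) (K : ℕ) (a b : ℕ → ℤ) :
    BB g (Wf K a) (Wf K b) = ∑ i ∈ Finset.range K, ∑ j ∈ Finset.range K, g (a i - b j) := by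
  unfold Wf
  simp only [map_sum, LinearMap.sum_apply, BB_single]
  rw [Finset.sum_comm]
  simp

theorem BB_Wf_const (g : ℤ → ℝ) (K : ℕ) (a b : ℕ → ℤ) (c : ℝ)
    (h : ∀ i < K, ∀ j < K, g (a i - b j) = c) : BB g (Wf K a) (Wf K b) = K * K * c := by
  rw [BB_Wf]
  have : ∀ i ∈ Finset.range K, ∑ j ∈ Finset.range K, g (a i - b j) = K * c := by
    intro i hi
    rw [Finset.sum_congr rfl (fun j hj => h i (Finset.mem_range.1 hi) j (Finset.mem_range.1 hj))]
    simp
  rw [Finset.sum_congr rfl this]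
  simp only [Finset.sum_const, Finset.card_range, nsmul_eq_mul]
  ring

theorem BB_Wf_self (g : ℤ → ℝ) (K : ℕ) (a : ℕ → ℤ) (c : ℝ) (he : ∀ n, g (-n) = g n)
    (h : ∀ i j, i < j → g (a j - a i) = c) :
    BB g (Wf K a) (Wf K a) = K * g 0 + K * (K - 1) * c := by
  rw [BB_Wf]
  apply two_val
  · intro i _
    rw [sub_self]
  · intro i _ j _ hij
    rcases lt_or_gt_of_ne hij with h1 | h1
    · rw [← h i j h1, ← he]
      congr 1
      ring
    · exact h j i h1

theorem arch {x C : ℝ} (h : ∀ M : ℕ, 1 ≤ M → M * x ≤ C) : x ≤ 0 := by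
  by_contra hx
  push Not at hx
  obtain ⟨M, hM⟩ := exists_nat_gt (C / x)
  have h1 := h (M + 1) (by omega)
  rw [div_lt_iff₀ hx] at hM
  push_cast at h1
  linarith

/-! ### the limit function -/

theorem q_le (g : ℤ → ℝ) (he : ∀ n, g (-n) = g n)
    (hp : ∀ (k : ℕ) (x : Fin k → ℤ) (l : Fin k → ℝ), 0 ≤ ph g x l 0) (n : ℤ) : g n ≤ g 0 := by
  have h := BB_pos g hp (Finsupp.single n 1 - Finsupp.single 0 1)
  simp only [map_sub, LinearMap.sub_apply, BB_single] at h
  rw [sub_self, sub_zero, zero_sub, he, sub_self] at h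
  linarith

theorem q_le_neg (g : ℤ → ℝ) (he : ∀ n, g (-n) = g n)
    (hp : ∀ (k : ℕ) (x : Fin k → ℤ) (l : Fin k → ℝ), 0 ≤ ph g x l 0) (U : Ultrafilter ℕ+)
    (hU : ∀ p : ℕ+ → Prop, (∀ᶠ m in U, p m) → ∀ᶠ m in U, ∀ᶠ m' in U, p (m + m'))
    (hF : ∀ A : Set ℕ+, A ∈ U → ∃ a : Stream' ℕ+, Hindman.FS a ⊆ A) (q : ℤ → ℝ)
    (hq : ∀ s : ℤ, ∀ᶠ m : ℕ+ in (U : Filter ℕ+), g (s + ((m : ℕ) : ℤ)) = q s) (s : ℤ) :
    q s ≤ q (-s) := by
  obtain ⟨t, -, ht⟩ := ip2 U hU hF 1 le_rfl _ ((hq 0).and ((hq s).and (hq (-s))))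
  have hq0 : q 0 ≤ g 0 := by
    obtain ⟨m, hm⟩ := (hq 0).exists
    rw [← hm]
    exact q_le g he hp _
  have key : q s - q (-s) ≤ 0 := by
    refine arch (C := 3 * g 0 - 2 * q 0) ?_
    intro M hM
    have hM0 : (0 : ℝ) < M := by exact_mod_cast hM
    set K : ℕ := M * M with hK
    have hd1 : ∀ i j, i < j → g (t j - t i) = q 0 := by
      intro i j hij
      obtain ⟨m, hm, hm2⟩ := ht i j hij
      rw [← hm2, ← hm.1, zero_add]
    have hds : ∀ i j, i < j → g (s + t j - t i) = q s := by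
      intro i j hij
      obtain ⟨m, hm, hm2⟩ := ht i j hij
      rw [← hm.2.1, hm2]
      congr 1
      ring
    have hdm : ∀ i j, i < j → g (s + t i - t j) = q (-s) := by
      intro i j hij
      obtain ⟨m, hm, hm2⟩ := ht i j hij
      rw [← hm.2.2, hm2, ← he]
      congr 1
      ring
    set w1 := Wf K t
    set w2 := Wf K (fun i => t (K + i))
    set u1 := Wf K (fun i => s + t i)
    set u2 := Wf K (fun i => s + t (K + i))
    set n : ℝ := K * g 0 + K * (K - 1) * q 0 with hn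
    have e11 : BB g w1 w1 = n := BB_Wf_self g K _ _ he hd1
    have e22 : BB g w2 w2 = n := BB_Wf_self g K _ _ he (fun i j hij => hd1 _ _ (by omega))
    have f11 : BB g u1 u1 = n := BB_Wf_self g K _ _ he (fun i j hij => by
      rw [← hd1 i j hij]
      congr 1
      ring)
    have f22 : BB g u2 u2 = n := BB_Wf_self g K _ _ he (fun i j hij => by
      rw [← hd1 (K + i) (K + j) (by omega)]
      congr 1
      ring)
    have e21 : BB g w2 w1 = K * K * q 0 :=
      BB_Wf_const g K _ _ _ (fun i _ j hj => hd1 _ _ (by omega))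
    have f21 : BB g u2 u1 = K * K * q 0 := BB_Wf_const g K _ _ _ (fun i _ j hj => by
      rw [← hd1 j (K + i) (by omega)]
      congr 1
      ring)
    have h21 : BB g u2 w1 = K * K * q s :=
      BB_Wf_const g K _ _ _ (fun i _ j hj => hds _ _ (by omega))
    have h12 : BB g u1 w2 = K * K * q (-s) :=
      BB_Wf_const g K _ _ _ (fun i hi j _ => hdm _ _ (by omega))
    set α := BB g u2 w2 with hα
    have p1 := BB_pos g hp ((1 / M : ℝ) • u2 - (w1 - w2))
    have p2 := BB_pos g hp ((1 / M : ℝ) • w2 - (u2 - u1))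
    have c1 : BB g w1 u2 = BB g u2 w1 := BB_symm g he _ _
    have c2 : BB g w2 u2 = BB g u2 w2 := BB_symm g he _ _
    have c3 : BB g w1 w2 = BB g w2 w1 := BB_symm g he _ _
    have c4 : BB g w2 u1 = BB g u1 w2 := BB_symm g he _ _
    have c5 : BB g u1 u2 = BB g u2 u1 := BB_symm g he _ _
    simp only [map_smul, map_sub, LinearMap.smul_apply, LinearMap.sub_apply, smul_eq_mul] at p1 p2
    rw [f22, c1, h21, c2, ← hα, e11, c3, e21, e22] at p1
    rw [e22, c2, ← hα, c4, h12, f22, c5, f21, f11] at p2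
    have hKM : (K : ℝ) = M * M := by rw [hK]; push_cast; ring
    have hb1 : 0 ≤ 2 * ((1 / M : ℝ) * (1 / M : ℝ) * n) -
        2 * ((1 / M : ℝ) * (K * K * (q s - q (-s)))) + 2 * (2 * n - 2 * (K * K * q 0)) := by
      refine (add_nonneg p1 p2).trans (le_of_eq ?_)
      ring
    have hb2 : (1 / M : ℝ) * (1 / M : ℝ) * n = g 0 + (M * M - 1) * q 0 := by
      rw [hn, hKM]
      field_simp
    have hb3 : (1 / M : ℝ) * (K * K * (q s - q (-s))) = M * M * (M * (q s - q (-s))) := by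
      rw [hKM]
      field_simp
    have hb4 : 2 * n - 2 * (K * K * q 0) = 2 * (M * M) * (g 0 - q 0) := by
      rw [hn, hKM]
      ring
    rw [hb2, hb3, hb4] at hb1
    have hM1 : (1 : ℝ) ≤ M := by exact_mod_cast hM
    have hMM : (1 : ℝ) ≤ M * M := by nlinarith [hM1]
    have hb5 : g 0 + (M * M - 1) * q 0 ≤ M * M * g 0 := by
      nlinarith [mul_nonneg (sub_nonneg.2 hMM) (sub_nonneg.2 hq0)]
    have hb6 : M * M * (M * (q s - q (-s))) ≤ M * M * (3 * g 0 - 2 * q 0) := by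
      linarith
    exact le_of_mul_le_mul_left hb6 (by positivity)
  linarith

/-- translation -/
noncomputable def Tr (d : ℤ) : (ℤ →₀ ℝ) →ₗ[ℝ] (ℤ →₀ ℝ) := Finsupp.lmapDomain ℝ ℝ (fun z => z + d)

theorem BB_Tr (g : ℤ → ℝ) (a b : ℤ) (u v : ℤ →₀ ℝ) :
    BB g (Tr a u) (Tr b v) = BB (fun z => g (z + (a - b))) u v := by
  have : (BB g).compl₁₂ (Tr a) (Tr b) = BB (fun z => g (z + (a - b))) := by
    ext x y
    simp only [LinearMap.coe_comp, Function.comp_apply, Finsupp.lsingle_apply,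
      LinearMap.compl₁₂_apply, Tr, Finsupp.lmapDomain_apply, Finsupp.mapDomain_single]
    rw [BB_single, BB_single]
    congr 2
    ring
  rw [← this]
  rfl

theorem BBq_pos (g : ℤ → ℝ) (he : ∀ n, g (-n) = g n)
    (hp : ∀ (k : ℕ) (x : Fin k → ℤ) (l : Fin k → ℝ), 0 ≤ ph g x l 0) (U : Ultrafilter ℕ+)
    (hU : ∀ p : ℕ+ → Prop, (∀ᶠ m in U, p m) → ∀ᶠ m in U, ∀ᶠ m' in U, p (m + m'))
    (hF : ∀ A : Set ℕ+, A ∈ U → ∃ a : Stream' ℕ+, Hindman.FS a ⊆ A) (q : ℤ → ℝ)
    (hq : ∀ s : ℤ, ∀ᶠ m : ℕ+ in (U : Filter ℕ+), g (s + ((m : ℕ) : ℤ)) = q s) (v : ℤ →₀ ℝ) :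
    0 ≤ BB q v v := by
  have hA : ∀ᶠ m : ℕ+ in (U : Filter ℕ+), ∀ x ∈ v.support, ∀ y ∈ v.support,
      g ((x - y) + ((m : ℕ) : ℤ)) = q (x - y) := by
    rw [Filter.eventually_all_finset]
    intro x _
    rw [Filter.eventually_all_finset]
    intro y _
    exact hq _
  obtain ⟨t, -, ht⟩ := ip2 U hU hF 1 le_rfl _ hA
  have h1 : ∀ i j, i < j → BB g (Tr (t j) v) (Tr (t i) v) = BB q v v := by
    intro i j hij
    obtain ⟨m, hm, hm2⟩ := ht i j hij
    rw [BB_Tr, BB_sum, BB_sum, ← hm2]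
    refine Finset.sum_congr rfl ?_
    intro x hx
    refine Finset.sum_congr rfl ?_
    intro y hy
    rw [hm x hx y hy]
  have h0 : ∀ i, BB g (Tr (t i) v) (Tr (t i) v) = BB g v v := by
    intro i
    rw [BB_Tr, BB_sum, BB_sum, sub_self]
    simp only [add_zero]
  have h2 : ∀ M : ℕ, 1 ≤ M → M * (-BB q v v) ≤ BB g v v := by
    intro M hM
    have h3 := BB_pos g hp (∑ i ∈ Finset.range (M + 1), Tr (t i) v)
    simp only [map_sum, LinearMap.sum_apply] at h3
    rw [two_val (M + 1) (fun x y => BB g (Tr (t y) v) (Tr (t x) v)) (BB g v v) (BB q v v)] at h3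
    · push_cast at h3
      have hM0 : (0 : ℝ) < M + 1 := by positivity
      have h4 : 0 ≤ (M + 1 : ℝ) * (BB g v v + M * BB q v v) := by
        refine h3.trans (le_of_eq ?_)
        ring
      have h5 := nonneg_of_mul_nonneg_right h4 hM0
      linarith
    · intro i _
      exact h0 i
    · intro i _ j _ hij
      rcases lt_or_gt_of_ne hij with h5 | h5
      · exact h1 i j h5
      · show BB g (Tr (t j) v) (Tr (t i) v) = _
        rw [BB_symm g he]
        exact h1 j i h5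
  have := arch h2
  linarith

theorem quad_zero {a b : ℝ} (h : ∀ τ : ℝ, 0 ≤ a * τ ^ 2 + 2 * b * τ) : b = 0 := by
  have h1 := h 1
  have ha : 0 ≤ a + 2 * b := by linarith
  by_contra hb
  have hpos : 0 < b ^ 2 := by positivity
  have h2 : (0 : ℝ) < |a| + 1 := by positivity
  have h3 := h (-b / (|a| + 1))
  have h4 : a * (-b / (|a| + 1)) ^ 2 + 2 * b * (-b / (|a| + 1)) =
      b ^ 2 * (a - 2 * (|a| + 1)) / (|a| + 1) ^ 2 := by
    field_simp
    ring
  rw [h4] at h3
  have h5 : a - 2 * (|a| + 1) < 0 := by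
    have := le_abs_self a
    have := abs_nonneg a
    linarith
  have h6 : b ^ 2 * (a - 2 * (|a| + 1)) / (|a| + 1) ^ 2 < 0 := by
    apply div_neg_of_neg_of_pos
    · exact mul_neg_of_pos_of_neg hpos h5
    · positivity
  linarith

theorem per (q : ℤ → ℝ) (he : ∀ n, q (-n) = q n) (hp : ∀ v, 0 ≤ BB q v v) (d : ℤ)
    (hd : q d = q 0) (x : ℤ) : q (d + x) = q x := by
  have h : q (d + x) - q x = 0 := by
    refine quad_zero (a := q 0) ?_
    intro τ
    have h1 := hp (Finsupp.single d 1 - Finsupp.single 0 1 + Finsupp.single (-x) τ)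
    simp only [map_add, map_sub, LinearMap.add_apply, LinearMap.sub_apply, BB_single] at h1
    have e1 : d - -x = d + x := by ring
    have e2 : -x - d = -(d + x) := by ring
    have e3 : (0 : ℤ) - -x = x := by ring
    have e4 : -x - 0 = -x := by ring
    have e5 : -x - -x = 0 := by ring
    rw [sub_self, sub_self, sub_zero, zero_sub, e1, e2, e3, e4, e5, he, he, he, hd] at h1
    refine h1.trans (le_of_eq ?_)
    ring
  linarith

theorem per_mul (q : ℤ → ℝ) (he : ∀ n, q (-n) = q n) (hp : ∀ v, 0 ≤ BB q v v) (d : ℤ)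
    (hd : q d = q 0) (n : ℤ) (hn : d ∣ n) : q n = q 0 := by
  obtain ⟨c, rfl⟩ := hn
  induction c using Int.induction_on with
  | zero => rw [mul_zero]
  | succ c ih =>
    rw [mul_add, mul_one, add_comm, per q he hp d hd, ih]
  | pred c ih =>
    have h1 := per q he hp d hd (d * (-c - 1))
    rw [← h1]
    rw [← ih]
    congr 1
    ring

theorem main : S_PD := by
  intro g S hfin he hp H hS
  have HHh : HH g S := H
  obtain ⟨U, hU, hF⟩ := exists_U
  have hex : ∀ s : ℤ, ∃ c, ∀ᶠ m : ℕ+ in (U : Filter ℕ+), g (s + ((m : ℕ) : ℤ)) = c := by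
    intro s
    refine ev_const U (fun m => g (s + ((m : ℕ) : ℤ))) (hfin.subset ?_)
    rintro _ ⟨m, rfl⟩
    exact ⟨_, rfl⟩
  choose q hq using hex
  have hqe : ∀ n, q (-n) = q n := by
    intro n
    have h1 := q_le_neg g he hp U hU hF q hq n
    have h2 := q_le_neg g he hp U hU hF q hq (-n)
    rw [neg_neg] at h2
    exact le_antisymm h2 h1
  have hqp := BBq_pos g he hp U hU hF q hq
  -- a point with value `q 0`
  obtain ⟨d, hd⟩ : ∃ d : ℕ+, q ((d : ℕ) : ℤ) = q 0 := by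
    have h1 := hU _ (hq 0)
    obtain ⟨d, hd⟩ := h1.exists
    refine ⟨d, ?_⟩
    obtain ⟨m, hm1, hm2⟩ := (hd.and (hq ((d : ℕ) : ℤ))).exists
    rw [← hm2, ← hm1, zero_add, PNat.add_coe]
    push_cast
    rfl
  have hqd : ∀ n : ℤ, ((d : ℕ) : ℤ) ∣ n → q n = q 0 := per_mul q hqe hqp _ hd
  -- upper bound
  have hup : ∀ N : ℕ, 1 ≤ N → S N ≤ q 0 := by
    intro N hN
    obtain ⟨t, ht1, ht2⟩ := ip2 U hU hF N hN _ (hq 0)
    have h1 : S N - q 0 ≤ 0 := by
      refine arch (C := g 0 - q 0) ?_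
      intro M hM
      have hM0 : (0 : ℝ) < M := by exact_mod_cast hM
      have h2 := S_le g S he hp HHh N hN M (fun i => t i) (fun _ => 1 / M)
        (fun i => by positivity) (by
          rw [Finset.sum_const, Finset.card_univ, Fintype.card_fin, nsmul_eq_mul]
          field_simp) (fun i => ht1 i)
      have h3 : ph g (fun i : Fin M => t i) (fun _ => (1 / M : ℝ)) 0 =
          (1 / M : ℝ) * (1 / M : ℝ) * (M * g 0 + M * (M - 1) * q 0) := by
        rw [← BB_Wf_self g M t (q 0) he, BB_Wf]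
        · unfold ph
          rw [← Fin.sum_univ_eq_sum_range
            (fun i => ∑ j ∈ Finset.range M, g (t i - t j)) M, Finset.mul_sum]
          refine Finset.sum_congr rfl ?_
          intro i _
          rw [← Fin.sum_univ_eq_sum_range (fun j => g (t i - t j)) M, Finset.mul_sum]
          refine Finset.sum_congr rfl ?_
          intro j _
          rw [zero_add]
        · intro i j hij
          obtain ⟨m, hm, hm2⟩ := ht2 i j hij
          rw [← hm2, ← hm, zero_add]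
      rw [h3] at h2
      have h4 : (1 / M : ℝ) * (1 / M : ℝ) * (M * g 0 + M * (M - 1) * q 0) =
          (g 0 - q 0) / M + q 0 := by
        field_simp
        ring
      rw [h4] at h2
      have h5 : S N - q 0 ≤ (g 0 - q 0) / M := by linarith
      rw [le_div_iff₀ hM0] at h5
      linarith
    linarith
  -- lower bound
  have hlow : q 0 ≤ S (d : ℕ) := by
    refine le_S g S he HHh _ d.pos _ ?_
    intro k x l hl hs hx
    have hA : ∀ᶠ m : ℕ+ in (U : Filter ℕ+), ∀ i j : Fin k,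
        g ((x i - x j) + ((m : ℕ) : ℤ)) = q (x i - x j) := by
      rw [Filter.eventually_all]
      intro i
      rw [Filter.eventually_all]
      intro j
      exact hq _
    obtain ⟨m, hm⟩ := hA.exists
    refine le_trans (le_of_eq ?_) (ph_abs g he hp x l ((m : ℕ) : ℤ))
    unfold ph
    have h1 : ∀ i j : Fin k, g (((m : ℕ) : ℤ) + x i - x j) = q 0 := by
      intro i j
      rw [← hqd (x i - x j) (dvd_sub (hx i) (hx j)), ← hm i j]
      congr 1
      ring
    simp only [h1]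
    have h2 : ∀ i : Fin k, ∑ j : Fin k, l i * l j * q 0 = l i * q 0 := by
      intro i
      rw [← Finset.sum_mul, ← Finset.mul_sum, hs, mul_one]
    simp only [h2]
    rw [← Finset.sum_mul, hs, one_mul]
  obtain ⟨N', hN', hlt⟩ := hS (d : ℕ) d.pos
  have := hup N' hN'
  linarith

end Pool.Agent.N633.SQ.Pd
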