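import Pool.Agent.N633.SQ.Defs

/-!
Project SQ (helper633), problem MP_c6a6a6_lc: statements of the parts.
-/

set_option autoImplicit false

open FirstOrder

namespace Pool.Agent.N633.SQ

universe u

/-! ### positive definite functions on the integers -/

/-- `⟨U^d v, v⟩` for the combination `v = ∑ l_i U^(x_i) ξ` -/
noncomputable def ph (g : ℤ → ℝ) {k : ℕ} (x : Fin k → ℤ) (l : Fin k → ℝ) (d : ℤ) : ℝ :=
  ∑ i, ∑ j, l i * l j * g (d + x i - x j)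

/-- PD: a positive definite function with finitely many values whose means over the subgroups
`N ℤ` (in the strong sense: bounded by the bounds of all convex combinations) are a function `S`
which has no upper bound in its range -/
def S_PD : Prop := ∀ (g : ℤ → ℝ) (S : ℕ → ℝ), (Set.range g).Finite → (∀ n, g (-n) = g n) →
  (∀ (k : ℕ) (x : Fin k → ℤ) (l : Fin k → ℝ), 0 ≤ ph g x l 0) →
  (∀ N : ℕ, 1 ≤ N → ∀ (k : ℕ) (x : Fin k → ℤ) (l : Fin k → ℝ) (c : ℝ), (∀ i, 0 ≤ l i) →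
    ∑ i, l i = 1 → (∀ i, (N : ℤ) ∣ x i) →
    ((∀ d : ℤ, (N : ℤ) ∣ d → ph g x l d ≤ c) → S N ≤ c) ∧
    ((∀ d : ℤ, (N : ℤ) ∣ d → c ≤ ph g x l d) → c ≤ S N)) →
  (∀ N : ℕ, 1 ≤ N → ∃ N' : ℕ, 1 ≤ N' ∧ S N < S N') → False

/-- SV: common squarefree translates -/
def S_SV : Prop := ∀ k : ℕ, ∃ Q : ℕ, 1 ≤ Q ∧ ∀ d : Fin k → ℤ, (∀ i, (Q : ℤ) ∣ d i) →
  ∃ x : ℤ, SqfM 1 x ∧ ∀ i, SqfM 1 (x + d i)

/-- multiples of `N` -/
def mul (M : Type u) [AddCommGroup M] (N : ℕ) : Set M := {x | ∃ y, x = N • y}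

/-- the class of `r` modulo `N` -/
def cls {M : Type u} [AddCommGroup M] (one : M) (r N : ℕ) : Set M := {x | ∃ y, x = r • one + N • y}

/-- `P ∩ (P - d)` -/
def pp {M : Type u} [AddCommGroup M] (P : Set M) (d : M) : Set M := {x | x ∈ P ∧ x + d ∈ P}

/-- FA: the elementary data which an MS-measure would give are contradictory -/
def S_FA : Prop := ∀ (M : Type u) [AddCommGroup M] (one : M) (D : Set (Set M)) (m : Set M → ℝ)
  (P : Set M), Set.univ ∈ D → (∀ A ∈ D, Aᶜ ∈ D) → (∀ A ∈ D, ∀ B ∈ D, A ∩ B ∈ D) →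
  (∀ A ∈ D, ∀ t : M, {x | x + t ∈ A} ∈ D ∧ m {x | x + t ∈ A} = m A) →
  (∀ A ∈ D, 0 ≤ m A) → m Set.univ = 1 →
  (∀ A ∈ D, ∀ B ∈ D, Disjoint A B → m (A ∪ B) = m A + m B) →
  P ∈ D → 0 < m P → (∀ N : ℕ, 1 ≤ N → mul M N ∈ D) →
  (∀ N : ℕ, 1 ≤ N → ∀ x : M, ∃ r < N, x ∈ cls one r N) →
  (∀ N : ℕ, 1 ≤ N → ∀ r < N, ∀ s < N, r • one ∈ cls one s N → r = s) →
  (∀ p : ℕ, p.Prime → ∀ y : M, (p ^ 2) • y ∉ P) →
  ∀ V : Finset ℝ, (∀ d, m (pp P d) ∈ V) → (∀ v, {d | m (pp P d) = v} ∈ D) →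
  (∀ N : ℕ, 1 ≤ N → ∑ v ∈ V, v * m ({d | m (pp P d) = v} ∩ mul M N) =
    ∑ r ∈ Finset.range N, m (P ∩ cls one r N) ^ 2) →
  (∀ N : ℕ, 1 ≤ N → ∀ (k : ℕ) (s : Fin k → ℤ) (y : M), ∃ n : ℤ, ∀ i,
    m (pp P ((N * n) • one + s i • one)) = m (pp P (N • y + s i • one))) → False

/-! ### general MS-measures -/

/-- coefficient of dimension `a` -/
noncomputable def coef (a : ℕ) (v : ℕ × ℝ) : ℝ := if v.1 = a then v.2 else 0

/-- leading term of a sum of two terms -/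
noncomputable def ladd (v w : ℕ × ℝ) : ℕ × ℝ :=
  if v.1 < w.1 then w else if w.1 < v.1 then v else (v.1, v.2 + w.2)

/-- MS1: additivity, definable bijections, two forms of the theorem of Fubini -/
def S_MS1 : Prop := ∀ (Λ : FirstOrder.Language.{0, 0}) (M : Type u) [Λ.Structure M]
  [Nontrivial M] (μ : MSMeasure Λ M),
  (∀ (n : ℕ) (X : Set (Fin n → M)), 1 ≤ n → Dfn Λ X → X.Nonempty → 0 < (μ.h n X).2) ∧
  (∀ (n : ℕ) (X Y : Set (Fin n → M)), 1 ≤ n → Dfn Λ X → Dfn Λ Y → Disjoint X Y →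
    μ.h n (X ∪ Y) = ladd (μ.h n X) (μ.h n Y)) ∧
  (∀ (n k : ℕ) (X : Set (Fin n → M)) (Y : Set (Fin k → M)) (f : (Fin n → M) → (Fin k → M)),
    1 ≤ n → 1 ≤ k → DSurj Λ X Y f → Set.InjOn f X → μ.h n X = μ.h k Y) ∧
  (∀ (n k : ℕ) (X : Set (Fin n → M)) (Y : Set (Fin k → M)) (f : (Fin n → M) → (Fin k → M)),
    1 ≤ n → 1 ≤ k → DSurj Λ X Y f → ∀ a b : ℕ,
    (∀ y ∈ Y, (μ.h n {x | x ∈ X ∧ f x = y}).1 ≤ a) → (μ.h k Y).1 ≤ b → (μ.h n X).1 ≤ a + b ∧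
    ∃ V₀ : Finset ℝ, (∀ y ∈ Y, coef a (μ.h n {x | x ∈ X ∧ f x = y}) ∈ V₀) ∧
    (∀ v, Dfn Λ {y | y ∈ Y ∧ coef a (μ.h n {x | x ∈ X ∧ f x = y}) = v}) ∧
    ∀ V : Finset ℝ, V₀ ⊆ V → coef (a + b) (μ.h n X) =
      ∑ v ∈ V, v * coef b (μ.h k {y | y ∈ Y ∧ coef a (μ.h n {x | x ∈ X ∧ f x = y}) = v})) ∧
  (∀ (n k : ℕ) (X : Set (Fin n → M)) (Y : Set (Fin k → M)) (f : (Fin n → M) → (Fin k → M)),
    1 ≤ n → 1 ≤ k → DSurj Λ X Y f → Y.Nonempty → ∀ a : ℕ,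
    (∀ y ∈ Y, a ≤ (μ.h n {x | x ∈ X ∧ f x = y}).1) → a + (μ.h k Y).1 ≤ (μ.h n X).1)

/-! ### MS-measures on definable groups: subsets of the line -/

/-- a subset of `M` as a set of 1-tuples -/
def up {M : Type u} (A : Set M) : Set (Fin 1 → M) := {z | z 0 ∈ A}

/-- parameter-definable subsets of `M` -/
def DS (Λ : FirstOrder.Language.{0, 0}) {M : Type u} [Λ.Structure M] (A : Set M) : Prop :=
  Dfn Λ (up A)

/-- `∅`-definable subsets of `M` -/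
def DS0 (Λ : FirstOrder.Language.{0, 0}) {M : Type u} [Λ.Structure M] (A : Set M) : Prop :=
  (∅ : Set M).Definable Λ (up A)

/-- dimension and measure of a subset of `M` -/
def hh {Λ : FirstOrder.Language.{0, 0}} {M : Type u} [Λ.Structure M] (μ : MSMeasure Λ M)
    (A : Set M) : ℕ × ℝ := μ.h 1 (up A)

/-- the addition is definable without parameters -/
def AddDef (Λ : FirstOrder.Language.{0, 0}) (M : Type u) [Λ.Structure M] [AddCommGroup M] : Prop :=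
  (∅ : Set M).Definable Λ {z : Fin 3 → M | z 2 = z 0 + z 1}

/-- `{x ∈ X | x + d ∈ P}` -/
def sh {M : Type u} [AddCommGroup M] (X P : Set M) (d : M) : Set M := {x | x ∈ X ∧ x + d ∈ P}

/-- `{y ∈ P | y - x ∈ G}` -/
def co {M : Type u} [AddCommGroup M] (P G : Set M) (x : M) : Set M := {y | y ∈ P ∧ y - x ∈ G}

/-- MS2: translations, double counting of the pairs in `X × P` whose difference is in a definable
subgroup `G`, and a bound for the dimension of `P` -/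
def S_MS2 : Prop := ∀ (Λ : FirstOrder.Language.{0, 0}) (M : Type u) [Λ.Structure M]
  [AddCommGroup M] [Nontrivial M] (μ : MSMeasure Λ M), AddDef Λ M →
  (∀ (A : Set M) (t : M), DS Λ A → DS Λ {x | x + t ∈ A} ∧ hh μ {x | x + t ∈ A} = hh μ A) ∧
  (∀ (A : Set M), DS0 Λ A → ∀ v : ℕ × ℝ, DS0 Λ {d | hh μ (sh A A d) = v}) ∧
  (∀ (X P : Set M) (G : AddSubgroup M), DS Λ X → DS Λ P → DS Λ (G : Set M) →
    ∃ V₀ : Finset ℝ,
    (∀ x, coef (hh μ (Set.univ : Set M)).1 (hh μ (co P G x)) ∈ V₀) ∧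
    (∀ d, coef (hh μ (Set.univ : Set M)).1 (hh μ (sh X P d)) ∈ V₀) ∧
    (∀ v, DS Λ {x | coef (hh μ (Set.univ : Set M)).1 (hh μ (co P G x)) = v}) ∧
    (∀ v, DS Λ {d | coef (hh μ (Set.univ : Set M)).1 (hh μ (sh X P d)) = v}) ∧
    ∀ V : Finset ℝ, V₀ ⊆ V →
    ∑ v ∈ V, v * coef (hh μ (Set.univ : Set M)).1
        (hh μ {x | x ∈ X ∧ coef (hh μ (Set.univ : Set M)).1 (hh μ (co P G x)) = v}) =
      ∑ v ∈ V, v * coef (hh μ (Set.univ : Set M)).1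
        (hh μ {d | d ∈ G ∧ coef (hh μ (Set.univ : Set M)).1 (hh μ (sh X P d)) = v})) ∧
  (∀ (X P : Set M) (G : AddSubgroup M), DS Λ X → DS Λ P → DS Λ (G : Set M) →
    (hh μ (G : Set M)).1 = (hh μ (Set.univ : Set M)).1 →
    (∀ d ∈ G, (sh X P d).Nonempty ∧ (hh μ X).1 ≤ (hh μ (sh X P d)).1) →
    (hh μ (Set.univ : Set M)).1 ≤ (hh μ P).1)

/-- DIM: a definable set with common translates of every order has full dimension -/
def S_DIM : Prop := ∀ (Λ : FirstOrder.Language.{0, 0}) (M : Type u) [Λ.Structure M]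
  [AddCommGroup M] [Nontrivial M] (μ : MSMeasure Λ M), AddDef Λ M → ∀ P : Set M, DS Λ P →
  (∀ k : ℕ, ∃ G : AddSubgroup M, DS Λ (G : Set M) ∧
    (hh μ (G : Set M)).1 = (hh μ (Set.univ : Set M)).1 ∧
    ∀ d : Fin k → M, (∀ i, d i ∈ G) → ∃ x ∈ P, ∀ i, x + d i ∈ P) →
  (hh μ P).1 = (hh μ (Set.univ : Set M)).1

/-! ### models of the theory -/

/-- TR: the facts on models of the theory of the integers with the squarefree predicate which are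
used -/
def S_TR : Prop := ∀ (M : Type u) [L.Structure M], M ⊨ TSqf →
  ∃ (_ : AddCommGroup M) (one : M) (P : Set M), AddDef L M ∧ DS0 L P ∧ (∃ x y : M, x ≠ y) ∧
  (∀ n : ℤ, DS0 L ({n • one} : Set M)) ∧ (∀ N : ℕ, 1 ≤ N → DS0 L (mul M N)) ∧
  (∀ N : ℕ, 1 ≤ N → ∀ x : M, ∃ r < N, x ∈ cls one r N) ∧
  (∀ N : ℕ, 1 ≤ N → ∀ r < N, ∀ s < N, r • one ∈ cls one s N → r = s) ∧
  (∀ p : ℕ, p.Prime → ∀ y : M, (p ^ 2) • y ∉ P) ∧
  (∀ k : ℕ, ∃ Q : ℕ, 1 ≤ Q ∧ ∀ d : Fin k → M, (∀ i, d i ∈ mul M Q) →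
    ∃ x ∈ P, ∀ i, x + d i ∈ P) ∧
  (∀ A : Set M, DS0 L A → ∀ N : ℕ, 1 ≤ N → (∃ y : M, N • y ∈ A) →
    ∃ n : ℤ, (N * n) • one ∈ A)

/-- FIN: assembly -/
def S_FIN : Prop := S_FA.{u} → S_MS1.{u} → S_MS2.{u} → S_DIM.{u} → S_TR.{u} →
  ¬ MSMeasurable.{u} L TSqf

end Pool.Agent.N633.SQ
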