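import Pool.Agent.N633.SQ.Stm

/-!
Project SQ, task SV (helper966): common squarefree translates.
-/

set_option autoImplicit false

namespace Pool.Agent.N633.SQ.Sv

open Finset

/-- the number of `t < T` with `p ^ 2 ∣ a + Q t` -/
theorem count_le (Q p T : ℕ) (hp : 0 < p) (hQ : Nat.Coprime (p ^ 2) Q) (a : ℤ) :
    ((range T).filter (fun t : ℕ => (p : ℤ) ^ 2 ∣ a + Q * t)).card ≤ T / p ^ 2 + 1 := by
  have h : ((range T).filter (fun t : ℕ => (p : ℤ) ^ 2 ∣ a + Q * t)).card
      ≤ (range (T / p ^ 2 + 1)).card := by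
    refine card_le_card_of_injOn (fun t => t / p ^ 2) ?_ ?_
    · intro t ht
      simp only [coe_filter, mem_range, Set.mem_setOf_eq] at ht
      simp only [coe_range, Set.mem_Iio]
      exact Nat.lt_succ_of_le (Nat.div_le_div_right ht.1.le)
    · intro t ht t' ht' htt
      simp only [coe_filter, mem_range, Set.mem_setOf_eq] at ht ht'
      have h1 : (p : ℤ) ^ 2 ∣ (Q : ℤ) * ((t : ℤ) - t') := by
        have := dvd_sub ht.2 ht'.2
        have e : a + (Q : ℤ) * t - (a + Q * t') = (Q : ℤ) * ((t : ℤ) - t') := by ring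
        rwa [e] at this
      have hc : IsCoprime ((p : ℤ) ^ 2) (Q : ℤ) := by
        have := Nat.isCoprime_iff_coprime.2 hQ
        push_cast at this
        exact this
      have h2 : (p : ℤ) ^ 2 ∣ (t : ℤ) - t' := hc.dvd_of_dvd_mul_left h1
      have h3 : t ≡ t' [MOD p ^ 2] := by
        rw [Nat.modEq_iff_dvd]
        push_cast
        rw [← neg_sub, dvd_neg]
        exact h2
      have h4 := Nat.div_add_mod t (p ^ 2)
      have h5 := Nat.div_add_mod t' (p ^ 2)
      have h6 : t / p ^ 2 = t' / p ^ 2 := htt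
      unfold Nat.ModEq at h3
      rw [← h4, ← h5, h6, h3]
  simpa using h

theorem zero_le (Q T : ℕ) (hQ : 0 < Q) (a : ℤ) :
    ((range T).filter (fun t : ℕ => a + Q * t = 0)).card ≤ 1 := by
  rw [card_le_one]
  intro t ht t' ht'
  rw [mem_filter] at ht ht'
  have h : (Q : ℤ) * t = Q * t' := by linarith [ht.2, ht'.2]
  have h2 : (t : ℤ) = t' := mul_left_cancel₀ (by exact_mod_cast hQ.ne') h
  exact_mod_cast h2

/-- the sum over the primes between `y` and `s` -/
theorem sum_le (T y s : ℕ) (hy : 0 < y) :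
    ∑ p ∈ (Ioc y s).filter Nat.Prime, ((T / p ^ 2 + 1 : ℕ) : ℝ) ≤ T / y + s := by
  rcases le_or_gt y s with hys | hys
  · calc ∑ p ∈ (Ioc y s).filter Nat.Prime, ((T / p ^ 2 + 1 : ℕ) : ℝ)
        ≤ ∑ p ∈ Ioc y s, ((T / p ^ 2 + 1 : ℕ) : ℝ) :=
          sum_le_sum_of_subset_of_nonneg (filter_subset _ _) (fun _ _ _ => Nat.cast_nonneg _)
      _ ≤ ∑ p ∈ Ioc y s, ((T : ℝ) * ((p : ℝ) ^ 2)⁻¹ + 1) := by
          refine sum_le_sum fun p _ => ?_
          push_cast
          refine add_le_add ?_ le_rfl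
          rw [← div_eq_mul_inv]
          exact_mod_cast Nat.cast_div_le (α := ℝ) (m := T) (n := p ^ 2)
      _ = (T : ℝ) * ∑ p ∈ Ioc y s, ((p : ℝ) ^ 2)⁻¹ + (s - y : ℕ) := by
          rw [sum_add_distrib, ← mul_sum, sum_const, Nat.card_Ioc, nsmul_eq_mul, mul_one]
      _ ≤ (T : ℝ) * ((y : ℝ)⁻¹ - (s : ℝ)⁻¹) + s := by
          refine add_le_add (mul_le_mul_of_nonneg_left
            (sum_Ioc_inv_sq_le_sub hy.ne' hys) (Nat.cast_nonneg _)) ?_
          exact_mod_cast Nat.sub_le s y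
      _ ≤ T / y + s := by
          have : (0 : ℝ) ≤ (T : ℝ) * (s : ℝ)⁻¹ := by positivity
          rw [div_eq_mul_inv]
          linarith
  · rw [Ioc_eq_empty (by omega)]
    simp only [filter_empty, sum_empty]
    positivity

/-- the sieve: finitely many shifts divisible by `((2 (m + 1))!) ^ 2` -/
theorem sieve {ι : Type} [Fintype ι] (m : ℕ) (hm : Fintype.card ι = m) (e : ι → ℤ)
    (he : ∀ i, (((Nat.factorial (2 * (m + 1))) ^ 2 : ℕ) : ℤ) ∣ e i) :
    ∃ x : ℤ, ∀ i, ∀ p : ℕ, p.Prime → ¬ (p : ℤ) ^ 2 ∣ x + e i := by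
  classical
  set y : ℕ := 2 * (m + 1) with hy
  set Q : ℕ := (Nat.factorial y) ^ 2 with hQdef
  have hQ : 0 < Q := pow_pos (Nat.factorial_pos _) 2
  set E : ℕ := ∑ i, (e i).natAbs with hE
  set A : ℕ := Q + E + 1 with hA
  set T : ℕ := 16 * (m + 1) ^ 2 * A with hT
  set R : ℕ := 1 + Q * T + E with hR
  set s : ℕ := Nat.sqrt R with hs
  have hA1 : 1 ≤ A := by omega
  have hT1 : 1 ≤ T := by
    have : 0 < 16 * (m + 1) ^ 2 * A := by positivity
    omega
  have hRA : R ≤ A * T := by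
    have e1 : A * T = Q * T + E * T + T := by rw [hA]; ring
    have e2 : E ≤ E * T := Nat.le_mul_of_pos_right _ hT1
    omega
  have hsle : s ≤ 4 * (m + 1) * A := by
    have h1 : s ^ 2 ≤ R := Nat.sqrt_le' R
    have h2 : A * T = (4 * (m + 1) * A) ^ 2 := by rw [hT]; ring
    have h3 : s ^ 2 ≤ (4 * (m + 1) * A) ^ 2 := by omega
    exact (Nat.pow_le_pow_iff_left (by norm_num)).1 h3
  by_contra hcon
  push Not at hcon
  -- every `t` is bad
  have hcov : range T ⊆ univ.biUnion (fun i : ι =>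
      ((range T).filter (fun t : ℕ => (1 + e i) + Q * t = 0)) ∪
      (((Ioc y s).filter Nat.Prime).biUnion fun p =>
        (range T).filter (fun t : ℕ => (p : ℤ) ^ 2 ∣ (1 + e i) + Q * t))) := by
    intro t ht
    obtain ⟨i, p, hp, hd⟩ := hcon (1 + Q * t)
    have hd' : (p : ℤ) ^ 2 ∣ (1 + e i) + Q * t := by
      have e1 : (1 : ℤ) + Q * t + e i = (1 + e i) + Q * t := by ring
      rwa [e1] at hd
    rw [mem_biUnion]
    refine ⟨i, mem_univ _, ?_⟩
    rw [mem_union]
    by_cases h0 : (1 + e i) + (Q : ℤ) * t = 0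
    · left
      exact mem_filter.2 ⟨ht, h0⟩
    · right
      rw [mem_biUnion]
      have hpy : y < p := by
        by_contra hc
        rw [not_lt] at hc
        have h1 : p ∣ Nat.factorial y := (hp.dvd_factorial).2 hc
        have h2 : (p : ℤ) ^ 2 ∣ (Q : ℤ) := by
          have := pow_dvd_pow_of_dvd h1 2
          exact_mod_cast this
        have h3 : (p : ℤ) ^ 2 ∣ e i := h2.trans (he i)
        have h4 : (p : ℤ) ^ 2 ∣ 1 := by
          have h5 := dvd_sub (dvd_sub hd' (h2.mul_right (t : ℤ))) h3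
          have e2 : 1 + e i + (Q : ℤ) * t - Q * t - e i = 1 := by ring
          rwa [e2] at h5
        have h6 : p ^ 2 ∣ 1 := by exact_mod_cast h4
        have h7 := Nat.le_of_dvd one_pos h6
        have h8 : 2 ^ 2 ≤ p ^ 2 := Nat.pow_le_pow_left hp.two_le 2
        omega
      have hps : p ≤ s := by
        rw [hs, Nat.le_sqrt']
        have h1 : (p ^ 2 : ℕ) ∣ ((1 + e i) + (Q : ℤ) * t).natAbs := by
          rw [← Int.natCast_dvd]
          push_cast
          exact hd'
        have h2 := Nat.le_of_dvd (Int.natAbs_pos.2 h0) h1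
        refine h2.trans ?_
        have h3 : ((1 + e i) + (Q : ℤ) * t).natAbs ≤ 1 + (e i).natAbs + Q * t := by
          refine (Int.natAbs_add_le _ _).trans ?_
          refine add_le_add ((Int.natAbs_add_le _ _).trans (by simp)) ?_
          rw [Int.natAbs_mul]
          simp
        have h4 : (e i).natAbs ≤ E := single_le_sum (f := fun i => (e i).natAbs)
          (fun _ _ => Nat.zero_le _) (mem_univ i)
        have h5 : Q * t ≤ Q * T := Nat.mul_le_mul_left _ (mem_range.1 ht).le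
        omega
      exact ⟨p, mem_filter.2 ⟨mem_Ioc.2 ⟨hpy, hps⟩, hp⟩, mem_filter.2 ⟨ht, hd'⟩⟩
  have hcard := card_le_card hcov
  rw [card_range] at hcard
  have hy0 : 0 < y := by omega
  have h1 : (T : ℝ) ≤ ∑ _i : ι, (1 + (T / y + s) : ℝ) := by
    calc (T : ℝ) ≤ _ := Nat.cast_le.2 hcard
      _ ≤ _ := Nat.cast_le.2 card_biUnion_le
      _ ≤ _ := by
        rw [Nat.cast_sum]
        refine sum_le_sum fun i _ => ?_
        refine (Nat.cast_le.2 (card_union_le _ _)).trans ?_
        rw [Nat.cast_add]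
        refine add_le_add ?_ ?_
        · exact_mod_cast zero_le Q T hQ (1 + e i)
        · refine (Nat.cast_le.2 card_biUnion_le).trans ?_
          rw [Nat.cast_sum]
          refine le_trans (sum_le_sum fun p hp => ?_) (sum_le T y s hy0)
          rw [mem_filter, mem_Ioc] at hp
          refine Nat.cast_le.2 (count_le Q p T hp.2.pos ?_ (1 + e i))
          rw [hQdef]
          refine Nat.Coprime.pow 2 2 ?_
          rw [hp.2.coprime_iff_not_dvd, hp.2.dvd_factorial]
          omega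
  rw [sum_const, card_univ, hm, nsmul_eq_mul] at h1
  have hTr : (T : ℝ) = 16 * ((m : ℝ) + 1) ^ 2 * A := by rw [hT]; push_cast; ring
  have hsr : (s : ℝ) ≤ 4 * ((m : ℝ) + 1) * A := by
    have : ((s : ℕ) : ℝ) ≤ ((4 * (m + 1) * A : ℕ) : ℝ) := Nat.cast_le.2 hsle
    push_cast at this
    exact this
  have hyr : (T : ℝ) / y = 8 * ((m : ℝ) + 1) * A := by
    rw [hTr, hy]
    push_cast
    field_simp
    norm_num
  have hAr : (1 : ℝ) ≤ A := by exact_mod_cast hA1
  have hm0 : (0 : ℝ) ≤ m := Nat.cast_nonneg m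
  rw [hyr] at h1
  have h2 : (m : ℝ) * (1 + (8 * ((m : ℝ) + 1) * A + s)) ≤ m * (13 * (m + 1) * A) := by
    refine mul_le_mul_of_nonneg_left ?_ hm0
    have : (1 : ℝ) ≤ ((m : ℝ) + 1) * A := by nlinarith
    linarith
  have h3 : (T : ℝ) ≤ m * (13 * (m + 1) * A) := h1.trans h2
  rw [hTr] at h3
  have hA0 : (0 : ℝ) < A := by linarith
  have h4 : (m : ℝ) * (13 * (m + 1) * A) < 16 * ((m : ℝ) + 1) ^ 2 * A := by
    have h5 : 0 < ((m : ℝ) + 1) * A := by positivity
    nlinarith
  linarith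

theorem sqfM_one (a : ℤ) (h : ∀ p : ℕ, p.Prime → ¬ (p : ℤ) ^ 2 ∣ a) : SqfM 1 a := by
  intro p hp
  have : padicValNat p ((1 : ℕ+) : ℕ) = 0 := by
    rw [PNat.one_coe]
    exact padicValNat.one
  rw [this, add_zero]
  exact h p hp

theorem main : S_SV := by
  intro k
  refine ⟨(Nat.factorial (2 * (k + 1 + 1))) ^ 2, Nat.one_le_iff_ne_zero.2
    (pow_ne_zero _ (Nat.factorial_ne_zero _)), ?_⟩
  intro d hd
  obtain ⟨x, hx⟩ := sieve (ι := Option (Fin k)) (k + 1) (by simp)
    (fun o => o.elim 0 d) (by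
      intro i
      cases i with
      | none => simp
      | some i => exact hd i)
  refine ⟨x, ?_, fun i => ?_⟩
  · refine sqfM_one _ fun p hp => ?_
    have := hx none p hp
    simpa using this
  · exact sqfM_one _ fun p hp => hx (some i) p hp

end Pool.Agent.N633.SQ.Sv

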