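import Pool.Agent.N633.SQ.Stm

/-!
Project SQ (helper633), problem MP_c6a6a6_lc: models of the theory of the integers with the
squarefree predicate (helper833).
-/

set_option autoImplicit false

open FirstOrder FirstOrder.Language

namespace Pool.Agent.N633.SQ.Tr

universe u

/-! ### terms -/

/-- the symbol of the addition -/
def sAdd : L.Functions 2 := (Fn.add : Fn 2)

/-- the symbol of the opposite -/
def sNeg : L.Functions 1 := (Fn.neg : Fn 1)

/-- the symbol of the unit -/
def sOne : L.Constants := (Fn.one : Fn 0)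

/-- the symbol of the squarefree predicate -/
def sP : L.Relations 1 := (Rl.P 1 : Rl 1)

/-- the sum of two terms -/
def tadd {α : Type} (s t : L.Term α) : L.Term α := sAdd.apply₂ s t

/-- the opposite of a term -/
def tneg {α : Type} (t : L.Term α) : L.Term α := sNeg.apply₁ t

/-- the term one -/
def tone {α : Type} : L.Term α := sOne.term

/-- the term zero -/
def tzero {α : Type} : L.Term α := tadd tone (tneg tone)

/-- natural multiples of a term -/
def tn {α : Type} : ℕ → L.Term α → L.Term α
  | 0, _ => tzero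
  | n + 1, t => tadd (tn n t) t

/-- integral multiples of the term one -/
def tz {α : Type} : ℤ → L.Term α
  | Int.ofNat n => tn n tone
  | Int.negSucc n => tneg (tn (n + 1) tone)

/-- the formula `P_1 (t)` -/
def fP {α : Type} (t : L.Term α) : L.Formula α := sP.formula₁ t

section raw

variable {A : Type*} [L.Structure A]

/-- the raw addition -/
def ad (x y : A) : A := Structure.funMap sAdd ![x, y]

/-- the raw opposite -/
def ng (x : A) : A := Structure.funMap sNeg ![x]

variable (A) in
/-- the raw unit -/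
def on : A := (sOne : A)

variable (A) in
/-- the raw zero -/
def ze : A := ad (on A) (ng (on A))

variable (A) in
/-- the raw predicate -/
def PP : Set A := {x | Structure.RelMap sP ![x]}

lemma r_tadd {α : Type} (s t : L.Term α) (v : α → A) :
    (tadd s t).realize v = ad (s.realize v) (t.realize v) := by
  unfold tadd ad
  rw [Term.realize_functions_apply₂]

lemma r_tneg {α : Type} (t : L.Term α) (v : α → A) :
    (tneg t).realize v = ng (t.realize v) := by
  unfold tneg ng
  rw [Term.realize_functions_apply₁]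

lemma r_tone {α : Type} (v : α → A) : (tone : L.Term α).realize v = on A := by
  unfold tone on
  rw [Term.realize_constants]

lemma r_tzero {α : Type} (v : α → A) : (tzero : L.Term α).realize v = ze A := by
  unfold tzero ze
  rw [r_tadd, r_tneg, r_tone]

lemma r_fP {α : Type} (t : L.Term α) (v : α → A) : (fP t).Realize v ↔ t.realize v ∈ PP A := by
  unfold fP PP
  rw [Formula.realize_rel₁]
  rfl

end raw

/-! ### the integers -/

lemma z_ad (x y : ℤ) : ad x y = x + y := rfl

lemma z_ng (x : ℤ) : ng x = - x := rfl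

lemma z_on : on ℤ = 1 := rfl

lemma z_ze : ze ℤ = 0 := rfl

lemma z_PP (x : ℤ) : x ∈ PP ℤ ↔ SqfM 1 x := Iff.rfl

/-! ### transfer -/

section
variable {M : Type u} [L.Structure M]

lemma transfer (hM : M ⊨ TSqf) {α : Type} [Finite α] (φ : L.Formula α)
    (h : ∀ x : α → ℤ, φ.Realize x) (y : α → M) : φ.Realize y := by
  have h1 : (Formula.iAlls α (φ.relabel (Sum.inr : α → Empty ⊕ α)) : L.Sentence) ∈ TSqf := by
    change _ ∈ L.completeTheory ℤ
    rw [Language.mem_completeTheory, Sentence.Realize, Formula.realize_iAlls]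
    intro x
    rw [Formula.realize_relabel]
    exact h x
  have h2 := Theory.realize_sentence_of_mem (M := M) TSqf h1
  rw [Sentence.Realize, Formula.realize_iAlls] at h2
  have h3 := h2 y
  rw [Formula.realize_relabel] at h3
  exact h3

/-- equations -/
lemma transfer_eq (hM : M ⊨ TSqf) {α : Type} [Finite α] (s t : L.Term α)
    (h : ∀ x : α → ℤ, s.realize x = t.realize x) (y : α → M) : s.realize y = t.realize y := by
  have h1 := transfer hM (s.equal t) (fun x => by rw [Formula.realize_equal]; exact h x) y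
  rw [Formula.realize_equal] at h1
  exact h1

end

/-! ### the group -/

/-- the operations of the language are those of the group -/
structure Gd (A : Type*) [L.Structure A] [AddCommGroup A] : Prop where
  had : ∀ x y : A, ad x y = x + y
  hng : ∀ x : A, ng x = - x
  hze : ze A = 0

lemma gdZ : Gd ℤ := ⟨z_ad, z_ng, z_ze⟩

section
variable {A : Type*} [L.Structure A] [AddCommGroup A]

lemma g_tadd (h : Gd A) {α : Type} (s t : L.Term α) (v : α → A) :
    (tadd s t).realize v = s.realize v + t.realize v := by rw [r_tadd, h.had]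

lemma g_tneg (h : Gd A) {α : Type} (t : L.Term α) (v : α → A) :
    (tneg t).realize v = - t.realize v := by rw [r_tneg, h.hng]

lemma g_tn (h : Gd A) {α : Type} (n : ℕ) (t : L.Term α) (v : α → A) :
    (tn n t).realize v = n • t.realize v := by
  induction n with
  | zero =>
    unfold tn
    rw [r_tzero, h.hze, zero_nsmul]
  | succ n ih =>
    unfold tn
    rw [g_tadd h, ih, succ_nsmul]

lemma g_tz (h : Gd A) {α : Type} (n : ℤ) (v : α → A) :
    (tz n : L.Term α).realize v = n • on A := by
  cases n with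
  | ofNat n =>
    unfold tz
    rw [g_tn h, r_tone]
    exact (natCast_zsmul _ _).symm
  | negSucc n =>
    unfold tz
    rw [g_tneg h, g_tn h, r_tone, negSucc_zsmul]

end

section
variable {M : Type u} [L.Structure M]

/-- the group of a model -/
@[reducible] noncomputable def grp (hM : M ⊨ TSqf) : AddCommGroup M :=
  let _ : Add M := ⟨ad⟩
  let _ : Neg M := ⟨ng⟩
  let _ : Zero M := ⟨ze M⟩
  { AddGroup.ofLeftAxioms
      (fun x y z => by
        have h := transfer_eq hM (α := Fin 3)
          (tadd (tadd (Term.var 0) (Term.var 1)) (Term.var 2))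
          (tadd (Term.var 0) (tadd (Term.var 1) (Term.var 2)))
          (fun x => by simp only [r_tadd, z_ad]; ring) ![x, y, z]
        simp only [r_tadd] at h
        exact h)
      (fun x => by
        have h := transfer_eq hM (α := Fin 1) (tadd tzero (Term.var 0)) (Term.var 0)
          (fun x => by simp only [r_tadd, r_tzero, z_ad, z_ze]; ring) ![x]
        simp only [r_tadd, r_tzero] at h
        exact h)
      (fun x => by
        have h := transfer_eq hM (α := Fin 1) (tadd (tneg (Term.var 0)) (Term.var 0)) tzero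
          (fun x => by simp only [r_tadd, r_tneg, r_tzero, z_ad, z_ze, z_ng]; ring) ![x]
        simp only [r_tadd, r_tneg, r_tzero] at h
        exact h) with
    add_comm := fun x y => by
      have h := transfer_eq hM (α := Fin 2)
        (tadd (Term.var 0) (Term.var 1)) (tadd (Term.var 1) (Term.var 0))
        (fun x => by simp only [r_tadd, z_ad]; ring) ![x, y]
      simp only [r_tadd] at h
      exact h }

lemma grp_gd (hM : M ⊨ TSqf) : @Gd M _ (grp hM) :=
  let _ := grp hM
  ⟨fun _ _ => rfl, fun _ => rfl, rfl⟩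

end

section
variable {M : Type u} [L.Structure M] [AddCommGroup M]

/-- the formula `x = n • one` -/
def fz (n : ℤ) : L.Formula (Fin 1) := (Term.var 0 : L.Term (Fin 1)).equal (tz n)

/-- the formula `x = N • y` -/
noncomputable def fmul (N : ℕ) : L.Formula (Fin 1) :=
  Formula.iExs (Fin 1) ((Term.var (Sum.inl 0) : L.Term (Fin 1 ⊕ Fin 1)).equal
    (tn N (Term.var (Sum.inr 0))))

/-- the formula `x = r • one + N • y` -/
noncomputable def fcl (r N : ℕ) : L.Formula (Fin 1) :=
  Formula.iExs (Fin 1) ((Term.var (Sum.inl 0) : L.Term (Fin 1 ⊕ Fin 1)).equal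
    (tadd (tn r tone) (tn N (Term.var (Sum.inr 0)))))

lemma r_fz (h : Gd M) (n : ℤ) (v : Fin 1 → M) : (fz n).Realize v ↔ v 0 = n • on M := by
  unfold fz
  rw [Formula.realize_equal, g_tz h]
  rfl

lemma r_fmul (h : Gd M) (N : ℕ) (v : Fin 1 → M) : (fmul N).Realize v ↔ v 0 ∈ mul M N := by
  unfold fmul
  rw [Formula.realize_iExs]
  constructor
  · rintro ⟨y, hy⟩
    rw [Formula.realize_equal, g_tn h] at hy
    exact ⟨y 0, hy⟩
  · rintro ⟨y, hy⟩
    refine ⟨fun _ => y, ?_⟩
    rw [Formula.realize_equal, g_tn h]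
    exact hy

lemma r_fcl (h : Gd M) (r N : ℕ) (v : Fin 1 → M) :
    (fcl r N).Realize v ↔ v 0 ∈ cls (on M) r N := by
  unfold fcl
  rw [Formula.realize_iExs]
  constructor
  · rintro ⟨y, hy⟩
    rw [Formula.realize_equal, g_tadd h, g_tn h, g_tn h, r_tone] at hy
    exact ⟨y 0, hy⟩
  · rintro ⟨y, hy⟩
    refine ⟨fun _ => y, ?_⟩
    rw [Formula.realize_equal, g_tadd h, g_tn h, g_tn h, r_tone]
    exact hy

lemma t_cover (hM : M ⊨ TSqf) (h : Gd M) (N : ℕ) (hN : 1 ≤ N) (x : M) :
    ∃ r < N, x ∈ cls (on M) r N := by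
  have h1 := transfer hM (Formula.iSup (fun r : Fin N => fcl r N)) (fun x => by
    rw [Formula.realize_iSup]
    refine ⟨⟨(x 0 % N).toNat, ?_⟩, ?_⟩
    · have h2 := Int.emod_lt_of_pos (x 0) (show (0 : ℤ) < N by exact_mod_cast hN)
      have h3 := Int.emod_nonneg (x 0) (show (N : ℤ) ≠ 0 by omega)
      omega
    · rw [r_fcl gdZ]
      refine ⟨x 0 / N, ?_⟩
      have h3 := Int.emod_nonneg (x 0) (show (N : ℤ) ≠ 0 by omega)
      have h4 := Int.emod_add_mul_ediv (x 0) N
      rw [z_on, nsmul_eq_mul, nsmul_eq_mul, mul_one]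
      change x 0 = (((x 0 % N).toNat : ℕ) : ℤ) + _
      rw [Int.toNat_of_nonneg h3]
      exact h4.symm) ![x]
  rw [Formula.realize_iSup] at h1
  obtain ⟨r, hr⟩ := h1
  rw [r_fcl h] at hr
  exact ⟨r, r.2, hr⟩

lemma t_disj (hM : M ⊨ TSqf) (h : Gd M) (N : ℕ) (_ : 1 ≤ N) (r : ℕ) (hr : r < N) (s : ℕ)
    (hs : s < N) (hrs : r • on M ∈ cls (on M) s N) : r = s := by
  by_contra hne
  have h1 := transfer hM (((fcl s N).subst (fun _ => tn r (tone : L.Term Empty))).not : L.Formula Empty)
    (fun x => by
      rw [Formula.realize_not, Formula.Realize, BoundedFormula.realize_subst, ← Formula.Realize,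
        r_fcl gdZ]
      rintro ⟨y, hy⟩
      rw [g_tn gdZ, r_tone, z_on, nsmul_eq_mul, nsmul_eq_mul, nsmul_eq_mul, mul_one, mul_one] at hy
      have h2 : (r : ℤ) % N = s % N := by rw [hy, Int.add_mul_emod_self_left]
      rw [Int.emod_eq_of_lt (by omega) (by omega), Int.emod_eq_of_lt (by omega) (by omega)] at h2
      exact hne (by exact_mod_cast h2)) (fun e => e.elim)
  rw [Formula.realize_not, Formula.Realize, BoundedFormula.realize_subst, ← Formula.Realize,
    r_fcl h, g_tn h, r_tone] at h1
  exact h1 hrs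

lemma t_sq (hM : M ⊨ TSqf) (h : Gd M) (p : ℕ) (hp : p.Prime) (y : M) :
    (p ^ 2) • y ∉ PP M := by
  have h1 := transfer hM (fP (tn (p ^ 2) (Term.var 0 : L.Term (Fin 1)))).not (fun x => by
    rw [Formula.realize_not, r_fP, g_tn gdZ, z_PP]
    intro h2
    apply h2 p hp
    have h3 : padicValNat p ((1 : ℕ+) : ℕ) = 0 := by simp
    rw [h3, add_zero, nsmul_eq_mul]
    push_cast
    exact dvd_mul_right _ _) ![y]
  rw [Formula.realize_not, r_fP, g_tn h] at h1
  exact h1

lemma t_common (hSV : S_SV) (hM : M ⊨ TSqf) (h : Gd M) (k : ℕ) : ∃ Q : ℕ, 1 ≤ Q ∧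
    ∀ d : Fin k → M, (∀ i, d i ∈ mul M Q) → ∃ x ∈ PP M, ∀ i, x + d i ∈ PP M := by
  obtain ⟨Q, hQ, hQ2⟩ := hSV k
  refine ⟨Q, hQ, fun d hd => ?_⟩
  choose e he using hd
  have h1 := transfer hM (Formula.iExs (Fin 1)
    ((fP (Term.var (Sum.inr 0) : L.Term (Fin k ⊕ Fin 1))) ⊓
      Formula.iInf (fun i : Fin k => fP (tadd (Term.var (Sum.inr 0) : L.Term (Fin k ⊕ Fin 1))
        (tn Q (Term.var (Sum.inl i))))))) (fun x => by
    rw [Formula.realize_iExs]
    obtain ⟨z, hz1, hz2⟩ := hQ2 (fun i => Q • x i) (fun i => by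
      rw [nsmul_eq_mul]; exact dvd_mul_right _ _)
    refine ⟨fun _ => z, ?_⟩
    rw [Formula.realize_inf, Formula.realize_iInf]
    refine ⟨?_, fun i => ?_⟩
    · rw [r_fP]
      exact hz1
    · rw [r_fP, g_tadd gdZ, g_tn gdZ]
      exact hz2 i) e
  rw [Formula.realize_iExs] at h1
  obtain ⟨z, hz⟩ := h1
  rw [Formula.realize_inf, Formula.realize_iInf, r_fP] at hz
  refine ⟨z 0, hz.1, fun i => ?_⟩
  have h2 := hz.2 i
  rw [r_fP, g_tadd h, g_tn h] at h2
  rw [he i]
  exact h2

lemma t_last (hM : M ⊨ TSqf) (h : Gd M) (A : Set M) (hA : DS0 L A) (N : ℕ)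
    (hy : ∃ y : M, N • y ∈ A) : ∃ n : ℤ, (N * n) • on M ∈ A := by
  obtain ⟨θ, hθ⟩ := Set.empty_definable_iff.1 hA
  have hθ' : ∀ y : M, y ∈ A ↔ θ.Realize (fun _ => y) := by
    intro y
    have h1 : ((fun _ => y : Fin 1 → M) ∈ up A) ↔ θ.Realize (fun _ => y) := by
      rw [hθ]
      rfl
    rw [← h1]
    rfl
  by_contra hcon
  push Not at hcon
  -- no integer
  have h1 : ∀ n : ℤ, ¬ θ.Realize (fun _ => N * n : Fin 1 → ℤ) := by
    intro n hn
    have h2 := transfer hM (θ.subst (fun _ => tz (N * n) : Fin 1 → L.Term Empty) : L.Formula Empty)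
      (fun x => by
        rw [Formula.Realize, BoundedFormula.realize_subst, ← Formula.Realize]
        simp only [g_tz gdZ, z_on]
        rw [zsmul_eq_mul, mul_one]
        exact hn) (fun e => e.elim)
    rw [Formula.Realize, BoundedFormula.realize_subst, ← Formula.Realize] at h2
    simp only [g_tz h] at h2
    exact hcon n ((hθ' _).2 h2)
  obtain ⟨y, hy⟩ := hy
  have h3 := transfer hM ((θ.subst (fun _ => tn N (Term.var 0) : Fin 1 → L.Term (Fin 1))).not :
    L.Formula (Fin 1)) (fun x => by
      rw [Formula.realize_not, Formula.Realize, BoundedFormula.realize_subst, ← Formula.Realize]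
      simp only [g_tn gdZ]
      rw [nsmul_eq_mul]
      exact h1 (x 0)) (fun _ => y)
  rw [Formula.realize_not, Formula.Realize, BoundedFormula.realize_subst, ← Formula.Realize] at h3
  simp only [g_tn h] at h3
  exact h3 ((hθ' _).1 hy)

omit [AddCommGroup M] in
lemma t_ne (hM : M ⊨ TSqf) : on M ≠ ze M := by
  have h1 := transfer hM (((tone : L.Term Empty).equal tzero).not) (fun x => by
    rw [Formula.realize_not, Formula.realize_equal, r_tone, r_tzero, z_on, z_ze]
    exact one_ne_zero) (fun e => e.elim)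
  rw [Formula.realize_not, Formula.realize_equal, r_tone, r_tzero] at h1
  exact h1

end

theorem main : S_SV → S_TR.{u} := by
  intro hSV M _ hM
  let _ := grp hM
  have h : Gd M := grp_gd hM
  refine ⟨grp hM, on M, PP M, ?_, ?_, ⟨on M, ze M, t_ne hM⟩, ?_, ?_, t_cover hM h, t_disj hM h,
    t_sq hM h, t_common hSV hM h, fun A hA N _ hy => t_last hM h A hA N hy⟩
  · refine Set.empty_definable_iff.2 ⟨(Term.var 2 : L.Term (Fin 3)).equal
      (tadd (Term.var 0) (Term.var 1)), ?_⟩
    ext z
    change _ ↔ Formula.Realize _ _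
    rw [Formula.realize_equal, g_tadd h]
    rfl
  · refine Set.empty_definable_iff.2 ⟨fP (Term.var 0), ?_⟩
    ext z
    change _ ↔ Formula.Realize _ _
    rw [r_fP]
    rfl
  · intro n
    refine Set.empty_definable_iff.2 ⟨fz n, ?_⟩
    ext z
    change _ ↔ Formula.Realize _ _
    rw [r_fz h]
    rfl
  · intro N _
    refine Set.empty_definable_iff.2 ⟨fmul N, ?_⟩
    ext z
    change _ ↔ Formula.Realize _ _
    rw [r_fmul h]
    rfl

end Pool.Agent.N633.SQ.Tr
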